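import Mathlib

/-!
Orbits of `x ↦ f(x) + φ` in a valued algebra over a field of constants.
-/

set_option autoImplicit false

open Polynomial

namespace Pool.Agent.Lib.MP_a5410e_nt

section orbit

variable {k B B' : Type*} [Field k] [CommRing B] [Algebra k B] [CommRing B'] [Algebra k B']

/-- The orbit of `a` under `x ↦ f(x) + φ`. -/
noncomputable def orb (f : k[X]) (φ a : B) (n : ℕ) : B := (fun x => aeval x f + φ)^[n] a

@[simp] theorem orb_zero (f : k[X]) (φ a : B) : orb f φ a 0 = a := rfl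

theorem orb_succ (f : k[X]) (φ a : B) (n : ℕ) :
    orb f φ a (n + 1) = aeval (orb f φ a n) f + φ := by
  unfold orb; rw [Function.iterate_succ_apply']

theorem orb_add (f : k[X]) (φ a : B) (m n : ℕ) :
    orb f φ a (m + n) = orb f φ (orb f φ a m) n := by
  unfold orb; rw [add_comm, Function.iterate_add_apply]

theorem map_orb (ψ : B →ₐ[k] B') (f : k[X]) (φ a : B) (n : ℕ) :
    ψ (orb f φ a n) = orb f (ψ φ) (ψ a) n := by
  induction n with
  | zero => rfl
  | succ n ih => rw [orb_succ, orb_succ, map_add, ← ih, aeval_algHom_apply]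

end orbit

section val

variable {k B Γ : Type*} [Field k] [CommRing B] [Algebra k B] [LinearOrderedCommGroupWithZero Γ]
variable (v : Valuation B Γ) (hk : ∀ c : k, v (algebraMap k B c) ≤ 1)
include hk

theorem v_const {c : k} (hc : c ≠ 0) : v (algebraMap k B c) = 1 := by
  have h1 : v (algebraMap k B c) * v (algebraMap k B c⁻¹) = 1 := by
    rw [← map_mul, ← map_mul, mul_inv_cancel₀ hc, map_one, map_one]
  refine le_antisymm (hk c) ?_
  calc (1 : Γ) = v (algebraMap k B c) * v (algebraMap k B c⁻¹) := h1.symm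
    _ ≤ v (algebraMap k B c) * 1 := by gcongr; exact hk _
    _ = _ := mul_one _

theorem v_aeval_le' (g : k[X]) {x : B} {r : Γ} (hx : v x ≤ r) (hr : 1 ≤ r) {n : ℕ}
    (hn : g.natDegree ≤ n) : v (aeval x g) ≤ r ^ n := by
  rw [aeval_eq_sum_range]
  refine v.map_sum_le fun i hi => ?_
  have hi' : i ≤ n := by have := Finset.mem_range.mp hi; omega
  rw [Algebra.smul_def, map_mul, map_pow]
  calc v (algebraMap k B (g.coeff i)) * v x ^ i ≤ 1 * r ^ i := by gcongr; exact hk _
    _ = r ^ i := one_mul _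
    _ ≤ r ^ n := pow_le_pow_right₀ hr hi'

theorem v_aeval_le (g : k[X]) {x : B} {r : Γ} (hx : v x ≤ r) (hr : 1 ≤ r) :
    v (aeval x g) ≤ r ^ g.natDegree := v_aeval_le' v hk g hx hr le_rfl

theorem v_aeval_eq {g : k[X]} (hg : g ≠ 0) {x : B} (hx : 1 < v x) :
    v (aeval x g) = v x ^ g.natDegree := by
  have hlead : v (aeval x (C g.leadingCoeff * X ^ g.natDegree)) = v x ^ g.natDegree := by
    rw [map_mul, aeval_C, map_pow, aeval_X, map_mul, map_pow,
      v_const v hk (leadingCoeff_ne_zero.mpr hg), one_mul]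
  conv_lhs => rw [← eraseLead_add_C_mul_X_pow g, map_add]
  rcases eraseLead_natDegree_lt_or_eraseLead_eq_zero g with h | h
  · rw [v.map_add_eq_of_lt_right, hlead]
    rw [hlead]
    exact (v_aeval_le v hk _ le_rfl hx.le).trans_lt (pow_lt_pow_right₀ hx h)
  · rw [h, map_zero, zero_add, hlead]

omit hk in
theorem v_pow_sub_pow_le {x y : B} {r : Γ} (hx : v x ≤ r) (hy : v y ≤ r) (n : ℕ) :
    v (x ^ n - y ^ n) ≤ r ^ (n - 1) * v (x - y) := by
  rw [← Commute.geom_sum₂_mul (Commute.all x y), map_mul]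
  gcongr
  refine v.map_sum_le fun i hi => ?_
  have hi' := Finset.mem_range.mp hi
  rw [map_mul, map_pow, map_pow]
  calc v x ^ i * v y ^ (n - 1 - i) ≤ r ^ i * r ^ (n - 1 - i) := by gcongr
    _ = r ^ (n - 1) := by rw [← pow_add]; congr 1; omega

theorem v_aeval_sub_le (g : k[X]) {x y : B} {r : Γ} (hx : v x ≤ r) (hy : v y ≤ r) (hr : 1 ≤ r) :
    v (aeval x g - aeval y g) ≤ r ^ (g.natDegree - 1) * v (x - y) := by
  rw [aeval_eq_sum_range, aeval_eq_sum_range, ← Finset.sum_sub_distrib]
  refine v.map_sum_le fun i hi => ?_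
  have hi' : i - 1 ≤ g.natDegree - 1 := by have := Finset.mem_range.mp hi; omega
  rw [← smul_sub, Algebra.smul_def, map_mul]
  calc v (algebraMap k B (g.coeff i)) * v (x ^ i - y ^ i) ≤ 1 * (r ^ (i - 1) * v (x - y)) := by
        gcongr
        · exact hk _
        · exact v_pow_sub_pow_le v hx hy i
    _ = r ^ (i - 1) * v (x - y) := one_mul _
    _ ≤ _ := by gcongr

variable {f : k[X]} (hd : 2 ≤ f.natDegree)
include hd

omit hk in
theorem ne_zero_of_two_le : f ≠ 0 := by
  rintro rfl
  simp at hd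

theorem v_step {φ x : B} (hx : 1 < v x) (hφ : v φ < v x ^ f.natDegree) :
    v (aeval x f + φ) = v x ^ f.natDegree := by
  have h := v_aeval_eq v hk (ne_zero_of_two_le hd) hx
  rw [v.map_add_eq_of_lt_left, h]
  rwa [h]

theorem v_escape {φ x : B} (hx : 1 < v x) (hφ : v φ < v x ^ f.natDegree) (n : ℕ) :
    v (orb f φ x n) = v x ^ (f.natDegree ^ n) := by
  induction n with
  | zero => simp
  | succ n ih =>
    have hpos : 1 ≤ f.natDegree ^ n := Nat.one_le_pow _ _ (by omega)
    have hle : v x ≤ v (orb f φ x n) := by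
      rw [ih]; exact le_self_pow₀ hx.le (by omega)
    rw [orb_succ, v_step v hk hd (hx.trans_le hle), ih, ← pow_mul, pow_succ]
    exact hφ.trans_le (pow_le_pow_left₀ zero_le hle _)

omit hk in
theorem lt_pow_deg (n : ℕ) : n < f.natDegree ^ n :=
  (Nat.lt_two_pow_self).trans_le (Nat.pow_le_pow_left hd n)

/-- An orbit that is still of size at most `R ^ M` at time `m` was of size at most `R` at all
times `l ≤ m - M`. -/
theorem v_deep {R : Γ} (hR : 1 < R) {φ a : B} (hφ : v φ ≤ R ^ f.natDegree) {M m l : ℕ}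
    (hm : v (orb f φ a m) ≤ R ^ M) (hl : l + M ≤ m) : v (orb f φ a l) ≤ R := by
  by_contra hc
  push Not at hc
  obtain ⟨r, rfl⟩ := Nat.exists_eq_add_of_le (show l ≤ m by omega)
  have h1 : 1 < v (orb f φ a l) := hR.trans hc
  rw [orb_add, v_escape v hk hd h1
    (hφ.trans_lt (pow_lt_pow_left₀ hc zero_le (by omega)))] at hm
  have h2 : M < f.natDegree ^ r := lt_of_le_of_lt (by omega) (lt_pow_deg hd r)
  have h3 : R ^ M < v (orb f φ a l) ^ (f.natDegree ^ r) :=
    (pow_lt_pow_right₀ hR h2).trans_le (pow_le_pow_left₀ zero_le hc.le _)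
  exact absurd hm (not_le.mpr h3)

theorem v_param {φ t : B} (ht : 1 < v t) {M m : ℕ}
    (hm : v (orb f φ t m) ≤ v t ^ M) (hl : M + 1 ≤ m) : v φ = v t ^ f.natDegree := by
  rcases lt_trichotomy (v φ) (v t ^ f.natDegree) with h | h | h
  · rw [v_escape v hk hd ht h] at hm
    have h2 : M < f.natDegree ^ m := lt_of_le_of_lt (by omega) (lt_pow_deg hd m)
    exact absurd hm (not_le.mpr (pow_lt_pow_right₀ ht h2))
  · exact h
  · exfalso
    obtain ⟨r, rfl⟩ := Nat.exists_eq_add_of_le (show 1 ≤ m by omega)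
    have h0 : v t < v φ := (lt_self_pow₀ ht (by omega)).trans h
    have h1 : v (orb f φ t 1) = v φ := by
      rw [orb_succ, orb_zero, v.map_add_eq_of_lt_right]
      rwa [v_aeval_eq v hk (ne_zero_of_two_le hd) ht]
    have h2 : 1 < v (orb f φ t 1) := by rw [h1]; exact ht.trans h0
    rw [orb_add, v_escape v hk hd h2 (by rw [h1]; exact lt_self_pow₀ (ht.trans h0) (by omega)),
      h1] at hm
    have h3 : M < f.natDegree ^ r := lt_of_le_of_lt (by omega) (lt_pow_deg hd r)
    have h4 : v t ^ M < v φ ^ (f.natDegree ^ r) :=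
      (pow_lt_pow_right₀ ht h3).trans_le (pow_le_pow_left₀ zero_le h0.le _)
    exact absurd hm (not_le.mpr h4)

theorem v_small_step {R : Γ} (hR : 1 < R) {φ x : B} (hφ : v φ = R ^ f.natDegree)
    (hx : v x < R) : v (aeval x f + φ) = R ^ f.natDegree := by
  rw [v.map_add_eq_of_lt_right, hφ]
  rw [hφ]
  have h1 : v (aeval x f) ≤ (max 1 (v x)) ^ f.natDegree :=
    v_aeval_le v hk f (le_max_right _ _) (le_max_left _ _)
  exact h1.trans_lt (pow_lt_pow_left₀ (max_lt hR hx) zero_le (by omega))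

theorem v_eq_of_step {R : Γ} (hR : 1 < R) {φ x : B} (hφ : v φ = R ^ f.natDegree)
    (hx : v (aeval x f + φ) ≤ R) : v x = R := by
  have hRd : R < R ^ f.natDegree := lt_self_pow₀ hR (by omega)
  rcases lt_trichotomy (v x) R with h | h | h
  · rw [v_small_step v hk hd hR hφ h] at hx
    exact absurd hx (not_le.mpr hRd)
  · exact h
  · have h2 : R ^ f.natDegree < v x ^ f.natDegree := pow_lt_pow_left₀ h zero_le (by omega)
    rw [v_step v hk hd (hR.trans h) (by rw [hφ]; exact h2)] at hx
    exact absurd hx (not_le.mpr (hRd.trans h2))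

/-- A periodic start has a bounded orbit. -/
theorem v_periodic {φ t : B} (ht : 1 < v t) {i : ℕ} (hi : 1 ≤ i) (h : orb f φ t i = t) (l : ℕ) :
    v (orb f φ t l) ≤ v t := by
  have hper : ∀ n, orb f φ t (n * i) = t := by
    intro n
    induction n with
    | zero => simp
    | succ n ih => rw [Nat.succ_mul, orb_add, ih, h]
  have hle : ∀ n, n ≤ n * i := fun n => Nat.le_mul_of_pos_right n hi
  have hφ : v φ = v t ^ f.natDegree :=
    v_param v hk hd ht (M := 1) (m := 2 * i) (by rw [hper, pow_one]) (by omega)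
  exact v_deep v hk hd ht hφ.le (M := 1) (m := (l + 1) * i) (by rw [hper, pow_one]) (hle _)

theorem v_param_of_bounded {φ t : B} (ht : 1 < v t) (h : ∀ l, v (orb f φ t l) ≤ v t) :
    v φ = v t ^ f.natDegree :=
  v_param v hk hd ht (M := 1) (m := 2) (by rw [pow_one]; exact h 2) le_rfl

theorem v_eq_of_bounded {φ t : B} (ht : 1 < v t) (h : ∀ l, v (orb f φ t l) ≤ v t) (l : ℕ) :
    v (orb f φ t l) = v t :=
  v_eq_of_step v hk hd ht (v_param_of_bounded v hk hd ht h) (by rw [← orb_succ]; exact h _)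

end val

section poly

variable {k F : Type*} [Field k] [Field F] [Algebra k F]

/-- The `n`-th point of the orbit of `a` as a polynomial in the parameter. -/
noncomputable def zp (f : k[X]) (a : F) (n : ℕ) : F[X] := orb f X (C a) n

theorem zp_zero (f : k[X]) (a : F) : zp f a 0 = C a := rfl

theorem zp_succ (f : k[X]) (a : F) (n : ℕ) : zp f a (n + 1) = aeval (zp f a n) f + X :=
  orb_succ _ _ _ _

theorem aeval_zp {B : Type*} [CommRing B] [Algebra k B] [Algebra F B] [IsScalarTower k F B]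
    (f : k[X]) (a : F) (n : ℕ) (c : B) :
    aeval c (zp f a n) = orb f c (algebraMap F B a) n := by
  have := map_orb ((aeval c : F[X] →ₐ[F] B).restrictScalars k) f X (C a) n
  simpa [zp] using this

theorem eval_zp (f : k[X]) (a : F) (n : ℕ) (c : F) : (zp f a n).eval c = orb f c a n := by
  have := aeval_zp f a n c
  simpa [coe_aeval_eq_eval] using this

theorem aeval_poly (g : k[X]) (P : F[X]) : aeval P g = (g.map (algebraMap k F)).comp P := by
  rw [comp_eq_aeval, aeval_map_algebraMap]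

theorem natDegree_aeval_poly (g : k[X]) (P : F[X]) :
    (aeval P g).natDegree = g.natDegree * P.natDegree := by
  rw [aeval_poly, natDegree_comp, natDegree_map]

theorem leadingCoeff_aeval_poly (g : k[X]) {P : F[X]} (hP : P.natDegree ≠ 0) :
    (aeval P g).leadingCoeff = algebraMap k F g.leadingCoeff * P.leadingCoeff ^ g.natDegree := by
  rw [aeval_poly, leadingCoeff_comp hP, natDegree_map, leadingCoeff_map]

theorem aeval_C_poly (g : k[X]) (a : F) : aeval (C a : F[X]) g = C (aeval a g) := by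
  have := aeval_algHom_apply ((CAlgHom : F →ₐ[F] F[X]).restrictScalars k) a g
  simpa using this

theorem zp_one (f : k[X]) (a : F) : zp f a 1 = X + C (aeval a f) := by
  rw [zp_succ, zp_zero, aeval_C_poly, add_comm]

variable {f : k[X]} (hd : 2 ≤ f.natDegree)
include hd

theorem zp_deg (a : F) (n : ℕ) : (zp f a (n + 1)).natDegree = f.natDegree ^ n ∧
    ∃ c : k, c ≠ 0 ∧ (zp f a (n + 1)).leadingCoeff = algebraMap k F c := by
  induction n with
  | zero =>
    rw [zp_one]
    exact ⟨by simp, 1, one_ne_zero, by rw [leadingCoeff_X_add_C, map_one]⟩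
  | succ n ih =>
    obtain ⟨h1, c, hc, h2⟩ := ih
    have hpos : 1 ≤ f.natDegree ^ n := Nat.one_le_pow _ _ (by omega)
    have h3 : (aeval (zp f a (n + 1)) f).natDegree = f.natDegree ^ (n + 1) := by
      rw [natDegree_aeval_poly, h1, pow_succ']
    have h4 : (X : F[X]).natDegree < (aeval (zp f a (n + 1)) f).natDegree := by
      rw [h3, natDegree_X, pow_succ]; nlinarith
    rw [zp_succ]
    refine ⟨by rw [natDegree_add_eq_left_of_natDegree_lt h4, h3],
      f.leadingCoeff * c ^ f.natDegree,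
      mul_ne_zero (leadingCoeff_ne_zero.mpr (ne_zero_of_two_le hd)) (pow_ne_zero _ hc), ?_⟩
    rw [leadingCoeff_add_of_degree_lt' (degree_lt_degree h4),
      leadingCoeff_aeval_poly _ (by omega), h2, map_mul, map_pow]

theorem zp_sub_C_deg (a b : F) (n : ℕ) : (zp f a (n + 1) - C b).natDegree = f.natDegree ^ n ∧
    ∃ c : k, c ≠ 0 ∧ (zp f a (n + 1) - C b).leadingCoeff = algebraMap k F c := by
  obtain ⟨h1, c, hc, h2⟩ := zp_deg hd a n
  have hpos : 1 ≤ f.natDegree ^ n := Nat.one_le_pow _ _ (by omega)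
  refine ⟨by rw [natDegree_sub_C, h1], c, hc, ?_⟩
  rw [leadingCoeff_sub_of_degree_lt, h2]
  exact degree_lt_degree (by rw [natDegree_C, h1]; omega)

theorem zp_sub_C_ne_zero (a b : F) (n : ℕ) : zp f a (n + 1) - C b ≠ 0 := by
  intro h
  have h1 := (zp_sub_C_deg hd a b n).1
  have hpos : 1 ≤ f.natDegree ^ n := Nat.one_le_pow _ _ (by omega)
  rw [h, natDegree_zero] at h1
  omega

/-- Only finitely many parameters send `a` to `b` in at most `m₀` steps. -/
theorem finite_early (a b : F) (m₀ : ℕ) :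
    {c : F | ∃ m, 1 ≤ m ∧ m ≤ m₀ ∧ orb f c a m = b}.Finite := by
  have : {c : F | ∃ m, 1 ≤ m ∧ m ≤ m₀ ∧ orb f c a m = b} ⊆
      ⋃ n ∈ Finset.range m₀, {c | IsRoot (zp f a (n + 1) - C b) c} := by
    rintro c ⟨m, h1, h2, h3⟩
    obtain ⟨n, rfl⟩ := Nat.exists_eq_add_of_le' h1
    simp only [Set.mem_iUnion, Set.mem_ofPred_eq]
    exact ⟨n, Finset.mem_range.mpr (by omega), by simp [IsRoot, eval_zp, h3]⟩
  refine Set.Finite.subset ?_ this
  exact Set.Finite.biUnion (Finset.finite_toSet _)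
    fun n _ => finite_setOfPred_isRoot (zp_sub_C_ne_zero hd a b n)

end poly

end Pool.Agent.Lib.MP_a5410e_nt
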