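import Pool.Agent.Lib.MP_a5410e_nt.Glob

/-!
Subfields of the rational function field that contain a non-constant polynomial.
-/

set_option autoImplicit false

open Polynomial IntermediateField NNReal

namespace Pool.Agent.Lib.MP_a5410e_nt

variable {k : Type*} [Field k]

theorem finrank_poly (P : k[X]) :
    Module.finrank (adjoin k {algebraMap k[X] (RatFunc k) P}) (RatFunc k) = P.natDegree := by
  rw [RatFunc.finrank_eq_max_natDegree, RatFunc.num_algebraMap, RatFunc.denom_algebraMap,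
    natDegree_one, max_eq_left (Nat.zero_le _)]

theorem finrank_dvd_natDegree {K : IntermediateField k (RatFunc k)} {P : k[X]}
    (h : algebraMap k[X] (RatFunc k) P ∈ K) : Module.finrank K (RatFunc k) ∣ P.natDegree := by
  rw [← finrank_poly]
  exact finrank_dvd_of_le_left (adjoin_simple_le_iff.mpr h)

theorem finrank_le_mul {E : Type*} [Field E] [Algebra k E] (L : IntermediateField k E) (x : E)
    {g : L[X]} (hg : g ≠ 0) (hx : aeval x g = 0) :
    Module.finrank L E ≤ g.natDegree * Module.finrank (L ⊔ adjoin k {x} : IntermediateField k E) E := by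
  have hint : IsIntegral L x := (show IsAlgebraic L x from ⟨g, hg, hx⟩).isIntegral
  rw [← Module.finrank_mul_finrank L (adjoin L {x}) E, adjoin.finrank hint,
    ← restrictScalars_adjoin_eq_sup]
  exact Nat.mul_le_mul (natDegree_le_of_dvd (minpoly.dvd L x hx) hg) le_rfl

theorem natDegree_le_of_eq {g y z : k[X]} (hg : 1 ≤ g.natDegree) (h : aeval z g = aeval y g)
    (hne : z ≠ y) : y.natDegree ≤ (g.natDegree - 1) * Module.finrank
      (adjoin k {algebraMap k[X] (RatFunc k) y} ⊔ adjoin k {algebraMap k[X] (RatFunc k) z} :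
        IntermediateField k (RatFunc k)) (RatFunc k) := by
  set L := adjoin k {algebraMap k[X] (RatFunc k) y} with hL
  let y' : L := ⟨algebraMap k[X] (RatFunc k) y, mem_adjoin_simple_self k _⟩
  set G₀ : L[X] := g.map (algebraMap k L) - C (aeval y' g) with hG₀
  have h1 : G₀.IsRoot y' := by simp [hG₀, IsRoot, eval_map_algebraMap]
  have h2 : G₀.natDegree = g.natDegree := by rw [hG₀, natDegree_sub_C, natDegree_map]
  have h3 := mul_divByMonic_eq_iff_isRoot.mpr h1
  set G₁ := G₀ /ₘ (X - C y') with hG₁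
  have h4 : G₁ ≠ 0 := by
    intro h0
    rw [h0, mul_zero] at h3
    rw [← h3, natDegree_zero] at h2
    omega
  have h5 : G₁.natDegree = g.natDegree - 1 := by
    rw [← h3, natDegree_mul (X_sub_C_ne_zero _) h4, natDegree_X_sub_C] at h2
    omega
  have h6 : aeval (algebraMap k[X] (RatFunc k) z) G₀ = 0 := by
    rw [hG₀, map_sub, aeval_map_algebraMap, aeval_C, aeval_algebraMap_apply, h,
      ← aeval_algebraMap_apply, ← aeval_algebraMap_apply (RatFunc k) y' g]
    exact sub_self _
  rw [← h3, map_mul, map_sub, aeval_X, aeval_C] at h6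
  have h7 := (mul_eq_zero.mp h6).resolve_left (sub_ne_zero.mpr fun h0 =>
    hne (IsFractionRing.injective k[X] (RatFunc k) h0))
  rw [← finrank_poly y, ← h5]
  exact finrank_le_mul L _ h4 h7

theorem exists_gen (K : IntermediateField k (RatFunc k)) {y : k[X]}
    (hy : algebraMap k[X] (RatFunc k) y ∈ K) (hy0 : y.natDegree ≠ 0) :
    ∃ v : k[X], v.natDegree = Module.finrank K (RatFunc k) ∧ v.natDegree ≠ 0 ∧
      algebraMap k[X] (RatFunc k) v ∈ K := by
  classical
  have hyne : y ≠ 0 := by rintro rfl; simp at hy0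
  obtain ⟨y₁, hm, hdeg, hy₁⟩ : ∃ y₁ : k[X], y₁.Monic ∧ y₁.natDegree ≠ 0 ∧
      algebraMap k[X] (RatFunc k) y₁ ∈ K := by
    refine ⟨y * C y.leadingCoeff⁻¹, monic_mul_leadingCoeff_inv hyne, ?_, ?_⟩
    · rwa [natDegree_mul_leadingCoeff_inv _ hyne]
    · rw [map_mul]
      exact K.mul_mem hy (K.algebraMap_mem y.leadingCoeff⁻¹)
  have h2 : (0 : ℝ≥0) < 2 := by norm_num
  have h12 : (1 : ℝ≥0) < 2 := by norm_num
  let w₀ : Valuation k[X] ℝ≥0 := gv (1 : Valuation k ℝ≥0) 2 h2
  have hk₀ : ∀ c : k, w₀ (algebraMap k k[X] c) ≤ 1 :=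
    gv_const (1 : Valuation k ℝ≥0) h2 (k := k) fun c => Valuation.one_apply_le_one _
  have hX₀ : w₀ X = 2 := gv_X _ _
  have hw₀ : ∀ Q : k[X], Q ≠ 0 → w₀ Q = 2 ^ Q.natDegree := fun Q hQ => by
    have := v_aeval_eq w₀ hk₀ hQ (x := X) (by rw [hX₀]; exact h12)
    rwa [aeval_X_left_apply, hX₀] at this
  have hS : nonZeroDivisors k[X] ≤ w₀.supp.primeCompl := fun Q hQ h0 => by
    have h1 : w₀ Q = 0 := h0
    rw [hw₀ Q (nonZeroDivisors.ne_zero hQ)] at h1
    exact pow_ne_zero _ h2.ne' h1
  let W : Valuation (RatFunc k) ℝ≥0 := w₀.extendToLocalization hS (RatFunc k)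
  have hW : ∀ Q : k[X], W (algebraMap k[X] (RatFunc k) Q) = w₀ Q := fun Q =>
    Valuation.extendToLocalization_apply_map_apply _ _ _ _
  have hkW : ∀ c : k, W (algebraMap k (RatFunc k) c) ≤ 1 := fun c => by
    rw [IsScalarTower.algebraMap_apply k k[X] (RatFunc k), hW]; exact hk₀ c
  set t : RatFunc k := RatFunc.X with ht
  have hWt : W t = 2 := by rw [ht, ← RatFunc.algebraMap_X, hW, hX₀]
  let PK : K[X] := y₁.map (algebraMap k K) - C ⟨_, hy₁⟩
  have hPK0 : aeval t PK = 0 := by
    simp only [PK, map_sub, aeval_map_algebraMap, aeval_C]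
    rw [ht, RatFunc.aeval_X_left_eq_algebraMap]
    exact sub_self _
  have hPKm : PK.Monic := (hm.map _).sub_of_left (degree_lt_degree (by
    rw [natDegree_C, natDegree_map]; omega))
  have hint : IsIntegral K t := ⟨PK, hPKm, hPK0⟩
  set μ := minpoly K t with hμ
  have hr : μ.natDegree = Module.finrank K (RatFunc k) := by
    rw [hμ, ← adjoin.finrank hint, ht, RatFunc.IntermediateField.adjoin_X, finrank_top']
  let P₀ : k[X][X] := y₁.map (algebraMap k k[X]) - C y₁
  have hP₀m : P₀.Monic := (hm.map _).sub_of_left (degree_lt_degree (by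
    rw [natDegree_C, natDegree_map_eq_of_injective (RingHom.injective _)]; omega))
  have hPE : P₀.map (algebraMap k[X] (RatFunc k)) = PK.map (algebraMap K (RatFunc k)) := by
    simp only [P₀, PK, Polynomial.map_sub, Polynomial.map_map, map_C,
      ← IsScalarTower.algebraMap_eq]
    rfl
  have hμm : (μ.map (algebraMap K (RatFunc k))).Monic := (minpoly.monic hint).map _
  have hdvd : μ.map (algebraMap K (RatFunc k)) ∣ P₀.map (algebraMap k[X] (RatFunc k)) := by
    rw [hPE]; exact Polynomial.map_dvd _ (minpoly.dvd K t hPK0)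
  obtain ⟨μ₀, hμ₀⟩ := IsIntegrallyClosed.eq_map_mul_C_of_dvd (RatFunc k) hP₀m hdvd
  rw [hμm.leadingCoeff, C_1, mul_one] at hμ₀
  set μE := μ.map (algebraMap K (RatFunc k)) with hμE
  have hμEd : μE.natDegree = μ.natDegree := natDegree_map _
  have hco : ∀ i, algebraMap k[X] (RatFunc k) (μ₀.coeff i) = μE.coeff i := fun i => by
    rw [← hμ₀, coeff_map]
  have hmem : ∀ i, algebraMap k[X] (RatFunc k) (μ₀.coeff i) ∈ K := fun i => by
    rw [hco, hμE, coeff_map]; exact (μ.coeff i).2
  obtain ⟨ν, hν⟩ := hdvd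
  have hνm : ν.Monic := hμm.of_mul_monic_left (hν ▸ hP₀m.map _)
  have hN : y₁.natDegree = μE.natDegree + ν.natDegree := by
    rw [← hμm.natDegree_mul hνm, ← hν, hPE, natDegree_map]
    simp only [PK]
    rw [natDegree_sub_C, natDegree_map]
  have hb : gn W 2 μE ≤ 2 ^ μE.natDegree := by
    have e1 : gv W 2 h2 (P₀.map (algebraMap k[X] (RatFunc k))) ≤ 2 ^ y₁.natDegree := by
      have e0 : P₀.map (algebraMap k[X] (RatFunc k)) =
          aeval (X : (RatFunc k)[X]) y₁ - C (algebraMap k[X] (RatFunc k) y₁) := by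
        simp only [P₀, Polynomial.map_sub, Polynomial.map_map, map_C,
          ← IsScalarTower.algebraMap_eq, aeval_poly, comp_X]
      rw [e0]
      refine ((gv W 2 h2).map_sub _ _).trans (max_le ?_ ?_)
      · exact v_aeval_le _ (gv_const W h2 hkW) y₁ (gv_X W h2).le h12.le
      · rw [gv_C, hW, hw₀ _ hm.ne_zero]
    have e2 := coeff_le_gn W 2 ν ν.natDegree
    rw [hνm.coeff_natDegree, map_one, one_mul] at e2
    rw [hν, map_mul, gv_apply, gv_apply, hN, pow_add] at e1
    exact le_of_mul_le_mul_right ((mul_le_mul_right e2 _).trans e1) (pow_pos h2 _)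
  obtain ⟨i, hi⟩ : ∃ i, (μ₀.coeff i).natDegree ≠ 0 := by
    by_contra hc
    push Not at hc
    refine eval_ne_zero_of_dominant W μE t ?_ (fun i hi => ?_) ?_
    · rw [hμm.leadingCoeff, map_one, one_mul, hWt]; exact pow_ne_zero _ h2.ne'
    · rw [hμm.leadingCoeff, map_one, one_mul, hWt, ← hco, hW, eq_C_of_natDegree_eq_zero (hc i)]
      calc w₀ (C ((μ₀.coeff i).coeff 0)) * 2 ^ i ≤ 1 * 2 ^ i := mul_le_mul_left (hk₀ _) _
        _ = _ := one_mul _
        _ < _ := pow_lt_pow_right₀ h12 hi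
    · rw [hμE, eval_map_algebraMap]; exact minpoly.aeval K t
  refine ⟨μ₀.coeff i, le_antisymm ?_ (Nat.le_of_dvd (by omega) (finrank_dvd_natDegree (hmem i))),
    hi, hmem i⟩
  have e3 := (coeff_le_gn W 2 μE i).trans hb
  rw [← hco, hW, hw₀ _ (by intro h; rw [h] at hi; simp at hi), ← pow_add,
    pow_le_pow_iff_right₀ h12] at e3
  omega

theorem eq_comp_of_mem {K : IntermediateField k (RatFunc k)} {v : k[X]}
    (h1 : v.natDegree = Module.finrank K (RatFunc k)) (h2 : v.natDegree ≠ 0)
    (h3 : algebraMap k[X] (RatFunc k) v ∈ K) (n : ℕ) :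
    ∀ P : k[X], P.natDegree = n → algebraMap k[X] (RatFunc k) P ∈ K → ∃ B : k[X], P = B.comp v := by
  induction n using Nat.strong_induction_on with
  | _ n ih =>
    intro P hn hP
    by_cases h0 : n = 0
    · exact ⟨C (P.coeff 0), by rw [C_comp]; exact eq_C_of_natDegree_eq_zero (hn.trans h0)⟩
    obtain ⟨j, hj⟩ := finrank_dvd_natDegree hP
    rw [← h1] at hj
    have hv : v ≠ 0 := by rintro rfl; simp at h2
    have hP0 : P ≠ 0 := by rintro rfl; simp at hn; omega
    have hl := pow_ne_zero j (leadingCoeff_ne_zero.mpr hv)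
    set c := P.leadingCoeff / v.leadingCoeff ^ j with hc
    have hc0 : c ≠ 0 := div_ne_zero (leadingCoeff_ne_zero.mpr hP0) hl
    have hd : (C c * v ^ j).natDegree = P.natDegree := by
      rw [natDegree_C_mul hc0, natDegree_pow, hj, mul_comm]
    have hlt : (P - C c * v ^ j).degree < P.degree := by
      refine degree_sub_lt ?_ hP0 ?_
      · rw [degree_eq_natDegree hP0, degree_eq_natDegree
          (mul_ne_zero (C_ne_zero.mpr hc0) (pow_ne_zero _ hv)), hd]
      · rw [leadingCoeff_mul, leadingCoeff_C, leadingCoeff_pow, hc, div_mul_cancel₀ _ hl]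
    have hlt' : (P - C c * v ^ j).natDegree < n := by
      by_cases hz : P - C c * v ^ j = 0
      · rw [hz, natDegree_zero]; omega
      · rw [← hn]; exact natDegree_lt_natDegree hz hlt
    obtain ⟨B, hB⟩ := ih _ hlt' _ rfl (by
      rw [map_sub, map_mul, map_pow]
      exact K.sub_mem hP (K.mul_mem (K.algebraMap_mem c) (pow_mem h3 _)))
    exact ⟨B + C c * X ^ j, by
      rw [add_comp, mul_comp, C_comp, pow_comp, X_comp, ← hB]; ring⟩

end Pool.Agent.Lib.MP_a5410e_nt
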