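import Pool.Agent.Lib.MP_a5410e_nt.Rec

/-!
Approximate roots, and the dominant terms of an identity `g(Y + Q) = g(Y)`.
-/

set_option autoImplicit false

open Polynomial NNReal

namespace Pool.Agent.Lib.MP_a5410e_nt

variable {k : Type*} [Field k]

theorem geom_coeff {U V : k[X]} {m : ℕ} {a : k} (hU : U.natDegree ≤ m) (hV : V.natDegree ≤ m)
    (hUa : U.coeff m = a) (hVa : V.coeff m = a) (s : ℕ) :
    (∑ i ∈ Finset.range (s + 1), U ^ i * V ^ (s + 1 - 1 - i)).natDegree ≤ s * m ∧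
      (∑ i ∈ Finset.range (s + 1), U ^ i * V ^ (s + 1 - 1 - i)).coeff (s * m) =
        ((s + 1 : ℕ) : k) * a ^ s := by
  have h1 : ∀ (W : k[X]) (i : ℕ), W.natDegree ≤ m → (W ^ i).natDegree ≤ i * m := fun W i h =>
    natDegree_pow_le.trans (Nat.mul_le_mul_left _ h)
  have h2 : ∀ i ∈ Finset.range (s + 1), s * m = i * m + (s + 1 - 1 - i) * m := fun i hi => by
    have := Finset.mem_range.mp hi
    rw [← add_mul]; congr 1; omega
  constructor
  · refine natDegree_sum_le_of_forall_le _ _ fun i hi => ?_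
    rw [h2 i hi]
    exact natDegree_mul_le.trans (Nat.add_le_add (h1 _ _ hU) (h1 _ _ hV))
  · rw [finsetSum_coeff, Finset.sum_congr rfl (g := fun _ => a ^ s), Finset.sum_const,
      Finset.card_range, nsmul_eq_mul]
    intro i hi
    have := Finset.mem_range.mp hi
    rw [h2 i hi, coeff_mul_add_eq_of_natDegree_le (h1 _ _ hU) (h1 _ _ hV),
      coeff_pow_of_natDegree_le hU, coeff_pow_of_natDegree_le hV, hUa, hVa, ← pow_add]
    congr 1; omega

theorem exists_approx {P : k[X]} {s m : ℕ} {a : k} (hs : ((s + 1 : ℕ) : k) ≠ 0) (ha : a ≠ 0)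
    (hsm : 0 < s * m) (hP : P.natDegree = (s + 1) * m) (hl : P.leadingCoeff = a ^ (s + 1)) :
    ∃ U : k[X], U.natDegree = m ∧ U.leadingCoeff = a ∧ (P - U ^ (s + 1)).natDegree < s * m := by
  have key : ∀ j, j ≤ m → ∃ U : k[X], U.natDegree ≤ m ∧ U.coeff m = a ∧
      ∀ i, s * m + (m - j) ≤ i → (P - U ^ (s + 1)).coeff i = 0 := by
    intro j
    induction j with
    | zero =>
      intro _
      refine ⟨monomial m a, natDegree_monomial_le _, by simp, fun i hi => ?_⟩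
      have h1 : s * m + (m - 0) = P.natDegree := by rw [hP]; simp [add_mul]
      rw [monomial_pow, coeff_sub, coeff_monomial, mul_comm m, ← hP]
      rcases (h1 ▸ hi).eq_or_lt with h | h
      · rw [← h, if_pos rfl, ← hl]; exact sub_self _
      · rw [coeff_eq_zero_of_natDegree_lt h, if_neg h.ne, sub_zero]
    | succ j ih =>
      intro hj
      obtain ⟨U, h1, h2, h3⟩ := ih (by omega)
      set e := m - (j + 1) with he
      set c := (P - U ^ (s + 1)).coeff (s * m + e) / (((s + 1 : ℕ) : k) * a ^ s) with hc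
      have h4 : (U + monomial e c).natDegree ≤ m :=
        (natDegree_add_le _ _).trans (max_le h1 ((natDegree_monomial_le _).trans (by omega)))
      have h5 : (U + monomial e c).coeff m = a := by
        rw [coeff_add, coeff_monomial, if_neg (by omega), add_zero, h2]
      obtain ⟨g1, g2⟩ := geom_coeff h4 h1 h5 h2 s
      have h6 := Commute.geom_sum₂_mul (Commute.all (U + monomial e c) U) (s + 1)
      rw [add_sub_cancel_left] at h6
      set S := ∑ i ∈ Finset.range (s + 1), (U + monomial e c) ^ i * U ^ (s + 1 - 1 - i)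
      refine ⟨U + monomial e c, h4, h5, fun i hi => ?_⟩
      have h7 : P - (U + monomial e c) ^ (s + 1) = P - U ^ (s + 1) - S * monomial e c := by
        rw [h6]; ring
      rw [h7, coeff_sub (P - U ^ (s + 1))]
      rcases hi.eq_or_lt with h | h
      · rw [← h, coeff_mul_monomial, g2, hc,
          mul_div_cancel₀ _ (mul_ne_zero hs (pow_ne_zero _ ha)), sub_self]
      · rw [h3 i (by omega), coeff_eq_zero_of_natDegree_lt (lt_of_le_of_lt
          (natDegree_mul_le.trans (Nat.add_le_add g1 (natDegree_monomial_le _))) h), sub_zero]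
  obtain ⟨U, h1, h2, h3⟩ := key m le_rfl
  have h4 : U.natDegree = m := natDegree_eq_of_le_of_coeff_ne_zero h1 (by rwa [h2])
  refine ⟨U, h4, by rw [leadingCoeff, h4, h2], ?_⟩
  have : (P - U ^ (s + 1)).natDegree ≤ s * m - 1 :=
    natDegree_le_iff_coeff_eq_zero.mpr fun i hi => h3 i (by omega)
  omega

theorem approx_unique {U V : k[X]} {s : ℕ} (hs : ((s + 1 : ℕ) : k) ≠ 0) (hU : U ≠ 0)
    (h1 : V.natDegree = U.natDegree) (h2 : V.leadingCoeff = U.leadingCoeff)
    (h : (U ^ (s + 1) - V ^ (s + 1)).natDegree < s * U.natDegree) : U = V := by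
  by_contra hne
  obtain ⟨g1, g2⟩ := geom_coeff (U := U) (V := V) (m := U.natDegree) (a := U.leadingCoeff) le_rfl
    h1.le rfl (by rw [← h1, ← h2]; rfl) s
  have h3 := coeff_mul_add_eq_of_natDegree_le g1 (le_refl (U - V).natDegree)
  rw [Commute.geom_sum₂_mul (Commute.all U V), coeff_eq_zero_of_natDegree_lt (by omega), g2] at h3
  exact mul_ne_zero (mul_ne_zero hs (pow_ne_zero _ (leadingCoeff_ne_zero.mpr hU)))
    (leadingCoeff_ne_zero.mpr (sub_ne_zero.mpr hne)) h3.symm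

theorem choose_char (p : ℕ) [Fact p.Prime] [CharP k p] {j : ℕ} (hj : j ≠ 0) :
    ∃ a m, j = p ^ a * m ∧ (j.choose (p ^ a) : k) ≠ 0 ∧ ∀ i, (j.choose i : k) ≠ 0 → p ^ a ∣ i := by
  obtain ⟨a, m, hm, rfl⟩ := Nat.exists_eq_pow_mul_and_not_dvd hj p (Fact.out : p.Prime).ne_one
  have hp : 0 < p ^ a := pow_pos (Fact.out : p.Prime).pos _
  have h1 : ((X + 1 : k[X])) ^ (p ^ a * m) = expand k (p ^ a) ((X + 1) ^ m) := by
    rw [pow_mul, add_pow_char_pow, one_pow, map_pow, map_add, expand_X, map_one]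
  have h2 : ∀ i, ((p ^ a * m).choose i : k) =
      if p ^ a ∣ i then (m.choose (i / p ^ a) : k) else 0 := fun i => by
    rw [← coeff_X_add_one_pow, h1, coeff_expand hp, coeff_X_add_one_pow]
  refine ⟨a, m, rfl, ?_, fun i hi => ?_⟩
  · rw [h2, if_pos dvd_rfl, Nat.div_self hp, Nat.choose_one_right]
    exact fun h0 => hm ((CharP.cast_eq_zero_iff k p m).mp h0)
  · by_contra hc
    rw [h2, if_neg hc] at hi
    exact hi rfl

theorem two_max {g Y Q : k[X]} (hg : 1 ≤ g.natDegree) (hY : Y.natDegree ≠ 0) (hQ : Q ≠ 0)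
    (h : aeval (Y + Q) g = aeval Y g) :
    ∃ i₁ i₂, 1 ≤ i₁ ∧ i₁ < i₂ ∧ i₂ ≤ g.natDegree ∧ hasseDeriv i₁ g ≠ 0 ∧ hasseDeriv i₂ g ≠ 0 ∧
      (hasseDeriv i₁ g).natDegree * Y.natDegree + i₁ * Q.natDegree =
        (hasseDeriv i₂ g).natDegree * Y.natDegree + i₂ * Q.natDegree ∧
      ∀ i, 1 ≤ i → i ≤ g.natDegree → hasseDeriv i g ≠ 0 →
        (hasseDeriv i g).natDegree * Y.natDegree + i * Q.natDegree ≤
          (hasseDeriv i₁ g).natDegree * Y.natDegree + i₁ * Q.natDegree := by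
  classical
  have hg0 : g ≠ 0 := by rintro rfl; simp at hg
  obtain ⟨i, hi, hmax⟩ := Finset.exists_max_image
    ((Finset.Icc 1 g.natDegree).filter fun i => hasseDeriv i g ≠ 0)
    (fun i => (hasseDeriv i g).natDegree * Y.natDegree + i * Q.natDegree)
    ⟨g.natDegree, Finset.mem_filter.mpr ⟨Finset.mem_Icc.mpr ⟨hg, le_rfl⟩, by
      rw [hasseDeriv_natDegree_eq_C]; exact C_ne_zero.mpr (leadingCoeff_ne_zero.mpr hg0)⟩⟩
  obtain ⟨hi1, hi2⟩ := Finset.mem_filter.mp hi
  obtain ⟨hi3, hi4⟩ := Finset.mem_Icc.mp hi1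
  have hmax' : ∀ l, 1 ≤ l → l ≤ g.natDegree → hasseDeriv l g ≠ 0 →
      (hasseDeriv l g).natDegree * Y.natDegree + l * Q.natDegree ≤
        (hasseDeriv i g).natDegree * Y.natDegree + i * Q.natDegree := fun l a b c =>
    hmax l (Finset.mem_filter.mpr ⟨Finset.mem_Icc.mpr ⟨a, b⟩, c⟩)
  by_contra hc
  have h1 := (rec_step (1 : Valuation k ℝ≥0) (fun c => Valuation.one_apply_le_one _) (f := g) hY
    (Valuation.one_apply_of_ne_zero (leadingCoeff_ne_zero.mpr (by rintro rfl; simp at hY)))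
    hQ hi1 hi2 (by
      intro l hl hli hl0
      obtain ⟨a, b⟩ := Finset.mem_Icc.mp hl
      left
      refine lt_of_le_of_ne (hmax' l a b hl0) fun he => hc ?_
      rcases lt_or_gt_of_ne hli with h1 | h1
      · exact ⟨l, i, a, h1, hi4, hl0, hi2, he, fun x x1 x2 x3 => he ▸ hmax' x x1 x2 x3⟩
      · exact ⟨i, l, hi3, h1, b, hi2, hl0, he.symm, hmax'⟩)).2
  rw [h, sub_self, leadingCoeff_zero, map_zero,
    Valuation.one_apply_of_ne_zero (leadingCoeff_ne_zero.mpr hQ), one_pow] at h1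
  exact zero_ne_one h1

theorem natDegree_le_of_shift {g Y Q : k[X]} (hg : 1 ≤ g.natDegree) (hY : Y.natDegree ≠ 0)
    (hQ : Q.natDegree ≠ 0) (h : aeval (Y + Q) g = aeval Y g) :
    Y.natDegree ≤ (g.natDegree - 1) * Q.natDegree := by
  obtain ⟨i₁, i₂, h1, h2, h3, -, -, h4, -⟩ := two_max hg hY (by rintro rfl; simp at hQ) h
  obtain ⟨u, rfl⟩ := Nat.exists_eq_add_of_le h2.le
  set e₁ := (hasseDeriv i₁ g).natDegree
  set e₂ := (hasseDeriv (i₁ + u) g).natDegree
  have h5 : e₁ * Y.natDegree = e₂ * Y.natDegree + u * Q.natDegree := by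
    rw [add_mul] at h4; omega
  have h6 : 0 < u * Q.natDegree := Nat.mul_pos (by omega) (by omega)
  have h7 : e₂ < e₁ := Nat.lt_of_mul_lt_mul_right (a := Y.natDegree) (by omega)
  have h8 : (e₂ + 1) * Y.natDegree ≤ e₁ * Y.natDegree := Nat.mul_le_mul_right _ h7
  have h9 : u * Q.natDegree ≤ (g.natDegree - 1) * Q.natDegree := Nat.mul_le_mul_right _ (by omega)
  rw [add_mul] at h8
  omega

theorem exists_prime_of_shift (p : ℕ) [Fact p.Prime] [CharP k p] {g Y Q : k[X]}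
    (hg : 1 ≤ g.natDegree) {r s D : ℕ} (hr : 0 < r) (hY : Y.natDegree = r * s)
    (hQ : Q.natDegree = r * D) (hD : 0 < D) (hDs : D < s) (h : aeval (Y + Q) g = aeval Y g) :
    ∃ l, l.Prime ∧ l ≠ p ∧ l ∣ s := by
  have hp := (Fact.out : p.Prime)
  have hlt : Q.natDegree < Y.natDegree := by rw [hY, hQ]; exact Nat.mul_lt_mul_of_pos_left hDs hr
  have hQ0 : Q ≠ 0 := by
    rintro rfl
    rw [natDegree_zero] at hQ
    exact (Nat.mul_pos hr hD).ne hQ
  obtain ⟨i₁, i₂, h1, h2, h3, n1, n2, h4, hmax⟩ := two_max hg (by omega) hQ0 h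
  have key : ∀ i, 1 ≤ i → i ≤ g.natDegree → hasseDeriv i g ≠ 0 →
      (hasseDeriv i g).natDegree * Y.natDegree + i * Q.natDegree =
        (hasseDeriv i₁ g).natDegree * Y.natDegree + i₁ * Q.natDegree →
      ∃ a m, i = p ^ a ∧ (hasseDeriv i g).natDegree + i = i * m := by
    intro i a1 a2 a3 a4
    have b1 := leadingCoeff_ne_zero.mpr a3
    rw [leadingCoeff, hasseDeriv_coeff] at b1
    set e := (hasseDeriv i g).natDegree
    obtain ⟨a, m, c1, c2, c3⟩ := choose_char (k := k) p (show e + i ≠ 0 by omega)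
    have d1 : p ^ a ≤ i := Nat.le_of_dvd a1 (c3 i (left_ne_zero_of_mul b1))
    obtain ⟨u, hu⟩ := Nat.exists_eq_add_of_le d1
    have d2 : (hasseDeriv (p ^ a) g).coeff (e + u) ≠ 0 := by
      rw [hasseDeriv_coeff, show e + u + p ^ a = e + i by omega]
      exact mul_ne_zero c2 (right_ne_zero_of_mul b1)
    have d3 := hmax (p ^ a) (Nat.one_le_pow _ _ hp.pos) (by omega)
      (by intro h0; rw [h0] at d2; simp at d2)
    have d4 : (e + u) * Y.natDegree ≤ (hasseDeriv (p ^ a) g).natDegree * Y.natDegree :=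
      Nat.mul_le_mul_right _ (le_natDegree_of_ne_zero d2)
    have d5 : i * Q.natDegree = p ^ a * Q.natDegree + u * Q.natDegree := by rw [hu, add_mul]
    have d6 : u = 0 := by
      by_contra hu0
      have := Nat.mul_lt_mul_of_pos_left hlt (Nat.pos_of_ne_zero hu0)
      rw [add_mul] at d4
      omega
    have d7 : i = p ^ a := by omega
    exact ⟨a, m, d7, by rw [c1, ← d7]⟩
  obtain ⟨α, m₁, a1, a2⟩ := key i₁ h1 (by omega) n1 rfl
  obtain ⟨β, m₂, b1, b2⟩ := key i₂ (by omega) h3 n2 h4.symm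
  have hαβ : α < β := by
    rw [a1, b1] at h2
    exact (Nat.pow_lt_pow_iff_right hp.one_lt).mp h2
  obtain ⟨γ, rfl⟩ := Nat.exists_eq_add_of_lt hαβ
  obtain ⟨M, hM⟩ : ∃ M, p ^ (γ + 1) = M + 1 :=
    ⟨p ^ (γ + 1) - 1, by have := Nat.one_le_pow (γ + 1) p hp.pos; omega⟩
  obtain ⟨c, rfl⟩ := Nat.exists_eq_add_of_le hDs.le
  have hi : i₂ = i₁ * (M + 1) := by rw [b1, a1, ← hM, add_assoc, pow_add]
  set e₁ := (hasseDeriv i₁ g).natDegree
  set e₂ := (hasseDeriv i₂ g).natDegree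
  have e1 : m₁ * (D + c) + M * c = (M + 1) * m₂ * (D + c) := by
    refine Nat.eq_of_mul_eq_mul_left (Nat.mul_pos hr h1) ?_
    rw [hY, hQ] at h4
    have f1 : (e₁ + i₁) * (r * (D + c)) = i₁ * m₁ * (r * (D + c)) := by rw [a2]
    have f2 : (e₂ + i₂) * (r * (D + c)) = i₂ * m₂ * (r * (D + c)) := by rw [b2]
    rw [hi] at f2 h4
    nlinarith
  have e2 : D + c ∣ M * c :=
    (Nat.dvd_add_right (Dvd.intro_left m₁ rfl)).mp (e1 ▸ Dvd.intro_left _ rfl)
  have e3 : ¬ Nat.Coprime (D + c) M := fun hco => by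
    have := Nat.le_of_dvd (by omega) (hco.dvd_of_dvd_mul_left e2)
    omega
  obtain ⟨l, l1, l2, l3⟩ := Nat.Prime.not_coprime_iff_dvd.mp e3
  refine ⟨l, l1, ?_, l2⟩
  rintro rfl
  have : l ∣ M + 1 := hM ▸ dvd_pow_self l (by omega)
  exact l1.one_lt.ne' (Nat.dvd_one.mp ((Nat.dvd_add_right l3).mp this))

end Pool.Agent.Lib.MP_a5410e_nt
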