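import Pool.Agent.Lib.MP_a5410e_nt.Main
import Pool.Agent.Lib.MP_a5410e_nt.CstField
import Pool.Agent.Lib.MP_a5410e_nt.CstRoot

/-!
Two constant starting points whose orbits agree identically in the parameter.
-/

set_option autoImplicit false

open Polynomial IntermediateField

namespace Pool.Agent.Lib.MP_a5410e_nt

variable {k : Type*} [Field k]

theorem shift_setup {f y q : k[X]} (hd : 2 ≤ f.natDegree) (hq : q.natDegree ≠ 0)
    (hlt : q.natDegree < y.natDegree) (h : aeval (y + q) f = aeval y f) :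
    ∃ (K : IntermediateField k (RatFunc k)) (v B : k[X]) (D : ℕ),
      algebraMap k[X] (RatFunc k) y ∈ K ∧ algebraMap k[X] (RatFunc k) v ∈ K ∧
      v.natDegree = Module.finrank K (RatFunc k) ∧ v.natDegree ≠ 0 ∧ y = B.comp v ∧
      q.natDegree = v.natDegree * D ∧ B.natDegree < f.natDegree ∧
      ∀ g : k[X], 1 ≤ g.natDegree → aeval (y + q) g = aeval y g →
        y.natDegree ≤ (g.natDegree - 1) * v.natDegree := by
  set K : IntermediateField k (RatFunc k) := adjoin k {algebraMap k[X] (RatFunc k) y} ⊔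
    adjoin k {algebraMap k[X] (RatFunc k) (y + q)} with hK
  have h1 : algebraMap k[X] (RatFunc k) y ∈ K :=
    (le_sup_left : _ ≤ K) (mem_adjoin_simple_self k _)
  have h2 : algebraMap k[X] (RatFunc k) (y + q) ∈ K :=
    (le_sup_right : _ ≤ K) (mem_adjoin_simple_self k _)
  have h3 : algebraMap k[X] (RatFunc k) q ∈ K := by
    have := K.sub_mem h2 h1
    rwa [← map_sub, add_sub_cancel_left] at this
  have hne : y + q ≠ y := by
    intro h0
    rw [add_eq_left] at h0
    rw [h0] at hq
    exact hq natDegree_zero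
  obtain ⟨v, v1, v2, v3⟩ := exists_gen K h1 (by omega)
  obtain ⟨B, hB⟩ := eq_comp_of_mem v1 v2 v3 _ y rfl h1
  obtain ⟨D, hD⟩ := finrank_dvd_natDegree h3
  have h4 : ∀ g : k[X], 1 ≤ g.natDegree → aeval (y + q) g = aeval y g →
      y.natDegree ≤ (g.natDegree - 1) * v.natDegree := fun g hg hg' => by
    rw [v1]; exact natDegree_le_of_eq hg hg' hne
  refine ⟨K, v, B, D, h1, v3, v1, v2, hB, by rw [v1, hD], ?_, h4⟩
  have h5 := h4 f (by omega) h
  rw [congrArg natDegree hB, natDegree_comp] at h5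
  have := Nat.le_of_mul_le_mul_right h5 (by omega)
  omega

theorem comp_mem {K : IntermediateField k (RatFunc k)} {v : k[X]}
    (h : algebraMap k[X] (RatFunc k) v ∈ K) (P : k[X]) :
    algebraMap k[X] (RatFunc k) (P.comp v) ∈ K := by
  rw [comp_eq_aeval, ← aeval_algebraMap_apply]
  exact Algebra.adjoin_le (S := K.toSubalgebra) (Set.singleton_subset_iff.mpr h)
    (aeval_mem_adjoin_singleton k _)

theorem sub_dvd_aeval_sub (x y g : k[X]) : x - y ∣ aeval x g - aeval y g := by
  rw [← eval_map_algebraMap, ← eval_map_algebraMap]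
  exact sub_dvd_eval_sub _ _ _

theorem natDegree_comp_lt {P v : k[X]} {N : ℕ} (hv : v.natDegree ≠ 0) (h : P.natDegree < N) :
    (P.comp v).natDegree < N * v.natDegree := by
  rw [natDegree_comp]
  exact Nat.mul_lt_mul_of_pos_right h (by omega)

/-- The case of a late collision. -/
theorem shift_late [IsAlgClosed k] (p : ℕ) [Fact p.Prime] [CharP k p] {f G q : k[X]} {j : ℕ}
    (hd : 2 ≤ f.natDegree) (hG : G.natDegree = f.natDegree ^ (j + 1)) (hq : q.natDegree ≠ 0)
    (hlt : q.natDegree < (f.comp G + X).natDegree)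
    (h : aeval (f.comp G + X + q) f = aeval (f.comp G + X) f) : False := by
  obtain ⟨K, v, B, D, y1, v1, v2, v3, hB, hD, hs, -⟩ := shift_setup hd hq hlt h
  set d := f.natDegree with hdd
  set r := v.natDegree with hr
  set s := B.natDegree with hss
  have hdG : d ≤ G.natDegree := by rw [hG]; exact Nat.le_self_pow (by omega) _
  have hfG : (f.comp G).natDegree = d * G.natDegree := natDegree_comp
  have hXlt : (X : k[X]).natDegree < (f.comp G).natDegree := by
    rw [natDegree_X, hfG]; nlinarith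
  have hy : (f.comp G + X).natDegree = d * G.natDegree := by
    rw [natDegree_add_eq_left_of_natDegree_lt hXlt, hfG]
  have hrs : (f.comp G + X).natDegree = r * s := by rw [hB, natDegree_comp, mul_comm]
  have hD0 : 0 < D := by
    rcases Nat.eq_zero_or_pos D with h0 | h0
    · rw [h0, mul_zero] at hD; exact absurd hD hq
    · exact h0
  have hDs : D < s := by
    rw [hD, hrs] at hlt
    exact Nat.lt_of_mul_lt_mul_left hlt
  obtain ⟨l, l1, l2, l3⟩ := exists_prime_of_shift p (g := f) (by omega) (by omega) hrs hD hD0 hDs h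
  have l4 : l ∣ d := by
    refine l1.dvd_of_dvd_pow (n := j + 1 + 1) ?_
    rw [pow_succ', ← hG, ← hy, hrs]
    exact l3.mul_left _
  obtain ⟨m₁, hm₁⟩ := l3
  obtain ⟨m₂, hm₂⟩ := l4
  have l5 := l1.two_le
  obtain ⟨e, rfl⟩ : ∃ e, l = e + 1 := ⟨l - 1, by omega⟩
  have he : ((e + 1 : ℕ) : k) ≠ 0 := fun h0 => l2
    ((Nat.prime_dvd_prime_iff_eq Fact.out l1).mp ((CharP.cast_eq_zero_iff k p _).mp h0)).symm
  have m1 : 0 < m₁ := Nat.pos_of_ne_zero (by rintro rfl; omega)
  have m2 : 0 < m₂ := Nat.pos_of_ne_zero (by rintro rfl; omega)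
  have hB0 : B.leadingCoeff ≠ 0 := leadingCoeff_ne_zero.mpr (by rintro rfl; simp at hss; omega)
  have hv0 : v.leadingCoeff ≠ 0 := leadingCoeff_ne_zero.mpr (by rintro rfl; simp at hr; omega)
  have hG0 : G.leadingCoeff ≠ 0 := leadingCoeff_ne_zero.mpr (by rintro rfl; simp at hdG; omega)
  obtain ⟨a₁, ha₁⟩ := IsAlgClosed.exists_pow_nat_eq B.leadingCoeff (show 0 < e + 1 by omega)
  have ha0 : a₁ ≠ 0 := by rintro rfl; exact hB0 (by rw [← ha₁, zero_pow (by omega)])
  have hlc : f.leadingCoeff * G.leadingCoeff ^ d = B.leadingCoeff * v.leadingCoeff ^ s := by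
    rw [← leadingCoeff_comp (by omega), ← leadingCoeff_comp v3, ← hB,
      leadingCoeff_add_of_degree_lt' (degree_lt_degree hXlt)]
  set a₂ := a₁ * v.leadingCoeff ^ m₁ / G.leadingCoeff ^ m₂ with ha₂
  obtain ⟨R₁, r1, r2, r3⟩ := exists_approx (P := B) (s := e) (m := m₁) he ha0
    (Nat.mul_pos (by omega) m1) hm₁ ha₁.symm
  obtain ⟨R₂, t1, t2, t3⟩ := exists_approx (P := f) (s := e) (m := m₂) (a := a₂) he
    (div_ne_zero (mul_ne_zero ha0 (pow_ne_zero _ hv0)) (pow_ne_zero _ hG0))
    (Nat.mul_pos (by omega) m2) hm₂ (by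
      rw [ha₂, div_pow, mul_pow, ha₁, ← pow_mul, ← pow_mul, mul_comm m₁, mul_comm m₂, ← hm₁, ← hm₂,
        ← hlc, mul_div_cancel_right₀ _ (pow_ne_zero _ hG0)])
  have hn : m₂ * G.natDegree = m₁ * r := by
    refine Nat.eq_of_mul_eq_mul_left (show 0 < e + 1 by omega) ?_
    rw [← mul_assoc, ← mul_assoc, ← hm₁, ← hm₂, ← hy, hrs, mul_comm]
  have hU1 : (R₁.comp v).natDegree = m₁ * r := by rw [natDegree_comp, r1]
  have hU : R₁.comp v = R₂.comp G := by
    refine approx_unique he ?_ ?_ ?_ ?_
    · intro h0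
      rw [h0, natDegree_zero] at hU1
      exact (Nat.mul_pos m1 (by omega)).ne hU1
    · rw [hU1, natDegree_comp, t1, hn]
    · rw [leadingCoeff_comp (by omega), leadingCoeff_comp v3, r1, r2, t1, t2, ha₂,
        div_mul_cancel₀ _ (pow_ne_zero _ hG0)]
    · have e1 : (R₁.comp v) ^ (e + 1) - (R₂.comp G) ^ (e + 1) =
          (f - R₂ ^ (e + 1)).comp G + X - (B - R₁ ^ (e + 1)).comp v := by
        rw [sub_comp, sub_comp, pow_comp, pow_comp, ← hB]; ring
      have e2 := natDegree_comp_lt (v := G) (by omega) t3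
      have e3 := natDegree_comp_lt (v := v) v3 r3
      rw [mul_assoc, hn] at e2
      rw [mul_assoc] at e3
      rw [e1, hU1]
      refine (natDegree_sub_le _ _).trans_lt (max_lt ((natDegree_add_le _ _).trans_lt
        (max_lt e2 ?_)) e3)
      rw [natDegree_X, ← hn]
      calc 1 < 1 * (1 * d) := by omega
        _ ≤ _ := Nat.mul_le_mul (by omega) (Nat.mul_le_mul m2 hdG)
  have hUK : algebraMap k[X] (RatFunc k) (R₁.comp v) ∈ K := comp_mem v1 _
  let g : K[X] := R₂.map (algebraMap k K) - C ⟨_, hUK⟩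
  have hg1 : g.natDegree = m₂ := by simp only [g]; rw [natDegree_sub_C, natDegree_map, t1]
  have hg2 : aeval (algebraMap k[X] (RatFunc k) G) g = 0 := by
    simp only [g, map_sub, aeval_map_algebraMap, aeval_C]
    rw [aeval_algebraMap_apply, ← comp_eq_aeval, ← hU]
    exact sub_self _
  have hle := finrank_le_mul K _ (by intro h0; rw [h0, natDegree_zero] at hg1; omega) hg2
  have htop : (K ⊔ adjoin k {algebraMap k[X] (RatFunc k) G} : IntermediateField k (RatFunc k)) =
      ⊤ := by
    rw [eq_top_iff, ← RatFunc.adjoin_X, adjoin_simple_le_iff]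
    set L := (K ⊔ adjoin k {algebraMap k[X] (RatFunc k) G} : IntermediateField k (RatFunc k))
    have g1 : algebraMap k[X] (RatFunc k) G ∈ L :=
      (le_sup_right : _ ≤ L) (mem_adjoin_simple_self k _)
    have g3 := L.sub_mem ((le_sup_left : _ ≤ L) y1) (comp_mem g1 f)
    rwa [← map_sub, add_sub_cancel_left, RatFunc.algebraMap_X] at g3
  rw [htop, IntermediateField.finrank_top, mul_one, hg1, ← v2] at hle
  have : r * s < d * G.natDegree := by
    calc r * s < r * d := Nat.mul_lt_mul_of_pos_left hs (by omega)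
      _ ≤ d * G.natDegree := by
        rw [mul_comm r]
        exact Nat.mul_le_mul_left _ (by nlinarith)
  omega

/-- The case of a collision at the third step. -/
theorem shift_early {f q : k[X]} {c : k} (hd : 2 ≤ f.natDegree) (hq : q.natDegree ≠ 0)
    (hlt : q.natDegree < f.natDegree)
    (h : aeval (f.comp (X + C c) + X + q) f = aeval (f.comp (X + C c) + X) f) : False := by
  have hfc : (f.comp (X + C c)).natDegree = f.natDegree := by
    rw [natDegree_comp, natDegree_X_add_C, mul_one]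
  have hy : (f.comp (X + C c) + X).natDegree = f.natDegree := by
    rw [natDegree_add_eq_left_of_natDegree_lt (by rw [hfc, natDegree_X]; omega), hfc]
  obtain ⟨K, v, B, D, -, -, -, v3, hB, hD, hs, hall⟩ := shift_setup hd hq (by omega) h
  set y := f.comp (X + C c) + X with hyy
  set d := f.natDegree with hdd
  set r := v.natDegree with hr
  set s := B.natDegree with hss
  have hrs : d = s * r := by rw [← hy, hB, natDegree_comp]
  have hr2 : 2 ≤ r := by
    by_contra hc
    have : r = 1 := by omega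
    rw [this] at hrs
    omega
  have hs2 : 2 ≤ s := by
    have h1 : 0 < D := Nat.pos_of_ne_zero (by rintro rfl; omega)
    have h2 : r * D < r * s := by rw [← hD, mul_comm r s, ← hrs]; exact hlt
    have := Nat.lt_of_mul_lt_mul_left h2
    omega
  set v₀ := v.comp (X - C c) with hv₀
  have hv₀d : v₀.natDegree = r := by rw [hv₀, natDegree_comp, natDegree_X_sub_C, mul_one]
  have hf : f = B.comp v₀ - X + C c := by
    rw [hv₀, ← comp_assoc, ← hB, hyy, add_comp, comp_assoc, add_comp, X_comp, C_comp,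
      sub_add_cancel, comp_X]
    ring
  have h1 : aeval (aeval (y + q) v₀) B - aeval (aeval y v₀) B = q := by
    rw [hf] at h
    simp only [map_add, map_sub, aeval_comp, aeval_X, aeval_C] at h
    linear_combination h
  have hq0 : q ≠ 0 := by rintro rfl; simp at hq
  have h2 : aeval (y + q) v₀ - aeval y v₀ ∣ q := by
    conv_rhs => rw [← h1]
    exact sub_dvd_aeval_sub _ _ _
  have h3 : q ∣ aeval (y + q) v₀ - aeval y v₀ := by
    have := sub_dvd_aeval_sub (y + q) y v₀
    rwa [add_sub_cancel_left] at this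
  obtain ⟨u, hu⟩ := associated_of_dvd_dvd h3 h2
  obtain ⟨κ, hκ, hκu⟩ := Polynomial.isUnit_iff.mp u.isUnit
  rw [← hκu] at hu
  have hκ0 := hκ.ne_zero
  have h4 := hall (v₀ - C κ * X) (by
    rw [natDegree_sub_eq_left_of_natDegree_lt
      ((natDegree_C_mul_le _ _).trans_lt (by rw [natDegree_X]; omega))]; omega) (by
    simp only [map_sub, map_mul, aeval_X, aeval_C, algebraMap_eq]
    linear_combination -hu)
  rw [natDegree_sub_eq_left_of_natDegree_lt
    ((natDegree_C_mul_le _ _).trans_lt (by rw [natDegree_X]; omega)), hv₀d, hy, hrs] at h4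
  have h5 : s ≤ r - 1 := Nat.le_of_mul_le_mul_right h4 (by omega)
  have hBd : (B - C κ⁻¹ * X).natDegree = s := natDegree_sub_eq_left_of_natDegree_lt
    ((natDegree_C_mul_le _ _).trans_lt (by rw [natDegree_X]; omega))
  have hV : (aeval y v₀).natDegree = r * d := by rw [natDegree_aeval_poly, hv₀d, hy]
  have hqκ : (q * C κ).natDegree = q.natDegree := natDegree_mul_C hκ0
  have h6 := natDegree_le_of_shift (g := B - C κ⁻¹ * X) (Y := aeval y v₀) (Q := q * C κ)
    (by omega) (by rw [hV]; exact Nat.mul_ne_zero (by omega) (by omega)) (by omega) (by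
      have e1 : aeval y v₀ + q * C κ = aeval (y + q) v₀ := by rw [hu]; ring
      have e2 : (C κ⁻¹ : k[X]) * C κ = 1 := by rw [← C_mul, inv_mul_cancel₀ hκ0, C_1]
      simp only [map_sub, map_mul, aeval_X, aeval_C, algebraMap_eq]
      rw [e1]
      linear_combination h1 + C κ⁻¹ * hu - q * e2)
  rw [hV, hBd, hqκ] at h6
  have h7 : (s - 1) * q.natDegree ≤ r * q.natDegree := Nat.mul_le_mul_right _ (by omega)
  have h8 : r * q.natDegree < r * d := Nat.mul_lt_mul_of_pos_left hlt (by omega)
  omega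

variable {f : k[X]} (hd : 2 ≤ f.natDegree)
include hd

theorem qp_deg_lt (a₁ a₂ : k) (j : ℕ) : (qp f a₁ a₂ (j + 1)).natDegree < f.natDegree ^ j := by
  induction j with
  | zero => rw [zero_add, qp_one, natDegree_C]; simp
  | succ j ih =>
    have h1 := (zp_deg hd a₂ j).1
    obtain ⟨s, hs⟩ : ∃ s, f.natDegree = s + 1 := ⟨f.natDegree - 1, by omega⟩
    rw [qp_succ, taylor_sum]
    set n := f.natDegree ^ j with hn
    set D := (qp f a₁ a₂ (j + 1)).natDegree with hD
    refine (natDegree_sum_le_of_forall_le (n := s * n + D) _ _ fun i hi => ?_).trans_lt ?_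
    · obtain ⟨i1, i2⟩ := Finset.mem_Icc.mp hi
      obtain ⟨i, rfl⟩ := Nat.exists_eq_add_of_le' i1
      obtain ⟨u, hu⟩ := Nat.exists_eq_add_of_le (show i ≤ s by omega)
      have h2 : (hasseDeriv (i + 1) f).natDegree ≤ u :=
        (natDegree_hasseDeriv_le f _).trans (by omega)
      refine natDegree_mul_le.trans ?_
      rw [natDegree_aeval_poly, natDegree_pow, h1, ← hD, hu]
      have h3 : (hasseDeriv (i + 1) f).natDegree * n ≤ u * n := Nat.mul_le_mul_right _ h2
      have h4 : i * D ≤ i * n := Nat.mul_le_mul_left _ ih.le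
      rw [add_mul, add_mul]
      omega
    · rw [pow_succ, ← hn, hs, mul_add, mul_comm n s]
      omega

variable [IsAlgClosed k] (p : ℕ) [Fact p.Prime] [CharP k p]
include p

theorem qp_step (a₁ a₂ : k) (j : ℕ) (h : (qp f a₁ a₂ (j + 1 + 1)).natDegree = 0) :
    (qp f a₁ a₂ (j + 1)).natDegree = 0 := by
  by_cases h0 : qp f a₁ a₂ (j + 1 + 1) = 0
  swap
  · refine Nat.le_zero.mp (h ▸ natDegree_le_of_dvd ?_ h0)
    have := sub_dvd_aeval_sub (zp f a₂ (j + 1) + qp f a₁ a₂ (j + 1)) (zp f a₂ (j + 1)) f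
    rwa [add_sub_cancel_left, ← qp_succ] at this
  by_contra hq
  have h1 := qp_deg_lt hd a₁ a₂ j
  rw [qp_succ, sub_eq_zero] at h0
  rcases j with _ | _ | j
  · simp only [pow_zero] at h1
    omega
  · rw [zp_succ, zp_one, ← comp_eq_aeval (p := f) (q := X + C _)] at h0
    exact shift_early hd hq (by simpa using h1) h0
  · rw [← (zp_deg hd a₂ (j + 1 + 1)).1] at h1
    rw [zp_succ, ← comp_eq_aeval (p := f) (q := zp f a₂ _)] at h0 h1
    exact shift_late p hd (zp_deg hd a₂ (j + 1)).1 hq h1 h0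

/-- If two constant orbits with different first images agree identically, there is a chain. -/
theorem chain_of_qp {a₁ a₂ : k} (hδ : aeval a₁ f ≠ aeval a₂ f) {m : ℕ}
    (h : qp f a₁ a₂ (m + 1) = 0) : Chain f := by
  have h1 : ∀ i, qp f a₁ a₂ (m + i + 1) = 0 := by
    intro i
    induction i with
    | zero => exact h
    | succ i ih => rw [← add_assoc, qp_succ, ih, add_zero, sub_self]
  have h2 : ∀ i j, m ≤ j + i → (qp f a₁ a₂ (j + 1)).natDegree = 0 := by
    intro i
    induction i with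
    | zero =>
      intro j hj
      obtain ⟨i, rfl⟩ := Nat.exists_eq_add_of_le (show m ≤ j from hj)
      rw [h1, natDegree_zero]
    | succ i ih => exact fun j hj => qp_step hd p a₁ a₂ j (ih (j + 1) (by omega))
  have h3 : ∀ j, qp f a₁ a₂ (j + 1) = C ((qp f a₁ a₂ (j + 1)).coeff 0) := fun j =>
    eq_C_of_natDegree_eq_zero (h2 m j (by omega))
  refine ⟨fun j => (qp f a₁ a₂ (j + 1)).coeff 0, ?_, fun j => ?_⟩
  · simp only [zero_add, qp_one, coeff_C_zero]
    exact sub_ne_zero.mpr hδ
  · have h4 := qp_succ f a₁ a₂ (j + 1)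
    rw [h3 (j + 1), h3 j] at h4
    have h5 : (zp f a₂ (j + 1)).natDegree ≠ 0 := by
      rw [(zp_deg hd a₂ j).1]; exact pow_ne_zero _ (by omega)
    have h6 : (f.comp (X + C ((qp f a₁ a₂ (j + 1)).coeff 0)) -
        (f + C ((qp f a₁ a₂ (j + 1 + 1)).coeff 0))).comp (zp f a₂ (j + 1)) = 0 := by
      rw [sub_comp, add_comp, C_comp, comp_assoc, add_comp, X_comp, C_comp, h4, comp_eq_aeval,
        comp_eq_aeval]
      ring
    rcases comp_eq_zero_iff.mp h6 with h7 | h7
    · exact sub_eq_zero.mp h7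
    · rw [h7.2, natDegree_C] at h5
      exact absurd rfl h5

theorem main_const' {F : Type*} [Field F] [Algebra k F] (hch : ¬ Chain f) {a₁ a₂ : k} {b : F}
    (hb : Transcendental k b)
    (h : (coll f (algebraMap k F a₁) (algebraMap k F a₂) b).Nonempty) :
    aeval a₁ f = aeval a₂ f := by
  obtain ⟨c, m, n, hm, hn, h1, h2⟩ := h
  rw [← aeval_zp] at h1 h2
  have hc : Transcendental k c := by
    intro hc
    obtain ⟨c₀, rfl⟩ := minpoly.mem_range_of_degree_eq_one k c
      (IsAlgClosed.degree_eq_one_of_irreducible k (minpoly.irreducible hc.isIntegral))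
    rw [aeval_algebraMap_apply] at h1
    exact hb (h1 ▸ isAlgebraic_algebraMap _)
  have h3 : zp f a₁ m = zp f a₂ n := transcendental_iff_injective.mp hc (h1.trans h2.symm)
  obtain ⟨m, rfl⟩ := Nat.exists_eq_add_of_le' hm
  obtain ⟨n, rfl⟩ := Nat.exists_eq_add_of_le' hn
  have h4 : m = n := by
    have := congrArg natDegree h3
    rw [(zp_deg hd a₁ m).1, (zp_deg hd a₂ n).1] at this
    exact Nat.pow_right_injective hd this
  subst h4
  by_contra hne
  exact hch (chain_of_qp hd p hne (sub_eq_zero.mpr h3))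

end Pool.Agent.Lib.MP_a5410e_nt
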