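import Mathlib

/-!
The energy inequality for an ultrametric kernel on a finite set.
-/

set_option autoImplicit false

open Finset MeasureTheory

namespace Pool.Agent.Lib.MP_a5410e_nt

theorem sum_classes_ge {ι : Type*} [Fintype ι] (c : ι → ℝ) (rel : ι → ι → Prop)
    [DecidableRel rel] (hrel : Equivalence rel) (B : Finset ι)
    (hB : ∀ x ∈ B, ∀ y, y ∈ B ↔ rel x y) :
    (∑ x ∈ B, c x) ^ 2 ≤ ∑ x, ∑ y, if rel x y then c x * c y else 0 := by
  classical
  let S : Setoid ι := ⟨rel, hrel⟩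
  have key : (∑ x, ∑ y, if rel x y then c x * c y else 0) =
      ∑ q : Quotient S, (∑ x ∈ univ.filter (fun x => Quotient.mk S x = q), c x) ^ 2 := by
    rw [← Finset.sum_fiberwise (s := univ) (g := fun x => Quotient.mk S x)]
    refine Finset.sum_congr rfl fun q _ => ?_
    rw [sq, Finset.sum_mul_sum]
    refine Finset.sum_congr rfl fun x hx => ?_
    have hx' : Quotient.mk S x = q := (Finset.mem_filter.mp hx).2
    rw [Finset.sum_filter]
    refine Finset.sum_congr rfl fun y _ => ?_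
    have : rel x y ↔ Quotient.mk S y = q := by
      rw [← hx', eq_comm, Quotient.eq]; rfl
    simp only [this]
  rw [key]
  rcases B.eq_empty_or_nonempty with rfl | ⟨x₀, hx₀⟩
  · simpa using Finset.sum_nonneg fun q _ => sq_nonneg _
  · have hBq : B = univ.filter (fun x => Quotient.mk S x = Quotient.mk S x₀) := by
      ext y
      rw [hB x₀ hx₀ y, Finset.mem_filter, eq_comm, Quotient.eq]
      simp [S]
      rfl
    rw [hBq]
    exact Finset.single_le_sum (f := fun q : Quotient S =>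
      (∑ x ∈ univ.filter (fun x => Quotient.mk S x = q), c x) ^ 2)
      (fun q _ => sq_nonneg _) (Finset.mem_univ _)

theorem energy_le {ι : Type*} [Fintype ι] (κ : ι → ι → ℝ) (c : ι → ℝ) (m a b η : ℝ)
    (hsymm : ∀ x y, κ x y = κ y x) (hult : ∀ x y z, κ x z ≤ max (κ x y) (κ y z))
    (hdiag : ∀ x, κ x x ≤ m) (hm : ∀ x y, m ≤ κ x y) (hc : ∑ x, c x = 0)
    (hma : m ≤ a) (hab : a ≤ b)
    (hgap : ∀ r, a ≤ r → r ≤ b → ∃ B : Finset ι, (∀ x ∈ B, ∀ y, y ∈ B ↔ κ x y ≤ r) ∧
      η ^ 2 ≤ (∑ x ∈ B, c x) ^ 2) :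
    ∑ x, ∑ y, c x * c y * κ x y ≤ -((b - a) * η ^ 2) := by
  classical
  obtain ⟨T, hT1, hT2⟩ : ∃ T, b ≤ T ∧ ∀ x y, κ x y ≤ T := by
    obtain ⟨T, hT⟩ := (Set.finite_range fun p : ι × ι => κ p.1 p.2).bddAbove
    exact ⟨max b T, le_max_left _ _, fun x y => (hT ⟨(x, y), rfl⟩).trans (le_max_right _ _)⟩
  have hint : ∀ (u v s : ℝ), Integrable ((Set.Icc u v).indicator fun _ : ℝ => s) := fun u v s =>
    (integrable_indicator_iff measurableSet_Icc).mpr (integrableOn_const (by simp))
  have hval : ∀ (u v s : ℝ), u ≤ v → ∫ r, (Set.Icc u v).indicator (fun _ : ℝ => s) r =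
      (v - u) * s := by
    intro u v s huv
    rw [integral_indicator_const _ measurableSet_Icc, Real.volume_real_Icc_of_le huv, smul_eq_mul]
  have h1 : ∑ x, ∑ y, (T - κ x y) * (c x * c y) =
      ∫ r, ∑ x, ∑ y, (Set.Icc (κ x y) T).indicator (fun _ : ℝ => c x * c y) r := by
    rw [integral_finsetSum _ fun x _ => integrable_finsetSum _ fun y _ => hint _ _ _]
    refine Finset.sum_congr rfl fun x _ => ?_
    rw [integral_finsetSum _ fun y _ => hint _ _ _]
    exact Finset.sum_congr rfl fun y _ => (hval _ _ _ (hT2 x y)).symm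
  have h2 : (b - a) * η ^ 2 ≤ ∑ x, ∑ y, (T - κ x y) * (c x * c y) := by
    rw [h1, ← hval a b _ hab]
    refine integral_mono (hint _ _ _)
      (integrable_finsetSum _ fun x _ => integrable_finsetSum _ fun y _ => hint _ _ _) fun r => ?_
    by_cases hr : m ≤ r ∧ r ≤ T
    · have hequiv : Equivalence fun x y => κ x y ≤ r :=
        ⟨fun x => (hdiag x).trans hr.1, fun {x y} h => by rwa [hsymm],
          fun {x y z} h h' => (hult x y z).trans (max_le h h')⟩
      have h3 : (∑ x, ∑ y, (Set.Icc (κ x y) T).indicator (fun _ : ℝ => c x * c y) r) =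
          ∑ x, ∑ y, if κ x y ≤ r then c x * c y else 0 := by
        refine Finset.sum_congr rfl fun x _ => Finset.sum_congr rfl fun y _ => ?_
        simp [Set.indicator, hr.2]
      simp only [h3]
      by_cases hr2 : r ∈ Set.Icc a b
      · obtain ⟨B, hB1, hB2⟩ := hgap r hr2.1 hr2.2
        rw [Set.indicator_of_mem hr2]
        exact hB2.trans (sum_classes_ge c _ hequiv B hB1)
      · rw [Set.indicator_of_notMem hr2]
        simpa using sum_classes_ge c _ hequiv ∅ (by simp)
    · have h3 : r ∉ Set.Icc a b := fun h => hr ⟨hma.trans h.1, h.2.trans hT1⟩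
      simp only [Set.indicator_of_notMem h3]
      refine le_of_eq (Finset.sum_eq_zero fun x _ => Finset.sum_eq_zero fun y _ => ?_).symm
      exact Set.indicator_of_notMem (fun h => hr ⟨(hm x y).trans h.1, h.2⟩) _
  have h4 : ∑ x, ∑ y, (T - κ x y) * (c x * c y) =
      T * ((∑ x, c x) * ∑ y, c y) - ∑ x, ∑ y, c x * c y * κ x y := by
    rw [Finset.sum_mul_sum, Finset.mul_sum, ← Finset.sum_sub_distrib]
    refine Finset.sum_congr rfl fun x _ => ?_
    rw [Finset.mul_sum, ← Finset.sum_sub_distrib]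
    exact Finset.sum_congr rfl fun y _ => by ring
  rw [h4, hc] at h2
  linarith

end Pool.Agent.Lib.MP_a5410e_nt
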