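import Pool.Agent.Lib.MP_a5410e_nt.Gauss
import Pool.Agent.Lib.MP_a5410e_nt.Energy

/-!
Upper bounds for the discriminant of a finite set of parameters with long bounded orbits.
-/

set_option autoImplicit false

open Polynomial NNReal

namespace Pool.Agent.Lib.MP_a5410e_nt

section abstract

variable {F : Type*} [Field F] [DecidableEq F] (w : Valuation F ℝ≥0)

/-- The logarithm of the size of the discriminant of a finite set. -/
noncomputable def logDisc (Λ : Finset F) : ℝ :=
  ∑ x ∈ Λ, ∑ y ∈ Λ.erase x, Real.log (w (x - y))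

/-- The truncated logarithmic kernel. -/
noncomputable def ker (ε : ℝ≥0) (x y : F) : ℝ := Real.log ((max ε (w (x - y)) : ℝ≥0) : ℝ)

omit [DecidableEq F] in
theorem ker_symm (ε : ℝ≥0) (x y : F) : ker w ε x y = ker w ε y x := by
  unfold ker; rw [w.map_sub_swap]

omit [DecidableEq F] in
theorem log_mono {a b : ℝ≥0} (ha : 0 < a) (h : a ≤ b) : Real.log a ≤ Real.log b :=
  Real.log_le_log (by exact_mod_cast ha) (by exact_mod_cast h)

omit [DecidableEq F] in
theorem ker_ult {ε : ℝ≥0} (hε : 0 < ε) (x y z : F) :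
    ker w ε x z ≤ max (ker w ε x y) (ker w ε y z) := by
  have h : w (x - z) ≤ max (w (x - y)) (w (y - z)) := by
    rw [show x - z = (x - y) + (y - z) by ring]; exact w.map_add _ _
  rcases le_max_iff.mp h with h | h
  · exact le_max_of_le_left (log_mono (lt_max_of_lt_left hε) (max_le_max_left _ h))
  · exact le_max_of_le_right (log_mono (lt_max_of_lt_left hε) (max_le_max_left _ h))

omit [DecidableEq F] in
theorem ker_self (ε : ℝ≥0) (x : F) : ker w ε x x = Real.log ε := by simp [ker]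

omit [DecidableEq F] in
theorem le_ker {ε : ℝ≥0} (hε : 0 < ε) (x y : F) : Real.log ε ≤ ker w ε x y :=
  log_mono hε (le_max_left _ _)

theorem sum_ker_ge (ε : ℝ≥0) (Λ : Finset F) :
    logDisc w Λ + Λ.card * Real.log ε ≤ ∑ x ∈ Λ, ∑ y ∈ Λ, ker w ε x y := by
  rw [logDisc, ← nsmul_eq_mul, ← Finset.sum_const, ← Finset.sum_add_distrib]
  refine Finset.sum_le_sum fun x hx => ?_
  rw [← Finset.sum_erase_add _ _ hx, ker_self]
  gcongr with y hy
  refine log_mono ?_ (le_max_right _ _)
  exact (Valuation.pos_iff w).mpr (sub_ne_zero.mpr (Finset.ne_of_mem_erase hy).symm)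

theorem disc_core {ε : ℝ≥0} (hε : 0 < ε) (Λ Z : Finset F) (L : ℝ)
    (hB : ∀ x ∈ Λ, ∑ z ∈ Z, ker w ε x z ≤ L) (hC : 0 ≤ logDisc w Z) (a b η : ℝ)
    (hma : Real.log ε ≤ a) (hab : a ≤ b)
    (hgap : η = 0 ∨ ∃ c : F, (∀ x ∈ Λ, b < ker w ε c x) ∧
      0 ≤ η ∧ η ≤ Λ.card * (Z.filter fun z => ker w ε c z ≤ a).card) :
    (Z.card : ℝ) ^ 2 * (logDisc w Λ + Λ.card * Real.log ε) - 2 * Z.card * Λ.card * (Λ.card * L)
      + (Λ.card : ℝ) ^ 2 * (Z.card * Real.log ε) ≤ -((b - a) * η ^ 2) := by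
  classical
  let p : Λ ⊕ Z → F := Sum.elim Subtype.val Subtype.val
  let c : Λ ⊕ Z → ℝ := Sum.elim (fun _ => Z.card) (fun _ => -Λ.card)
  have hE := energy_le (fun x y => ker w ε (p x) (p y)) c (Real.log ε) a b η
    (fun x y => ker_symm w ε _ _) (fun x y z => ker_ult w hε _ _ _)
    (fun x => (ker_self w ε _).le) (fun x y => le_ker w hε _ _)
    (by simp [c, Fintype.sum_sum_type, mul_comm]) hma hab (by
      intro r har hrb
      rcases hgap with rfl | ⟨c₀, h1, h2, h3⟩
      · exact ⟨∅, by simp, by simp⟩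
      · refine ⟨Finset.univ.filter fun x => ker w ε c₀ (p x) ≤ r, ?_, ?_⟩
        · intro x hx y
          have hx' : ker w ε c₀ (p x) ≤ r := (Finset.mem_filter.mp hx).2
          simp only [Finset.mem_filter, Finset.mem_univ, true_and]
          constructor
          · intro hy
            exact (ker_ult w hε _ c₀ _).trans (max_le (by rwa [ker_symm]) hy)
          · intro hy
            exact (ker_ult w hε _ (p x) _).trans (max_le hx' hy)
        · have h4 : (∑ x ∈ Finset.univ.filter fun x => ker w ε c₀ (p x) ≤ r, c x) =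
              -(Λ.card * (Z.filter fun z => ker w ε c₀ z ≤ r).card) := by
            rw [Finset.sum_filter, Fintype.sum_sum_type]
            have e1 : (∑ x : Λ, if ker w ε c₀ (p (Sum.inl x)) ≤ r then c (Sum.inl x) else 0) = 0 :=
              Finset.sum_eq_zero fun x _ => if_neg (not_le.mpr (hrb.trans_lt (h1 x.1 x.2)))
            have e2 : (∑ x : Z, if ker w ε c₀ (p (Sum.inr x)) ≤ r then c (Sum.inr x) else 0) =
                ∑ z ∈ Z, if ker w ε c₀ z ≤ r then (-Λ.card : ℝ) else 0 :=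
              Finset.sum_coe_sort Z fun z => if ker w ε c₀ z ≤ r then (-Λ.card : ℝ) else 0
            rw [e1, e2, ← Finset.sum_filter, Finset.sum_const, nsmul_eq_mul]
            ring
          rw [h4, neg_sq]
          refine pow_le_pow_left₀ h2 (h3.trans ?_) 2
          have : (Z.filter fun z => ker w ε c₀ z ≤ a).card ≤
              (Z.filter fun z => ker w ε c₀ z ≤ r).card :=
            Finset.card_le_card (Finset.monotone_filter_right _ fun z _ hz => hz.trans har)
          gcongr)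
  have s1 : ∀ (A B : Finset F), (∑ x : A, ∑ y : B, ker w ε x y) = ∑ x ∈ A, ∑ y ∈ B, ker w ε x y := by
    intro A B
    rw [← Finset.sum_coe_sort A fun x => ∑ y ∈ B, ker w ε x y]
    exact Finset.sum_congr rfl fun x _ => Finset.sum_coe_sort B fun y => ker w ε x y
  have hsum : (∑ x, ∑ y, c x * c y * ker w ε (p x) (p y)) =
      (Z.card : ℝ) ^ 2 * (∑ x ∈ Λ, ∑ y ∈ Λ, ker w ε x y)
        - 2 * Z.card * Λ.card * (∑ x ∈ Λ, ∑ y ∈ Z, ker w ε x y)
        + (Λ.card : ℝ) ^ 2 * (∑ x ∈ Z, ∑ y ∈ Z, ker w ε x y) := by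
    have s2 : (∑ x ∈ Z, ∑ y ∈ Λ, ker w ε x y) = ∑ x ∈ Λ, ∑ y ∈ Z, ker w ε x y := by
      rw [Finset.sum_comm]
      exact Finset.sum_congr rfl fun x _ => Finset.sum_congr rfl fun y _ => ker_symm w ε _ _
    simp only [Fintype.sum_sum_type, Finset.sum_add_distrib, c, p, Sum.elim_inl, Sum.elim_inr,
      ← Finset.mul_sum, s1, s2]
    ring
  rw [hsum] at hE
  have b1 := sum_ker_ge w ε Λ
  have b2 := sum_ker_ge w ε Z
  have b3 : (∑ x ∈ Λ, ∑ y ∈ Z, ker w ε x y) ≤ Λ.card * L := by
    rw [← nsmul_eq_mul]; exact Finset.sum_le_card_nsmul _ _ _ hB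
  have b4 : (Z.card : ℝ) * Real.log ε ≤ ∑ x ∈ Z, ∑ y ∈ Z, ker w ε x y := by linarith
  refine le_trans ?_ hE
  gcongr

theorem roots_pkg [IsAlgClosed F] {P : F[X]} (hP : w P.leadingCoeff = 1)
    (hsep : ∀ z, P.IsRoot z → P.derivative.eval z ≠ 0) :
    ∃ Z : Finset F, Z.card = P.natDegree ∧ (∀ z, z ∈ Z ↔ P.IsRoot z) ∧
      (∀ z ∈ Z, w (∏ y ∈ Z.erase z, (z - y)) = w (P.derivative.eval z)) ∧
      ∀ (r : ℝ≥0) (hr : 0 < r) (c : F),
        gv w r hr (P.comp (X + C c)) = ∏ z ∈ Z, max r (w (z - c)) := by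
  have hP0 : P ≠ 0 := by
    rintro rfl
    simp at hP
  have hnd : P.roots.Nodup := by
    rw [Multiset.nodup_iff_count_le_one]
    intro z
    rw [count_roots]
    by_contra hc
    push Not at hc
    obtain ⟨h1, h2⟩ := (one_lt_rootMultiplicity_iff_isRoot hP0).mp hc
    exact hsep z h1 h2
  refine ⟨⟨P.roots, hnd⟩, (IsAlgClosed.splits P).natDegree_eq_card_roots.symm,
    fun z => mem_roots hP0, fun z hz => ?_, fun r hr c => ?_⟩
  · conv_rhs => rw [(IsAlgClosed.splits P).eq_prod_roots]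
    rw [derivative_C_mul, eval_mul, eval_C, map_mul, hP, one_mul,
      eval_multiset_prod_X_sub_C_derivative hz]
    rfl
  · rw [gv_comp w hr P (by simp) c, hP, one_mul, gv_X]
    rfl

omit [DecidableEq F] in
theorem prod_max_le {ε ρ : ℝ≥0} (hε : 0 < ε) (h : ε ≤ ρ) (Z : Finset F) (c : F) :
    ∏ z ∈ Z, max ρ (w (z - c)) ≤
      (ρ / ε) ^ (Z.filter fun z => w (z - c) ≤ ρ).card * ∏ z ∈ Z, max ε (w (z - c)) := by
  rw [← Finset.prod_const, Finset.prod_filter, ← Finset.prod_mul_distrib]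
  refine Finset.prod_le_prod' fun z _ => ?_
  split_ifs with hz
  · rw [max_eq_left hz]
    calc ρ = ρ / ε * ε := (div_mul_cancel₀ ρ hε.ne').symm
      _ ≤ _ := by gcongr; exact le_max_left _ _
  · push Not at hz
    rw [one_mul, max_eq_right hz.le]
    exact le_max_right _ _

end abstract

section dyn

variable {k F : Type*} [Field k] [Field F] [Algebra k F]
variable (w : Valuation F ℝ≥0) (hk : ∀ c : k, w (algebraMap k F c) ≤ 1)
variable {f : k[X]} (hd : 2 ≤ f.natDegree) {t : F} (ht : 1 < w t)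

theorem zp_comp (f : k[X]) (a c : F) (n : ℕ) :
    (zp f a n).comp (X + C c) = orb f (X + C c) (C a) n := by
  rw [comp_eq_aeval, aeval_zp]; rfl

theorem derivative_zp_succ (f : k[X]) (a : F) (n : ℕ) :
    derivative (zp f a (n + 1)) =
      aeval (zp f a n) (derivative f) * derivative (zp f a n) + 1 := by
  rw [zp_succ, derivative_add, derivative_X, aeval_poly, derivative_comp, derivative_map,
    aeval_poly, mul_comm]

theorem eval_aeval_poly (g : k[X]) (P : F[X]) (c : F) :
    (aeval P g).eval c = aeval (P.eval c) g := by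
  rw [aeval_poly, eval_comp, eval_map_algebraMap]

include hk hd ht

theorem w_derivative_zp (h1 : 1 ≤ f.derivative.natDegree) {c : F}
    (hc : ∀ l, w (orb f c t l) ≤ w t) (l : ℕ) :
    w ((derivative (zp f t (l + 1))).eval c) = w t ^ (f.derivative.natDegree * l) := by
  have hce := v_eq_of_bounded w hk hd ht hc
  have hf : f.derivative ≠ 0 := by
    intro h; rw [h] at h1; simp at h1
  induction l with
  | zero => simp [zp_one]
  | succ l ih =>
    have h2 : w (aeval (orb f c t (l + 1)) (derivative f) *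
        (derivative (zp f t (l + 1))).eval c) = w t ^ (f.derivative.natDegree * (l + 1)) := by
      rw [map_mul, ih, v_aeval_eq w hk hf (by rw [hce]; exact ht), hce, ← pow_add]
      congr 1; ring
    rw [derivative_zp_succ, eval_add, eval_mul, eval_one, eval_aeval_poly, eval_zp,
      w.map_add_eq_of_lt_left, h2]
    rw [h2, map_one]
    exact one_lt_pow₀ ht (by positivity)

theorem exists_sep (n : ℕ) : ∃ i, n ≤ i ∧ i ≤ n + 1 ∧ ∀ z, (zp f t (i + 1) - C t).IsRoot z →
    1 ≤ w ((derivative (zp f t (i + 1) - C t)).eval z) := by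
  by_cases h1 : 1 ≤ f.derivative.natDegree
  · refine ⟨n, le_rfl, by omega, fun z hz => ?_⟩
    have hz' : orb f z t (n + 1) = t := by
      simpa [IsRoot, eval_zp, sub_eq_zero] using hz
    rw [derivative_sub, derivative_C, sub_zero,
      w_derivative_zp w hk hd ht h1 (v_periodic w hk hd ht (by omega) hz')]
    exact one_le_pow₀ ht.le
  · obtain ⟨c₀, hc₀⟩ : ∃ c₀, f.derivative = C c₀ := ⟨_, eq_C_of_natDegree_eq_zero (by omega)⟩
    have key : ∀ l, ∃ s : k, derivative (zp f t (l + 1)) = C (algebraMap k F s) ∧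
        derivative (zp f t (l + 1 + 1)) = C (algebraMap k F (c₀ * s + 1)) := by
      have step : ∀ l (s : k), derivative (zp f t (l + 1)) = C (algebraMap k F s) →
          derivative (zp f t (l + 1 + 1)) = C (algebraMap k F (c₀ * s + 1)) := by
        intro l s hs
        rw [derivative_zp_succ, hs, hc₀, aeval_C]
        simp
      intro l
      induction l with
      | zero => exact ⟨1, by simp [zp_one], step 0 1 (by simp [zp_one])⟩
      | succ l ih =>
        obtain ⟨s, -, h2⟩ := ih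
        exact ⟨_, h2, step _ _ h2⟩
    obtain ⟨s, h2, h3⟩ := key n
    by_cases hs : s = 0
    · refine ⟨n + 1, by omega, le_rfl, fun z _ => ?_⟩
      rw [derivative_sub, derivative_C, sub_zero, h3, hs]
      simp
    · refine ⟨n, le_rfl, by omega, fun z _ => ?_⟩
      rw [derivative_sub, derivative_C, sub_zero, h2, eval_C, v_const w hk hs]

omit hd in
theorem lipschitz_le {c : F} {i : ℕ} (hc : ∀ l, l ≤ i → w (orb f c t l) ≤ w t) {ε : ℝ≥0}
    (hε : 0 < ε) (hεi : w t ^ (f.natDegree * i) * ε ≤ 1) :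
    gv w ε hε (orb f (X + C c) (C t) i - C t) ≤ w t := by
  have hpow : ∀ l, l ≤ i → w t ^ (f.natDegree * l) * ε ≤ w t := fun l hl =>
    le_trans (le_trans (by gcongr; exact ht.le) hεi) ht.le
  have key : ∀ l, l ≤ i → gv w ε hε (orb f (X + C c) (C t) l - C (orb f c t l)) ≤
      w t ^ (f.natDegree * l) * ε := by
    intro l
    induction l with
    | zero => simp
    | succ l ih =>
      intro hl
      have h1 := ih (by omega)
      have h2 : gv w ε hε (C (orb f c t l)) ≤ w t := by rw [gv_C]; exact hc l (by omega)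
      have h3 : gv w ε hε (orb f (X + C c) (C t) l) ≤ w t := by
        rw [← sub_add_cancel (orb f (X + C c) (C t) l) (C (orb f c t l))]
        exact (gv w ε hε).map_add_le (h1.trans (hpow l (by omega))) h2
      have h4 := v_aeval_sub_le (gv w ε hε) (gv_const w hε hk) f h3 h2 ht.le
      have h5 : orb f (X + C c) (C t) (l + 1) - C (orb f c t (l + 1)) =
          (aeval (orb f (X + C c) (C t) l) f - aeval (C (orb f c t l) : F[X]) f) + X := by
        rw [orb_succ, orb_succ, aeval_C_poly, map_add]; ring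
      rw [h5]
      refine (gv w ε hε).map_add_le (h4.trans ?_) ?_
      · calc w t ^ (f.natDegree - 1) * gv w ε hε (orb f (X + C c) (C t) l - C (orb f c t l))
            ≤ w t ^ f.natDegree * (w t ^ (f.natDegree * l) * ε) := by
              gcongr
              · exact ht.le
              · omega
          _ = _ := by rw [← mul_assoc, ← pow_add]; congr 2; ring
      · rw [gv_X]
        exact le_mul_of_one_le_left zero_le (one_le_pow₀ ht.le)
  have : orb f (X + C c) (C t) i - C t =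
      (orb f (X + C c) (C t) i - C (orb f c t i)) + (C (orb f c t i) - C t) := by ring
  rw [this]
  refine (gv w ε hε).map_add_le ((key i le_rfl).trans (hpow i le_rfl))
    ((gv w ε hε).map_sub_le ?_ ?_)
  · rw [gv_C]; exact hc i le_rfl
  · rw [gv_C]

/-- The discriminant bound, with an optional gap term. -/
theorem logDisc_le [IsAlgClosed F] [DecidableEq F] {i : ℕ}
    (hsep : ∀ z, (zp f t (i + 1) - C t).IsRoot z →
      1 ≤ w ((derivative (zp f t (i + 1) - C t)).eval z))
    (Λ : Finset F) (hΛ : ∀ x ∈ Λ, ∀ l, l ≤ i + 1 → w (orb f x t l) ≤ w t)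
    (γ ν : ℝ) (hgap : (γ = 0 ∧ ν = 0) ∨ ∃ (c : F) (ρ₁ ρ₂ : ℝ≥0) (h0 : 0 < ρ₁) (s : ℕ),
      ρ₁ ≤ ρ₂ ∧ ρ₁ ≤ 1 ∧ (w t ^ (f.natDegree * (i + 1)))⁻¹ ≤ ρ₁ ∧
      γ = Real.log ρ₂ - Real.log ρ₁ ∧ (∀ x ∈ Λ, ρ₂ < w (x - c)) ∧
      (∀ l, w (orb f c t l) ≤ w t) ∧
      w t ^ s ≤ gv w ρ₁ h0 (orb f (X + C c) (C t) (i + 1) - C t) ∧
      0 ≤ ν ∧ ν * (f.natDegree * (i + 1)) + 1 ≤ s) :
    ((f.natDegree : ℝ) ^ i) ^ 2 * logDisc w Λ ≤
      (Λ.card : ℝ) ^ 2 * ((f.natDegree : ℝ) ^ i * (2 + f.natDegree * (i + 1)) * Real.log (w t)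
        - γ * ν ^ 2)
      + Λ.card * (((f.natDegree : ℝ) ^ i) ^ 2 * (f.natDegree * (i + 1)) * Real.log (w t)) := by
  obtain ⟨hdeg, c₁, hc₁, hlc⟩ := zp_sub_C_deg hd t t i
  have ht0 : 0 < w t := one_pos.trans ht
  obtain ⟨Z, z1, z2, z3, z4⟩ := roots_pkg w (P := zp f t (i + 1) - C t)
    (by rw [hlc, v_const w hk hc₁]) fun z hz h => by
      have := hsep z hz
      rw [h, map_zero] at this
      exact absurd this (not_le.mpr one_pos)
  set e := f.natDegree * (i + 1) with he
  set ε : ℝ≥0 := (w t ^ e)⁻¹ with hεdef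
  have hε : 0 < ε := inv_pos.mpr (pow_pos ht0 _)
  have hlogε : Real.log ε = -(e * Real.log (w t)) := by
    rw [hεdef, NNReal.coe_inv, NNReal.coe_pow, Real.log_inv, Real.log_pow]
  have hcomp : ∀ c : F, (zp f t (i + 1) - C t).comp (X + C c) =
      orb f (X + C c) (C t) (i + 1) - C t := fun c => by rw [sub_comp, C_comp, zp_comp]
  have hlip : ∀ c : F, (∀ l, l ≤ i + 1 → w (orb f c t l) ≤ w t) →
      ∏ z ∈ Z, max ε (w (z - c)) ≤ w t := fun c hc => by
    rw [← z4 ε hε c, hcomp]
    exact lipschitz_le w hk ht hc hε (by rw [hεdef, mul_inv_cancel₀ (pow_pos ht0 _).ne'])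
  have hB : ∀ x ∈ Λ, ∑ z ∈ Z, ker w ε x z ≤ Real.log (w t) := by
    intro x hx
    have h1 : ∑ z ∈ Z, ker w ε x z = Real.log ((∏ z ∈ Z, max ε (w (z - x)) : ℝ≥0) : ℝ) := by
      rw [NNReal.coe_prod, Real.log_prod fun z _ => ?_]
      · exact Finset.sum_congr rfl fun z _ => ker_symm w ε _ _
      · exact_mod_cast (lt_max_of_lt_left hε).ne'
    rw [h1]
    exact log_mono (Finset.prod_pos fun z _ => lt_max_of_lt_left hε) (hlip x (hΛ x hx))
  have hC : 0 ≤ logDisc w Z := by
    refine Finset.sum_nonneg fun z hz => ?_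
    have h1 := hsep z ((z2 z).mp hz)
    rw [← z3 z hz, map_prod] at h1
    rw [← Real.log_prod fun y hy => ?_, ← NNReal.coe_prod]
    · exact Real.log_nonneg (by exact_mod_cast h1)
    · exact_mod_cast (Valuation.ne_zero_iff w).mpr
        (sub_ne_zero.mpr (Finset.ne_of_mem_erase hy).symm)
  have hZ : (Z.card : ℝ) = (f.natDegree : ℝ) ^ i := by rw [z1, hdeg]; push_cast; rfl
  have hee : (e : ℝ) = f.natDegree * (i + 1) := by rw [he]; push_cast; rfl
  rcases hgap with ⟨rfl, rfl⟩ | ⟨c, ρ₁, ρ₂, h0, s, g1, g2, g3, rfl, g5, g6, g7, g8, g9⟩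
  · have := disc_core w hε Λ Z _ hB hC _ _ 0 le_rfl le_rfl (Or.inl rfl)
    rw [hZ, hlogε, hee] at this
    nlinarith [this]
  · set n₀ := (Z.filter fun z => w (z - c) ≤ ρ₁).card with hn₀
    have h1 : w t ^ s ≤ w t ^ (e * n₀ + 1) := by
      rw [← hcomp, z4] at g7
      refine g7.trans ((prod_max_le w hε g3 Z c).trans ?_)
      rw [pow_succ, pow_mul]
      gcongr
      · rw [hεdef, div_inv_eq_mul]
        exact mul_le_of_le_one_left zero_le g2
      · exact hlip c fun l _ => g6 l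
    have h2 : s ≤ e * n₀ + 1 := (pow_le_pow_iff_right₀ ht).mp h1
    have he0 : (0 : ℝ) < e := by rw [hee]; positivity
    have h3 : ν ≤ n₀ := by
      have h4 : (s : ℝ) ≤ e * n₀ + 1 := by exact_mod_cast h2
      rw [← hee] at g9
      nlinarith
    have h5 : n₀ ≤ (Z.filter fun z => ker w ε c z ≤ Real.log ρ₁).card := by
      refine Finset.card_le_card (Finset.monotone_filter_right _ fun z _ hz => ?_)
      rw [ker_symm]
      exact log_mono (lt_max_of_lt_left hε) (max_le g3 hz)
    have := disc_core w hε Λ Z _ hB hC (Real.log ρ₁) (Real.log ρ₂) (Λ.card * ν)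
      (log_mono hε g3) (log_mono h0 g1) (Or.inr ⟨c, fun x hx => ?_, by positivity, ?_⟩)
    · rw [hZ, hlogε, hee] at this
      nlinarith [this]
    · rw [ker_symm]
      exact Real.log_lt_log (by exact_mod_cast h0.trans_le g1)
        (by exact_mod_cast lt_max_of_lt_right (g5 x hx))
    · have h6 : (n₀ : ℝ) ≤ (Z.filter fun z => ker w ε c z ≤ Real.log ρ₁).card := by
        exact_mod_cast h5
      gcongr
      exact h3.trans h6

end dyn

end Pool.Agent.Lib.MP_a5410e_nt
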