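import Pool.Agent.Lib.MP_a5410e_nt.Gauss

/-!
Function fields of transcendence degree one: regular elements, conjugates, the place at infinity.
-/

set_option autoImplicit false

open Polynomial NNReal

namespace Pool.Agent.Lib.MP_a5410e_nt

variable (k : Type*) {F : Type*} [Field k] [Field F] [Algebra k F]

/-- Evaluation at `t` as a ring homomorphism. -/
noncomputable def ev (t : F) : k[X] →+* F := (aeval t : k[X] →ₐ[k] F).toRingHom

theorem ev_apply (t : F) (g : k[X]) : ev k t g = aeval t g := rfl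

/-- `x` is algebraic over `k[t]`. -/
def AlgOver (t x : F) : Prop := ∃ P : k[X][X], P ≠ 0 ∧ (P.map (ev k t)).eval x = 0

/-- `y` lies in every valuation ring that contains `k` and `t`. -/
def Reg (t y : F) : Prop :=
  ∀ V : ValuationSubring F, (∀ c : k, algebraMap k F c ∈ V) → t ∈ V → y ∈ V

variable {k}

theorem ev_injective {t : F} (htr : Transcendental k t) : Function.Injective (ev k t) :=
  transcendental_iff_injective.mp htr

section val

variable {Γ : Type*} [LinearOrderedCommGroupWithZero Γ] (v : Valuation F Γ)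

theorem eval_ne_zero_of_dominant (Q : F[X]) (y : F)
    (hne : v Q.leadingCoeff * v y ^ Q.natDegree ≠ 0)
    (h : ∀ i, i < Q.natDegree → v (Q.coeff i) * v y ^ i < v Q.leadingCoeff * v y ^ Q.natDegree) :
    Q.eval y ≠ 0 := by
  have h1 : v (Q.coeff Q.natDegree * y ^ Q.natDegree) =
      v Q.leadingCoeff * v y ^ Q.natDegree := by rw [map_mul, map_pow]; rfl
  intro h0
  have h2 : v (Q.eval y) = v Q.leadingCoeff * v y ^ Q.natDegree := by
    rw [eval_eq_sum_range, Finset.sum_range_succ, v.map_add_eq_of_lt_right, h1]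
    rw [h1]
    refine v.map_sum_lt hne fun i hi => ?_
    rw [map_mul, map_pow]
    exact h i (Finset.mem_range.mp hi)
  rw [h0, map_zero] at h2
  exact hne h2.symm

variable (hk : ∀ c : k, v (algebraMap k F c) ≤ 1)
include hk

theorem transcendental_of_one_lt {a : F} (ha : 1 < v a) : Transcendental k a := by
  rintro ⟨g, hg, h0⟩
  have := v_aeval_eq v hk hg ha
  rw [h0, map_zero] at this
  exact pow_ne_zero _ (zero_lt_one.trans ha).ne' this.symm

theorem arch {a x : F} (ha : 1 < v a) (hx : AlgOver k a x) : ∃ M, v x ≤ v a ^ M := by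
  obtain ⟨P, hP, h0⟩ := hx
  have hinj := ev_injective (transcendental_of_one_lt v hk ha)
  refine ⟨P.support.sup fun i => (P.coeff i).natDegree, ?_⟩
  set M := P.support.sup fun i => (P.coeff i).natDegree with hM
  by_contra hc
  push Not at hc
  have h1 : 1 < v x := (one_le_pow₀ ha.le).trans_lt hc
  have hlc : 1 ≤ v (P.map (ev k a)).leadingCoeff := by
    rw [leadingCoeff_map_of_injective hinj, ev_apply,
      v_aeval_eq v hk (leadingCoeff_ne_zero.mpr hP) ha]
    exact one_le_pow₀ ha.le
  have hxpos : 0 < v x := zero_lt_one.trans h1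
  refine eval_ne_zero_of_dominant v _ x
    (mul_ne_zero (zero_lt_one.trans_le hlc).ne' (pow_ne_zero _ hxpos.ne')) (fun i hi => ?_) h0
  have h2 : v ((P.map (ev k a)).coeff i) ≤ v a ^ M := by
    rw [coeff_map, ev_apply]
    by_cases hi0 : P.coeff i = 0
    · simp [hi0]
    · exact v_aeval_le' v hk _ le_rfl ha.le
        (Finset.le_sup (f := fun i => (P.coeff i).natDegree) (mem_support_iff.mpr hi0))
  calc v ((P.map (ev k a)).coeff i) * v x ^ i < v x * v x ^ i :=
        mul_lt_mul_of_pos_right (h2.trans_lt hc) (pow_pos hxpos _)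
    _ = v x ^ (i + 1) := (pow_succ' _ _).symm
    _ ≤ v x ^ (P.map (ev k a)).natDegree := pow_le_pow_right₀ h1.le hi
    _ ≤ _ := le_mul_of_one_le_left zero_le hlc

end val

theorem Reg.mul {t x y : F} (hx : Reg k t x) (hy : Reg k t y) : Reg k t (x * y) :=
  fun V h1 h2 => V.mul_mem _ _ (hx V h1 h2) (hy V h1 h2)

theorem Reg.sub {t x y : F} (hx : Reg k t x) (hy : Reg k t y) : Reg k t (x - y) :=
  fun V h1 h2 => sub_mem (hx V h1 h2) (hy V h1 h2)

theorem Reg.prod {ι : Type*} {t : F} {s : Finset ι} {x : ι → F} (hx : ∀ i ∈ s, Reg k t (x i)) :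
    Reg k t (∏ i ∈ s, x i) :=
  fun V h1 h2 => prod_mem fun i hi => hx i hi V h1 h2

theorem Reg.map {t x : F} (hx : Reg k t x) (σ : F ≃ₐ[k] F) (hσ : σ t = t) : Reg k t (σ x) :=
  fun V h1 h2 => hx (V.comap (σ : F →+* F))
    (fun c => by simpa [ValuationSubring.mem_comap] using h1 c)
    (by simpa [ValuationSubring.mem_comap, hσ] using h2)

theorem Reg.aeval {t x : F} (hx : Reg k t x) (g : k[X]) : Reg k t (aeval x g) := by
  intro V h1 h2
  rw [← V.valuation_le_one_iff]
  have := v_aeval_le V.valuation (fun c => (V.valuation_le_one_iff _).mpr (h1 c)) g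
    ((V.valuation_le_one_iff _).mpr (hx V h1 h2)) le_rfl
  rwa [one_pow] at this

theorem reg_self (t : F) : Reg k t t := fun _ _ h => h

theorem reg_of_monic {t y : F} {P : k[X][X]} (hP : P.Monic) (h0 : (P.map (ev k t)).eval y = 0) :
    Reg k t y := by
  intro V h1 h2
  rw [← V.valuation_le_one_iff]
  by_contra hc
  push Not at hc
  have hm : (P.map (ev k t)).leadingCoeff = 1 := (hP.map _)
  have hpos : 0 < V.valuation y := zero_lt_one.trans hc
  refine eval_ne_zero_of_dominant V.valuation _ y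
    (by rw [hm, map_one, one_mul]; exact pow_ne_zero _ hpos.ne') (fun i hi => ?_) h0
  rw [hm, map_one, one_mul, coeff_map, ev_apply]
  calc V.valuation (aeval t (P.coeff i)) * V.valuation y ^ i ≤ 1 * V.valuation y ^ i := by
        gcongr
        exact (V.valuation_le_one_iff _).mpr ((reg_self t).aeval _ V h1 h2)
    _ = _ := one_mul _
    _ < _ := pow_lt_pow_right₀ hc hi

theorem monic_of_reg {t y : F} (hy : Reg k t y) :
    ∃ P : k[X][X], P.Monic ∧ (P.map (ev k t)).eval y = 0 := by
  have h1 : y ∈ (integralClosure (Subring.closure (Set.range (ev k t))) F).toSubring := by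
    rw [← iInf_valuationSubring_superset, Subring.mem_iInf]
    rintro ⟨V, hV⟩
    exact hy V (fun c => hV ⟨C c, by simp [ev_apply]⟩) (hV ⟨X, by simp [ev_apply]⟩)
  obtain ⟨Q, hQ, hQ0⟩ : IsIntegral (Subring.closure (Set.range (ev k t))) y := h1
  have hl : Q.map (algebraMap _ F) ∈ lifts (ev k t) := by
    rw [lifts_iff_coeff_lifts]
    intro n
    rw [coeff_map]
    have h2 : Subring.closure (Set.range (ev k t)) ≤ (ev k t).range :=
      Subring.closure_le.mpr (by rw [RingHom.coe_range])
    exact h2 (Q.coeff n).2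
  obtain ⟨P, hP1, -, hP3⟩ := lifts_and_natDegree_eq_and_monic hl (hQ.map _)
  exact ⟨P, hP3, by rw [hP1, eval_map]; exact hQ0⟩

theorem exists_reg_mul {t b : F} (hb : AlgOver k t b) :
    ∃ u : k[X], u ≠ 0 ∧ Reg k t (aeval t u * b) := by
  letI : Algebra k[X] F := (ev k t).toAlgebra
  obtain ⟨P, hP, h0⟩ := hb
  have halg : IsAlgebraic k[X] b := ⟨P, hP, by rw [aeval_def, ← eval_map]; exact h0⟩
  obtain ⟨u, hu, Q, hQ, hQ0⟩ := halg.exists_integral_multiple
  exact ⟨u, hu, reg_of_monic hQ (by rw [eval_map]; exact hQ0)⟩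

theorem map_root (t : F) (σ : F ≃ₐ[k] F) (hσ : σ t = t) (P : k[X][X]) (x : F) :
    (P.map (ev k t)).eval (σ x) = σ ((P.map (ev k t)).eval x) := by
  have h : (σ : F →+* F).comp (ev k t) = ev k t := by
    refine RingHom.ext fun g => ?_
    rw [RingHom.comp_apply, ev_apply]
    conv_rhs => rw [← hσ]
    exact (aeval_algHom_apply (σ : F →ₐ[k] F) t g).symm
  have := hom_eval₂ P (ev k t) (σ : F →+* F) x
  rw [h] at this
  rw [eval_map, eval_map]
  exact this.symm

theorem finite_orbit {t x : F} (htr : Transcendental k t) (hx : AlgOver k t x) :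
    {y | ∃ σ : F ≃ₐ[k] F, σ t = t ∧ σ x = y}.Finite := by
  obtain ⟨P, hP, h0⟩ := hx
  refine (finite_setOfPred_isRoot
    ((Polynomial.map_ne_zero_iff (ev_injective htr)).mpr hP)).subset ?_
  rintro y ⟨σ, hσ, rfl⟩
  simp only [Set.mem_ofPred_eq, IsRoot]
  rw [map_root t σ hσ, h0, map_zero]

theorem exists_conj [IsAlgClosed F] {t : F} (htr : Transcendental k t)
    (halg : ∀ x, AlgOver k t x) {x : F} (hx : Reg k t x) :
    ∃ μ : k[X][X], μ.Monic ∧ (μ.map (ev k t)).eval x = 0 ∧ (x ≠ 0 → μ.coeff 0 ≠ 0) ∧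
      ∀ r, (μ.map (ev k t)).eval r = 0 → ∃ σ : F ≃ₐ[k] F, σ t = t ∧ σ x = r := by
  letI : Algebra k[X] F := (ev k t).toAlgebra
  haveI : IsScalarTower k k[X] F := IsScalarTower.of_algebraMap_eq fun c => by
    change _ = ev k t (C c)
    simp [ev_apply]
  haveI : FaithfulSMul k[X] F := (faithfulSMul_iff_algebraMap_injective _ _).mpr (ev_injective htr)
  letI : Algebra (FractionRing k[X]) F := FractionRing.liftAlgebra k[X] F
  haveI : IsScalarTower k[X] (FractionRing k[X]) F := FractionRing.isScalarTower_liftAlgebra _ _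
  haveI : IsScalarTower k (FractionRing k[X]) F := IsScalarTower.of_algebraMap_eq fun c => by
    rw [IsScalarTower.algebraMap_apply k k[X] (FractionRing k[X]),
      ← IsScalarTower.algebraMap_apply k[X] (FractionRing k[X]) F,
      ← IsScalarTower.algebraMap_apply k k[X] F]
  haveI : Algebra.IsAlgebraic k[X] F := ⟨fun y => by
    obtain ⟨P, hP, h0⟩ := halg y
    exact ⟨P, hP, by rw [aeval_def, ← eval_map]; exact h0⟩⟩
  haveI : Algebra.IsAlgebraic (FractionRing k[X]) F :=
    Algebra.IsAlgebraic.extendScalars (IsFractionRing.injective k[X] (FractionRing k[X]))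
  haveI : IsAlgClosure (FractionRing k[X]) F := ⟨inferInstance, inferInstance⟩
  obtain ⟨P, hP, hP0⟩ := monic_of_reg hx
  have hint : IsIntegral k[X] x := ⟨P, hP, by rw [← eval_map]; exact hP0⟩
  have hmin := minpoly.isIntegrallyClosed_eq_field_fractions' (FractionRing k[X]) hint
  refine ⟨minpoly k[X] x, minpoly.monic hint, ?_, fun hx0 h => ?_, fun r hr => ?_⟩
  · rw [eval_map]; exact minpoly.aeval k[X] x
  · have := minpoly.coeff_zero_ne_zero (hint.tower_top (A := FractionRing k[X])) hx0
    rw [hmin, coeff_map, h, map_zero] at this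
    exact this rfl
  · have h1 : aeval r (minpoly (FractionRing k[X]) x) = 0 := by
      rw [hmin, aeval_map_algebraMap, aeval_def, ← eval_map]; exact hr
    obtain ⟨σ, hσ⟩ := minpoly.exists_algEquiv_of_root'
      (Algebra.IsAlgebraic.isAlgebraic (R := FractionRing k[X]) x) h1
    refine ⟨σ.restrictScalars k, ?_, hσ⟩
    have h2 : t = algebraMap (FractionRing k[X]) F (algebraMap k[X] _ X) := by
      rw [← IsScalarTower.algebraMap_apply]
      change _ = ev k t X
      simp [ev_apply]
    rw [AlgEquiv.restrictScalars_apply]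
    conv_lhs => rw [h2]
    rw [σ.commutes, ← h2]

section place

variable [IsAlgClosed F] (w : Valuation F ℝ≥0) (hk : ∀ c : k, w (algebraMap k F c) ≤ 1)
  {t : F} (ht : 1 < w t) (halg : ∀ x, AlgOver k t x)
include hk ht halg

theorem exists_conj_ge {y : F} (hy0 : y ≠ 0) (hy : Reg k t y) :
    ∃ σ : F ≃ₐ[k] F, σ t = t ∧ 1 ≤ w (σ y) := by
  obtain ⟨μ, h1, h2, h3, h4⟩ := exists_conj (transcendental_of_one_lt w hk ht) halg hy
  by_contra hc
  push Not at hc
  have hm : (μ.map (ev k t)).Monic := h1.map _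
  have hlt : ∀ r ∈ (μ.map (ev k t)).roots, w r < 1 := by
    intro r hr
    obtain ⟨σ, hσ, rfl⟩ := h4 r ((mem_roots hm.ne_zero).mp hr)
    exact hc σ hσ
  obtain ⟨ρ, hρ0, hρ1, hρ⟩ : ∃ ρ : ℝ≥0, 0 < ρ ∧ ρ < 1 ∧
      ∀ r ∈ (μ.map (ev k t)).roots, w r ≤ ρ := by
    classical
    obtain ⟨r₀, hr₀, hmax⟩ := Finset.exists_max_image (μ.map (ev k t)).roots.toFinset w
      ⟨y, Multiset.mem_toFinset.mpr ((mem_roots hm.ne_zero).mpr h2)⟩
    refine ⟨w r₀, ?_, hlt r₀ (Multiset.mem_toFinset.mp hr₀),
      fun r hr => hmax r (Multiset.mem_toFinset.mpr hr)⟩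
    exact ((Valuation.pos_iff w).mpr hy0).trans_le
      (hmax y (Multiset.mem_toFinset.mpr ((mem_roots hm.ne_zero).mpr h2)))
  have h5 := coeff_le_gn w ρ (μ.map (ev k t)) 0
  rw [gn_eq_prod w hρ0, hm.leadingCoeff, map_one, one_mul, pow_zero, mul_one, coeff_map, ev_apply,
    v_aeval_eq w hk (h3 hy0) ht,
    Multiset.map_congr rfl fun r hr => max_eq_left (hρ r hr), Multiset.map_const',
    Multiset.prod_replicate] at h5
  have h6 : Multiset.card (μ.map (ev k t)).roots ≠ 0 := by
    rw [Ne, Multiset.card_eq_zero]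
    intro h
    have := (mem_roots hm.ne_zero).mpr h2
    rw [h] at this
    simp at this
  exact absurd ((one_le_pow₀ ht.le).trans h5) (not_le.mpr (pow_lt_one₀ zero_le hρ1 h6))

theorem mem_range_of_conj_le [IsAlgClosed k] {y : F} (hy : Reg k t y)
    (hle : ∀ σ : F ≃ₐ[k] F, σ t = t → w (σ y) ≤ 1) : ∃ c : k, algebraMap k F c = y := by
  obtain ⟨μ, h1, h2, -, h4⟩ := exists_conj (transcendental_of_one_lt w hk ht) halg hy
  have hm : (μ.map (ev k t)).Monic := h1.map _
  have hρ : ∀ r ∈ (μ.map (ev k t)).roots, w r ≤ 1 := by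
    intro r hr
    obtain ⟨σ, hσ, rfl⟩ := h4 r ((mem_roots hm.ne_zero).mp hr)
    exact hle σ hσ
  have hdeg : ∀ i, (μ.coeff i).natDegree = 0 := by
    intro i
    by_cases hi : μ.coeff i = 0
    · simp [hi]
    have h5 := coeff_le_gn w 1 (μ.map (ev k t)) i
    rw [gn_eq_prod w one_pos, hm.leadingCoeff, map_one, one_mul, one_pow, mul_one, coeff_map,
      ev_apply, v_aeval_eq w hk hi ht,
      Multiset.map_congr rfl fun r hr => max_eq_left (hρ r hr), Multiset.map_const',
      Multiset.prod_replicate, one_pow] at h5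
    by_contra hne
    exact absurd h5 (not_le.mpr (one_lt_pow₀ ht hne))
  have hmap : μ.map (ev k t) = (μ.map (evalRingHom 0)).map (algebraMap k F) := by
    ext i
    rw [coeff_map, coeff_map, coeff_map, eq_C_of_natDegree_eq_zero (hdeg i)]
    simp [ev_apply]
  have hint : IsIntegral k y := ⟨μ.map (evalRingHom 0), h1.map _, by
    rw [← eval_map, ← hmap]; exact h2⟩
  exact minpoly.mem_range_of_degree_eq_one k y
    (IsAlgClosed.degree_eq_one_of_irreducible k (minpoly.irreducible hint))

end place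

/-- A real valued valuation, trivial on the constants, with a pole at `t`. -/
theorem exists_place (h1 : ∀ a : F, Transcendental k a → ∀ x, AlgOver k a x) {t : F}
    (htr : Transcendental k t) :
    ∃ w : Valuation F ℝ≥0, (∀ c : k, w (algebraMap k F c) ≤ 1) ∧ 1 < w t := by
  have ht0 : t ≠ 0 := fun h => htr (h ▸ isAlgebraic_zero)
  have htr' : Transcendental k t⁻¹ := fun h => htr (by simpa using h.inv)
  let A : Subring F := (ev k t⁻¹).range
  let s : A := ⟨t⁻¹, X, by simp [ev_apply]⟩
  have hI : Ideal.span {s} ≠ ⊤ := by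
    rw [Ne, Ideal.span_singleton_eq_top, isUnit_iff_exists_inv]
    rintro ⟨⟨_, g, rfl⟩, hg⟩
    have h2 : ev k t⁻¹ (X * g) = ev k t⁻¹ 1 := by
      rw [map_mul, map_one]
      simpa [s, ev_apply] using congrArg Subtype.val hg
    have h3 := congrArg (fun P => P.coeff 0) (ev_injective htr' h2)
    simp at h3
  obtain ⟨V, hV1, hV2⟩ := Ideal.image_subset_nonunits_valuationSubring _ hI
  have hk : ∀ c : k, V.valuation (algebraMap k F c) ≤ 1 := fun c =>
    (V.valuation_le_one_iff _).mpr (hV1 ⟨C c, by simp [ev_apply]⟩)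
  have hlt : V.valuation t⁻¹ < 1 :=
    V.mem_nonunits_iff.mp (hV2 ⟨s, Ideal.mem_span_singleton_self s, rfl⟩)
  have hgt : 1 < V.valuation t := by
    rw [map_inv₀] at hlt
    exact (inv_lt_one₀ ((Valuation.pos_iff _).mpr ht0)).mp hlt
  haveI : V.valuation.IsNontrivial := ⟨t, (zero_lt_one.trans hgt).ne', hgt.ne'⟩
  have harch : MulArchimedean (MonoidWithZeroHom.ValueGroup₀ (.ofClass V.valuation)) := by
    constructor
    intro x y hy
    obtain ⟨a, rfl⟩ := MonoidWithZeroHom.ValueGroup₀.restrict₀_surjective _ y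
    obtain ⟨b, rfl⟩ := MonoidWithZeroHom.ValueGroup₀.restrict₀_surjective _ x
    rw [← Valuation.restrict_def] at hy ⊢
    rw [← Valuation.restrict_def]
    have ha : 1 < V.valuation a := by
      rw [← map_one V.valuation.restrict, Valuation.restrict_lt_iff, map_one] at hy
      exact hy
    obtain ⟨M, hM⟩ := arch V.valuation hk ha (h1 a (transcendental_of_one_lt _ hk ha) b)
    refine ⟨M, ?_⟩
    rw [← map_pow, Valuation.restrict_le_iff, map_pow]
    exact hM
  obtain ⟨hr⟩ := Valuation.nonempty_rankOne_iff_mulArchimedean.mpr harch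
  have hmono := Valuation.RankOne.strictMono V.valuation
  refine ⟨V.valuation.restrict.map (Valuation.RankOne.hom V.valuation) hmono.monotone,
    fun c => ?_, ?_⟩
  · change Valuation.RankOne.hom V.valuation (V.valuation.restrict _) ≤ 1
    rw [← map_one (Valuation.RankOne.hom V.valuation)]
    exact hmono.monotone (V.valuation.restrict_le_one_iff.mpr (hk c))
  · change 1 < Valuation.RankOne.hom V.valuation (V.valuation.restrict _)
    rw [← map_one (Valuation.RankOne.hom V.valuation)]
    refine hmono ?_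
    rw [← map_one V.valuation.restrict, Valuation.restrict_lt_iff, map_one]
    exact hgt

end Pool.Agent.Lib.MP_a5410e_nt
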