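import Pool.Agent.Lib.MP_a5410e_nt.Rec
import Pool.Agent.Lib.MP_a5410e_nt.Glob

/-!
If infinitely many parameters send both `t` and `a` to `b`, then at the place at infinity every
parameter with a bounded orbit of `t` has a bounded orbit of `a`.
-/

set_option autoImplicit false

open Polynomial NNReal

namespace Pool.Agent.Lib.MP_a5410e_nt

variable {k F : Type*} [Field k] [Field F] [Algebra k F]

/-- The parameters for which `b` is in the strict forward orbits of both `t` and `a`. -/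
def coll (f : k[X]) (t a b : F) : Set F :=
  {c | ∃ m n, 1 ≤ m ∧ 1 ≤ n ∧ orb f c t m = b ∧ orb f c a n = b}

theorem coll_comm (f : k[X]) (t a b : F) : coll f t a b = coll f a t b := by
  ext c
  constructor <;> rintro ⟨m, n, h1, h2, h3, h4⟩ <;> exact ⟨n, m, h2, h1, h4, h3⟩

theorem map_orb' (σ : F ≃ₐ[k] F) (f : k[X]) (c a : F) (n : ℕ) :
    σ (orb f c a n) = orb f (σ c) (σ a) n := map_orb (σ : F →ₐ[k] F) f c a n

theorem coll_map (σ : F ≃ₐ[k] F) {f : k[X]} {t a b : F} (h : (coll f t a b).Infinite) :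
    (coll f (σ t) (σ a) (σ b)).Infinite := by
  refine (h.image σ.injective.injOn).mono ?_
  rintro _ ⟨c, ⟨m, n, h1, h2, h3, h4⟩, rfl⟩
  exact ⟨m, n, h1, h2, by rw [← map_orb', h3], by rw [← map_orb', h4]⟩

variable {f : k[X]} (hd : 2 ≤ f.natDegree)
include hd

theorem late_infinite {t a b : F} (h : (coll f t a b).Infinite) (m₀ : ℕ) :
    {c | ∃ m n, m₀ < m ∧ m₀ < n ∧ orb f c t m = b ∧ orb f c a n = b}.Infinite := by
  refine (h.sdiff ((finite_early hd t b m₀).union (finite_early hd a b m₀))).mono ?_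
  rintro c ⟨⟨m, n, h1, h2, h3, h4⟩, h5⟩
  refine ⟨m, n, ?_, ?_, h3, h4⟩
  · by_contra hc
    exact h5 (Or.inl ⟨m, h1, by omega, h3⟩)
  · by_contra hc
    exact h5 (Or.inr ⟨n, h2, by omega, h4⟩)

theorem reg_of_infinite (h1 : ∀ a : F, Transcendental k a → ∀ x, AlgOver k a x) {t a b : F}
    (h : (coll f t a b).Infinite) : Reg k t a := by
  intro V hV ht
  rw [← V.valuation_le_one_iff] at ht ⊢
  have hk : ∀ c : k, V.valuation (algebraMap k F c) ≤ 1 := fun c =>
    (V.valuation_le_one_iff _).mpr (hV c)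
  by_contra hc
  push Not at hc
  obtain ⟨M, hM⟩ := arch V.valuation hk hc (h1 a (transcendental_of_one_lt _ hk hc) b)
  obtain ⟨c, m, n, h2, h3, h4, h5⟩ := (late_infinite hd h M).nonempty
  have hφ := v_param V.valuation hk hd hc (φ := c) (M := M) (m := n) (by rw [h5]; exact hM) h3
  obtain ⟨r, rfl⟩ := Nat.exists_eq_add_of_le (show 1 ≤ m by omega)
  have e1 : V.valuation (orb f c t 1) = V.valuation a ^ f.natDegree := by
    rw [orb_succ, orb_zero]
    exact v_small_step V.valuation hk hd hc hφ (ht.trans_lt hc)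
  have e2 : 1 < V.valuation (orb f c t 1) := by rw [e1]; exact one_lt_pow₀ hc (by omega)
  rw [← h4, orb_add, v_escape V.valuation hk hd e2
    (by rw [hφ, ← e1]; exact lt_self_pow₀ e2 (by omega)), e1, ← pow_mul, ← pow_succ'] at hM
  have e3 : M < f.natDegree ^ (r + 1) := lt_trans (by omega) (lt_pow_deg hd (r + 1))
  exact absurd hM (not_le.mpr (pow_lt_pow_right₀ hc e3))

theorem reg_pair {t b : F} {u : k[X]} (hu : Reg k t (aeval t u * b)) {i : ℕ} {x y : F}
    (hx : ∃ m, i < m ∧ orb f x t m = b) (hy : ∃ m, i < m ∧ orb f y t m = b) :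
    Reg k t (aeval t u * (x - y) ^ (f.natDegree ^ i)) := by
  intro V hV ht
  have hu1 := (V.valuation_le_one_iff _).mpr ((reg_self t).aeval u V hV ht)
  have hu2 := (V.valuation_le_one_iff _).mpr (hu V hV ht)
  rw [← V.valuation_le_one_iff] at ht ⊢
  have hk : ∀ c : k, V.valuation (algebraMap k F c) ≤ 1 := fun c =>
    (V.valuation_le_one_iff _).mpr (hV c)
  have key : ∀ z : F, (∃ m, i < m ∧ orb f z t m = b) →
      V.valuation (aeval t u) * V.valuation z ^ (f.natDegree ^ i) ≤ 1 := by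
    rintro z ⟨m, h1, h2⟩
    by_cases hz : V.valuation z ≤ 1
    · exact mul_le_one' hu1 (pow_le_one₀ zero_le hz)
    push Not at hz
    obtain ⟨r, rfl⟩ := Nat.exists_eq_add_of_le (show 1 ≤ m by omega)
    have e0 : V.valuation (aeval t f) ≤ 1 := by
      simpa using v_aeval_le V.valuation hk f ht le_rfl
    have e1 : V.valuation (orb f z t 1) = V.valuation z := by
      rw [orb_succ, orb_zero, V.valuation.map_add_eq_of_lt_right (e0.trans_lt hz)]
    rw [← h2, orb_add, map_mul, v_escape V.valuation hk hd (by rw [e1]; exact hz)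
      (by rw [e1]; exact lt_self_pow₀ hz (by omega)), e1] at hu2
    refine le_trans ?_ hu2
    gcongr
    · exact hz.le
    · omega
    · omega
  rw [map_mul, map_pow]
  rcases le_max_iff.mp (V.valuation.map_sub x y) with h | h
  · exact le_trans (by gcongr) (key x hx)
  · exact le_trans (by gcongr) (key y hy)

omit hd in
theorem log_w_prod [DecidableEq F] (w : Valuation F ℝ≥0) (σ : F ≃ₐ[k] F) {g : F} (hg : σ g = g)
    (hg0 : g ≠ 0) (D : ℕ) (Λ : Finset F) :
    Real.log (w (σ (∏ x ∈ Λ, ∏ y ∈ Λ.erase x, g * (x - y) ^ D))) =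
      Λ.card * ((Λ.card - 1 : ℕ) * Real.log (w g)) + D * logDisc w (Λ.image σ) := by
  have hw : ∀ z : F, z ≠ 0 → ((w z : ℝ≥0) : ℝ) ≠ 0 := fun z hz =>
    NNReal.coe_ne_zero.mpr ((Valuation.ne_zero_iff w).mpr hz)
  have hne : ∀ x, ∀ y ∈ Λ.erase x, σ x - σ y ≠ 0 := fun x y hy =>
    sub_ne_zero.mpr fun h => Finset.ne_of_mem_erase hy (σ.injective h).symm
  rw [logDisc, Finset.sum_image σ.injective.injOn, Finset.mul_sum, ← nsmul_eq_mul,
    ← Finset.sum_const, ← Finset.sum_add_distrib]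
  simp only [map_prod, map_mul, map_pow, map_sub, hg, NNReal.coe_prod, NNReal.coe_mul,
    NNReal.coe_pow]
  rw [Real.log_prod fun x _ => Finset.prod_ne_zero_iff.mpr fun y hy =>
    mul_ne_zero (hw g hg0) (pow_ne_zero _ (hw _ (hne x y hy)))]
  refine Finset.sum_congr rfl fun x hx => ?_
  rw [Real.log_prod fun y hy => mul_ne_zero (hw g hg0) (pow_ne_zero _ (hw _ (hne x y hy))),
    ← Finset.image_erase σ.injective, Finset.sum_image σ.injective.injOn, Finset.mul_sum,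
    ← Finset.card_erase_of_mem hx, ← nsmul_eq_mul, ← Finset.sum_const, ← Finset.sum_add_distrib]
  refine Finset.sum_congr rfl fun y hy => ?_
  rw [Real.log_mul (hw g hg0) (pow_ne_zero _ (hw _ (hne x y hy))), Real.log_pow]

omit hd in
theorem numerics {d γ B : ℝ} (hd : 2 ≤ d) (hγ : 0 < γ) (hB : 0 ≤ B) (c : ℕ) (hc : 1 ≤ c) :
    ∃ r₀ : ℕ, ∀ r, r₀ ≤ r → B * d ^ r * ((c + r : ℕ) : ℝ) + 1 ≤
      γ * ((d ^ r - 1) / (d * ((c + r : ℕ) : ℝ))) ^ 2 := by
  obtain ⟨r₀, h⟩ := exists_large (4 * d ^ 2 * (B + 1) / γ) c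
  refine ⟨r₀ + 1, fun r hr => ?_⟩
  have h1 := h r (by omega)
  have h2 : (2 : ℝ) ^ r ≤ d ^ r := pow_le_pow_left₀ (by norm_num) hd r
  have h3 : (2 : ℝ) ≤ 2 ^ r := le_self_pow₀ (by norm_num) (by omega)
  have hj : (1 : ℝ) ≤ ((c + r : ℕ) : ℝ) := by exact_mod_cast (by omega : 1 ≤ c + r)
  set x := d ^ r
  set j := ((c + r : ℕ) : ℝ)
  have h4 : 4 * d ^ 2 * (B + 1) * j ^ 3 ≤ γ * x := by
    rw [div_mul_eq_mul_div, div_le_iff₀ hγ] at h1
    nlinarith
  have hx : 2 ≤ x := h3.trans h2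
  have h5 : x / (2 * d * j) ≤ (x - 1) / (d * j) := by
    rw [div_le_div_iff₀ (by positivity) (by positivity)]
    have : 0 < d * j := by positivity
    nlinarith
  calc B * x * j + 1 ≤ B * x * j + x * j := by nlinarith
    _ = (4 * d ^ 2 * (B + 1) * j ^ 3) * x / (2 * d * j) ^ 2 := by field_simp; ring
    _ ≤ (γ * x) * x / (2 * d * j) ^ 2 := by gcongr
    _ = γ * (x / (2 * d * j)) ^ 2 := by field_simp
    _ ≤ _ := by gcongr

theorem full [IsAlgClosed F] (w : Valuation F ℝ≥0) (hk : ∀ c : k, w (algebraMap k F c) ≤ 1)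
    {t : F} (ht : 1 < w t) (halg : ∀ x, AlgOver k t x)
    (hNA : ∃ i, i ≠ 0 ∧ 1 ≤ (hasseDeriv i f).natDegree) {a b : F}
    (h : (coll f t a b).Infinite) {c : F} (hc : ∀ l, w (orb f c t l) ≤ w t) (l : ℕ) :
    w (orb f c a l) ≤ w t := by
  classical
  by_contra hcon
  obtain ⟨ρ₁, ρ₂, h0, j₀, i₀, g1, g2, g3, g4⟩ :=
    exists_gap w hk f ht hd hNA hc ⟨l, not_le.mp hcon⟩
  have htr := transcendental_of_one_lt w hk ht
  obtain ⟨u, hu0, hu⟩ := exists_reg_mul (halg b)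
  obtain ⟨M, hM⟩ : ∃ M, ∀ σ : F ≃ₐ[k] F, σ t = t → w (σ b) ≤ w t ^ M := by
    choose m hm using fun x => arch w hk ht (halg x)
    refine ⟨(finite_orbit htr (halg b)).toFinset.sup m, fun σ hσ => (hm _).trans
      (pow_le_pow_right₀ ht.le (Finset.le_sup (f := m) ?_))⟩
    exact (Set.Finite.mem_toFinset _).mpr ⟨σ, hσ, rfl⟩
  set O := (finite_orbit htr (halg a)).toFinset with hO
  have hτ : ∀ o : F, ∃ τ : F ≃ₐ[k] F, τ t = t ∧ (o ∈ O → τ a = o) := by
    intro o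
    by_cases ho : o ∈ O
    · obtain ⟨τ, h1, h2⟩ := (Set.Finite.mem_toFinset _).mp ho
      exact ⟨τ, h1, fun _ => h2⟩
    · exact ⟨AlgEquiv.refl, rfl, fun h => absurd h ho⟩
  choose τ hτ1 hτ2 using hτ
  set L := Real.log (w t) with hL
  have hL0 : 0 < L := Real.log_pos (by exact_mod_cast ht)
  set γ := Real.log ρ₂ - Real.log ρ₁ with hγ
  have hγ0 : 0 < γ := sub_pos.mpr (Real.log_lt_log (by exact_mod_cast h0) (by exact_mod_cast g1))
  have hdR : (2 : ℝ) ≤ f.natDegree := by exact_mod_cast hd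
  obtain ⟨r₀, hr₀⟩ := numerics hdR hγ0
    (B := O.card * (f.natDegree : ℝ) ^ i₀ * (u.natDegree + 2 + f.natDegree) * L) (by positivity)
    (i₀ + 1) (by omega)
  obtain ⟨r₁, hr₁⟩ := pow_unbounded_of_one_lt ρ₁⁻¹ ht
  obtain ⟨i, hi1, -, hsep⟩ := exists_sep w hk hd ht (i₀ + r₀ + r₁)
  obtain ⟨r, rfl⟩ := Nat.exists_eq_add_of_le (show i₀ ≤ i by omega)
  have hnum := hr₀ r (by omega)
  set D := f.natDegree ^ (i₀ + r) with hD
  set E : ℝ := ((f.natDegree : ℝ) ^ (i₀ + r)) ^ 2 * (f.natDegree * ((i₀ + r : ℕ) + 1)) * L with hE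
  have hE0 : 0 ≤ E := by positivity
  obtain ⟨N, hN⟩ := exists_nat_gt (O.card * E)
  obtain ⟨Λ, hΛ, hcard⟩ :=
    (late_infinite hd h (i₀ + r + j₀ + M + 1)).exists_subset_card_eq N
  have hut : ∀ σ : F ≃ₐ[k] F, σ t = t → σ (aeval t u) = aeval t u := fun σ hσ => by
    conv_rhs => rw [← hσ]
    exact (aeval_algHom_apply (σ : F →ₐ[k] F) t u).symm
  have hwu : w (aeval t u) = w t ^ u.natDegree := v_aeval_eq w hk hu0 ht
  have hu1 : aeval t u ≠ 0 := by
    intro h; rw [h, map_zero] at hwu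
    exact pow_ne_zero _ (zero_lt_one.trans ht).ne' hwu.symm
  set y₀ := ∏ x ∈ Λ, ∏ y ∈ Λ.erase x, aeval t u * (x - y) ^ D with hy₀
  have hy0 : y₀ ≠ 0 := Finset.prod_ne_zero_iff.mpr fun x _ => Finset.prod_ne_zero_iff.mpr
    fun y hy => mul_ne_zero hu1 (pow_ne_zero _ (sub_ne_zero.mpr (Finset.ne_of_mem_erase hy).symm))
  have hlate : ∀ x ∈ Λ, ∃ m, i₀ + r < m ∧ orb f x t m = b := fun x hx => by
    obtain ⟨m, n, h1, -, h3, -⟩ := hΛ hx
    exact ⟨m, by omega, h3⟩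
  have hyreg : Reg k t y₀ := Reg.prod fun x hx => Reg.prod fun y hy =>
    reg_pair hd hu (hlate x hx) (hlate y (Finset.mem_of_mem_erase hy))
  obtain ⟨σ, hσ, hge⟩ := exists_conj_ge w hk ht halg (y := ∏ o ∈ O, τ o y₀)
    (Finset.prod_ne_zero_iff.mpr fun o _ => (_root_.map_ne_zero _).mpr hy0)
    (Reg.prod fun o _ => hyreg.map _ (hτ1 o))
  set ν : ℝ := ((f.natDegree : ℝ) ^ r - 1) / (f.natDegree * ((i₀ + 1 + r : ℕ) : ℝ)) with hν
  set A : ℝ := (f.natDegree : ℝ) ^ (i₀ + r) * (2 + f.natDegree * ((i₀ + r : ℕ) + 1)) * L with hA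
  -- the bound for each conjugate
  have hbdd : ∀ θ : F ≃ₐ[k] F, θ t = t → ∀ x ∈ Λ, w (θ x) = w t ^ f.natDegree ∧
      ∀ l, l ≤ i₀ + r + 1 → w (orb f (θ x) t l) ≤ w t := by
    intro θ hθ x hx
    obtain ⟨m, n, h1, -, h3, -⟩ := hΛ hx
    have e1 : w (orb f (θ x) t m) ≤ w t ^ M := by
      have := map_orb' θ f x t m
      rw [hθ, h3] at this
      rw [← this]; exact hM θ hθ
    have e2 := v_param w hk hd ht e1 (by omega)
    exact ⟨e2, fun l hl => v_deep w hk hd ht e2.le e1 (by omega)⟩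
  have hone : ∀ θ : F ≃ₐ[k] F, θ t = t → ((f.natDegree : ℝ) ^ (i₀ + r)) ^ 2 *
      logDisc w (Λ.image θ) ≤ (N : ℝ) ^ 2 * (A - if θ a = a then γ * ν ^ 2 else 0) + N * E := by
    intro θ hθ
    have hcd : (Λ.image θ).card = N := by
      rw [Finset.card_image_of_injective _ θ.injective, hcard]
    have hb : ∀ x ∈ Λ.image θ, ∀ l, l ≤ i₀ + r + 1 → w (orb f x t l) ≤ w t := by
      intro x hx
      obtain ⟨x, hx', rfl⟩ := Finset.mem_image.mp hx
      exact (hbdd θ hθ x hx').2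
    split_ifs with hθa
    · have := logDisc_le w hk hd ht hsep (Λ.image θ) hb γ ν (Or.inr ⟨c, ρ₁, ρ₂, h0,
        f.natDegree ^ r, g1.le, g2, ?_, rfl, ?_, hc, ?_, ?_, ?_⟩)
      · rw [hcd] at this; exact this
      · rw [inv_le_comm₀ (pow_pos (zero_lt_one.trans ht) _) h0]
        exact hr₁.le.trans (pow_le_pow_right₀ ht.le (by nlinarith))
      · intro x hx
        obtain ⟨x, hx', rfl⟩ := Finset.mem_image.mp hx
        obtain ⟨m, n, -, h2, -, h4⟩ := hΛ hx'
        have e1 : w (orb f (θ x) a n) ≤ w t ^ M := by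
          have := map_orb' θ f x a n
          rw [hθa, h4] at this
          rw [← this]; exact hM θ hθ
        exact g3 _ (v_deep w hk hd ht (hbdd θ hθ x hx').1.le e1 (by omega))
      · have := g4 r
        rwa [show i₀ + 1 + r = i₀ + r + 1 by omega] at this
      · exact div_nonneg (sub_nonneg.mpr (one_le_pow₀ (by linarith))) (by positivity)
      · rw [hν]
        push_cast
        rw [show (i₀ : ℝ) + r + 1 = i₀ + 1 + r by ring, div_mul_cancel₀ _ (by positivity)]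
        linarith
    · have := logDisc_le w hk hd ht hsep (Λ.image θ) hb 0 0 (Or.inl ⟨rfl, rfl⟩)
      rw [hcd, zero_mul] at this
      exact this
  have hσa : σ.symm a ∈ O := (Set.Finite.mem_toFinset _).mpr
    ⟨σ.symm, by rw [AlgEquiv.symm_apply_eq, hσ], rfl⟩
  have hfix : ∀ o, ((τ o).trans σ) t = t := fun o => by
    rw [AlgEquiv.trans_apply, hτ1, hσ]
  have hlog : (0 : ℝ) ≤ ∑ o ∈ O, Real.log (w (((τ o).trans σ) y₀)) := by
    rw [← Real.log_prod fun o _ => NNReal.coe_ne_zero.mpr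
      ((Valuation.ne_zero_iff w).mpr ((_root_.map_ne_zero _).mpr hy0))]
    refine Real.log_nonneg ?_
    rw [map_prod, map_prod] at hge
    exact_mod_cast hge
  have hDR : (0 : ℝ) < (f.natDegree : ℝ) ^ (i₀ + r) := by positivity
  have hN0 : (0 : ℝ) < N := lt_of_le_of_lt (by positivity) hN
  have hterm : ∀ o ∈ O, (f.natDegree : ℝ) ^ (i₀ + r) * Real.log (w (((τ o).trans σ) y₀)) ≤
      ((N : ℝ) ^ 2 * ((f.natDegree : ℝ) ^ (i₀ + r) * u.natDegree * L + A) + N * E) -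
        if o = σ.symm a then (N : ℝ) ^ 2 * (γ * ν ^ 2) else 0 := by
    intro o ho
    have e1 := hone _ (hfix o)
    have e2 : (if o = σ.symm a then (N : ℝ) ^ 2 * (γ * ν ^ 2) else 0) ≤
        (N : ℝ) ^ 2 * if ((τ o).trans σ) a = a then γ * ν ^ 2 else 0 := by
      by_cases h : o = σ.symm a
      · rw [if_pos h, if_pos (by rw [AlgEquiv.trans_apply, hτ2 o ho, h]; simp)]
      · rw [if_neg h]
        split_ifs <;> positivity
    rw [hy₀, log_w_prod w _ (hut _ (hfix o)) hu1, hwu, hcard, NNReal.coe_pow, Real.log_pow, hD]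
    have e3 : ((N - 1 : ℕ) : ℝ) ≤ N := by exact_mod_cast Nat.sub_le N 1
    have e4 : (f.natDegree : ℝ) ^ (i₀ + r) * (N * (((N - 1 : ℕ) : ℝ) * (u.natDegree * L))) ≤
        (f.natDegree : ℝ) ^ (i₀ + r) * (N * (N * (u.natDegree * L))) := by gcongr
    push_cast
    nlinarith
  have hsum := Finset.sum_le_sum hterm
  rw [← Finset.mul_sum, Finset.sum_sub_distrib, Finset.sum_ite_eq' O, if_pos hσa,
    Finset.sum_const, nsmul_eq_mul] at hsum
  have hpos := (mul_nonneg hDR.le hlog).trans hsum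
  have hcmp : (O.card : ℝ) * ((f.natDegree : ℝ) ^ (i₀ + r) * u.natDegree * L + A) + 1 ≤
      γ * ν ^ 2 := by
    refine le_trans ?_ hnum
    have hj : (1 : ℝ) ≤ ((i₀ + 1 + r : ℕ) : ℝ) := by exact_mod_cast (by omega : 1 ≤ i₀ + 1 + r)
    have hj2 : ((i₀ + r : ℕ) : ℝ) + 1 = ((i₀ + 1 + r : ℕ) : ℝ) := by push_cast; ring
    rw [hA, hj2, pow_add]
    set j := ((i₀ + 1 + r : ℕ) : ℝ)
    have e5 : (u.natDegree : ℝ) + (2 + f.natDegree * j) ≤ (u.natDegree + 2 + f.natDegree) * j := by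
      have : (0 : ℝ) ≤ u.natDegree := by positivity
      nlinarith
    calc (O.card : ℝ) * ((f.natDegree : ℝ) ^ i₀ * (f.natDegree : ℝ) ^ r * u.natDegree * L +
          (f.natDegree : ℝ) ^ i₀ * (f.natDegree : ℝ) ^ r * (2 + f.natDegree * j) * L) + 1
        = O.card * (f.natDegree : ℝ) ^ i₀ * (f.natDegree : ℝ) ^ r * L *
            (u.natDegree + (2 + f.natDegree * j)) + 1 := by ring
      _ ≤ O.card * (f.natDegree : ℝ) ^ i₀ * (f.natDegree : ℝ) ^ r * L *
            ((u.natDegree + 2 + f.natDegree) * j) + 1 := by gcongr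
      _ = _ := by ring
  have e6 : (N : ℝ) ^ 2 * ((O.card : ℝ) *
      ((f.natDegree : ℝ) ^ (i₀ + r) * u.natDegree * L + A) + 1) ≤ (N : ℝ) ^ 2 * (γ * ν ^ 2) := by
    gcongr
  have e7 : (N : ℝ) * (O.card * E) < N * N := by gcongr
  nlinarith

end Pool.Agent.Lib.MP_a5410e_nt
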