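import Pool.Agent.Lib.MP_a5410e_nt.Basic

/-!
Gauss norms and the growth function of `f` on the circle of radius `w t`.
-/

set_option autoImplicit false

open Polynomial NNReal

namespace Pool.Agent.Lib.MP_a5410e_nt

section gauss

variable {F : Type*} [Field F] (w : Valuation F ℝ≥0)

/-- The absolute value attached to a valuation with values in the nonnegative reals. -/
noncomputable def absOf : AbsoluteValue F ℝ where
  toFun x := w x
  map_mul' x y := by simp
  nonneg' x := (w x).2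
  eq_zero' x := by simp
  add_le' x y := by
    have h : w (x + y) ≤ w x + w y :=
      (w.map_add x y).trans (max_le le_self_add le_add_self)
    exact_mod_cast h

theorem absOf_apply (x : F) : absOf w x = (w x : ℝ) := rfl

theorem absOf_na : IsNonarchimedean (absOf w) := by
  intro x y
  have h := w.map_add x y
  simp only [absOf_apply]
  exact_mod_cast h

/-- The Gauss norm of radius `r`. -/
noncomputable def gn (r : ℝ≥0) (P : F[X]) : ℝ≥0 :=
  ⟨gaussNorm (absOf w) r P, gaussNorm_nonneg _ _ r.2⟩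

theorem coe_gn (r : ℝ≥0) (P : F[X]) : (gn w r P : ℝ) = gaussNorm (absOf w) r P := rfl

theorem coeff_le_gn (r : ℝ≥0) (P : F[X]) (i : ℕ) : w (P.coeff i) * r ^ i ≤ gn w r P := by
  have h := le_gaussNorm (absOf w) P r.2 i
  rw [← NNReal.coe_le_coe, coe_gn]
  simpa [absOf_apply] using h

theorem exists_eq_gn (r : ℝ≥0) (P : F[X]) : ∃ i, gn w r P = w (P.coeff i) * r ^ i := by
  obtain ⟨i, hi⟩ := exists_eq_gaussNorm (absOf w) r P
  refine ⟨i, NNReal.coe_injective ?_⟩
  simpa [absOf_apply, coe_gn] using hi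

theorem gn_le {r s : ℝ≥0} {P : F[X]} (h : ∀ i, w (P.coeff i) * r ^ i ≤ s) : gn w r P ≤ s := by
  obtain ⟨i, hi⟩ := exists_eq_gn w r P
  rw [hi]; exact h i

theorem eval_le_gn {r : ℝ≥0} (P : F[X]) {x : F} (hx : w x ≤ r) : w (P.eval x) ≤ gn w r P := by
  rw [eval_eq_sum_range]
  refine w.map_sum_le fun i _ => ?_
  rw [map_mul, map_pow]
  exact le_trans (by gcongr) (coeff_le_gn w r P i)

theorem gn_mono {r s : ℝ≥0} (h : r ≤ s) (P : F[X]) : gn w r P ≤ gn w s P :=
  gn_le w fun i => le_trans (by gcongr) (coeff_le_gn w s P i)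

/-- The Gauss norm as a valuation on the polynomial ring. -/
noncomputable def gv (r : ℝ≥0) (hr : 0 < r) : Valuation F[X] ℝ≥0 where
  toFun P := gn w r P
  map_zero' := NNReal.coe_injective (by simp [coe_gn])
  map_one' := NNReal.coe_injective (by
    rw [coe_gn, ← C_1, Polynomial.gaussNorm_C]; simp)
  map_mul' P Q := NNReal.coe_injective (by
    rw [NNReal.coe_mul, coe_gn, coe_gn, coe_gn]
    exact gaussNorm_mul (absOf_na w) (by exact_mod_cast hr) P Q)
  map_add_le_max' P Q := by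
    have h := isNonarchimedean_gaussNorm (absOf w) (absOf_na w) r.2 P Q
    rw [← NNReal.coe_le_coe, NNReal.coe_max]
    exact h

variable {r : ℝ≥0} (hr : 0 < r)

theorem gv_apply (P : F[X]) : gv w r hr P = gn w r P := rfl

theorem gv_C (a : F) : gv w r hr (C a) = w a :=
  NNReal.coe_injective (by rw [gv_apply, coe_gn, Polynomial.gaussNorm_C]; rfl)

theorem gv_X : gv w r hr X = r :=
  NNReal.coe_injective (by
    rw [gv_apply, coe_gn, ← monomial_one_one_eq_X, Polynomial.gaussNorm_monomial]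
    simp)

theorem gv_const {k : Type*} [Field k] [Algebra k F] (hk : ∀ c : k, w (algebraMap k F c) ≤ 1)
    (c : k) : gv w r hr (algebraMap k F[X] c) ≤ 1 := by
  rw [Polynomial.algebraMap_apply, gv_C]; exact hk c

theorem gv_sub_C {H : F[X]} (h0 : H.coeff 0 = 0) (γ : F) :
    gv w r hr (H - C γ) = max (gv w r hr H) (w γ) := by
  refine le_antisymm ((gv w r hr).map_sub _ _ |>.trans (by rw [gv_C])) (max_le ?_ ?_)
  · refine gn_le w fun i => ?_
    rcases Nat.eq_zero_or_pos i with rfl | hi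
    · simp [h0]
    · have := coeff_le_gn w r (H - C γ) i
      rwa [coeff_sub, coeff_C_of_ne_zero (by omega), sub_zero] at this
  · have := coeff_le_gn w r (H - C γ) 0
    simpa [h0, gv_apply] using this

theorem gv_comp [IsAlgClosed F] (A : F[X]) {H : F[X]} (h0 : H.coeff 0 = 0) (a : F) :
    gv w r hr (A.comp (H + C a)) =
      w A.leadingCoeff * (A.roots.map fun γ => max (gv w r hr H) (w (γ - a))).prod := by
  conv_lhs => rw [(IsAlgClosed.splits A).eq_prod_roots]
  rw [mul_comp, C_comp, map_mul, gv_C, multiset_prod_comp, map_multiset_prod, Multiset.map_map,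
    Multiset.map_map]
  congr 2
  refine Multiset.map_congr rfl fun γ _ => ?_
  simp only [Function.comp, sub_comp, X_comp, C_comp]
  rw [← gv_sub_C w hr h0, map_sub C]
  congr 1
  ring

include hr in
theorem gn_eq_prod [IsAlgClosed F] (A : F[X]) :
    gn w r A = w A.leadingCoeff * (A.roots.map fun γ => max r (w γ)).prod := by
  have := gv_comp w hr A (H := X) (by simp) 0
  rw [gv_X] at this
  simpa [gv_apply] using this

theorem gv_comp_eq_gn [IsAlgClosed F] (A : F[X]) {H : F[X]} (h0 : H.coeff 0 = 0)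
    (hH : 0 < gv w r hr H) : gv w r hr (A.comp H) = gn w (gv w r hr H) A := by
  have := gv_comp w hr A h0 0
  rw [gn_eq_prod w hH]
  simpa using this

end gauss

section psi

variable {k F : Type*} [Field k] [Field F] [Algebra k F]

/-- The polynomial `h ↦ f(z + h) - f(z)`. -/
noncomputable def dp (f : k[X]) (z : F) : F[X] :=
  taylor z (f.map (algebraMap k F)) - C (aeval z f)

theorem hasseDeriv_map' (f : k[X]) (i : ℕ) :
    hasseDeriv i (f.map (algebraMap k F)) = (hasseDeriv i f).map (algebraMap k F) := by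
  ext n
  simp [hasseDeriv_coeff]

theorem dp_coeff_zero (f : k[X]) (z : F) : (dp f z).coeff 0 = 0 := by
  simp [dp, eval_map_algebraMap]

theorem dp_coeff (f : k[X]) (z : F) {i : ℕ} (hi : i ≠ 0) :
    (dp f z).coeff i = aeval z (hasseDeriv i f) := by
  rw [dp, coeff_sub, coeff_C_of_ne_zero hi, sub_zero, taylor_coeff, hasseDeriv_map',
    eval_map_algebraMap]

theorem dp_eval (f : k[X]) (z h : F) : (dp f z).eval h = aeval (z + h) f - aeval z f := by
  rw [dp, eval_sub, eval_C, taylor_eval, eval_map_algebraMap, add_comm]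

theorem dp_comp (f : k[X]) (z : F) (H : F[X]) :
    (dp f z).comp H = aeval (H + C z) f - C (aeval z f) := by
  rw [dp, sub_comp, C_comp, taylor_apply, comp_assoc, aeval_poly]
  simp

variable (w : Valuation F ℝ≥0) (hk : ∀ c : k, w (algebraMap k F c) ≤ 1)
variable (f : k[X]) (t : F)

/-- The growth function. -/
noncomputable def psi (r : ℝ≥0) : ℝ≥0 := gn w r (dp f t)

theorem psi_mono : Monotone (psi w f t) := fun _ _ h => gn_mono w h _

theorem psi_ratio {r s : ℝ≥0} (h : r ≤ s) : psi w f t r * s ≤ psi w f t s * r := by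
  obtain ⟨i, hi⟩ := exists_eq_gn w r (dp f t)
  unfold psi
  rw [hi]
  rcases i with _ | i
  · simp [dp_coeff_zero]
  · calc w ((dp f t).coeff (i + 1)) * r ^ (i + 1) * s
        = w ((dp f t).coeff (i + 1)) * (r ^ i * s) * r := by ring
      _ ≤ w ((dp f t).coeff (i + 1)) * (s ^ i * s) * r := by gcongr
      _ ≤ _ := by
        rw [← pow_succ]
        gcongr
        exact coeff_le_gn w s _ _

variable {t} (ht : 1 < w t)
include hk ht

theorem gn_dp_le {z : F} (hz : w z ≤ w t) (r : ℝ≥0) : gn w r (dp f z) ≤ psi w f t r := by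
  refine gn_le w fun i => le_trans ?_ (coeff_le_gn w r (dp f t) i)
  rcases Nat.eq_zero_or_pos i with rfl | hi
  · simp [dp_coeff_zero]
  · rw [dp_coeff _ _ hi.ne', dp_coeff _ _ hi.ne']
    gcongr
    by_cases hg : hasseDeriv i f = 0
    · simp [hg]
    · rw [v_aeval_eq w hk hg ht]
      exact v_aeval_le w hk _ hz ht.le

theorem gn_dp_eq {z : F} (hz : w z = w t) (r : ℝ≥0) : gn w r (dp f z) = psi w f t r :=
  le_antisymm (gn_dp_le w hk f ht hz.le r) (gn_dp_le w hk f (hz ▸ ht) hz.ge r)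

theorem one_lt_psi_one (hNA : ∃ i, i ≠ 0 ∧ 1 ≤ (hasseDeriv i f).natDegree) :
    1 < psi w f t 1 := by
  obtain ⟨i, hi, hi1⟩ := hNA
  have hg : hasseDeriv i f ≠ 0 := by
    intro h; rw [h] at hi1; simp at hi1
  have h := coeff_le_gn w 1 (dp f t) i
  rw [one_pow, mul_one, dp_coeff _ _ hi, v_aeval_eq w hk hg ht] at h
  exact (one_lt_pow₀ ht (by omega)).trans_le h

omit hk ht in
theorem exists_psi_eq [IsAlgClosed F] {r : ℝ≥0} (hr : 0 < r) (h : r < psi w f t r) :
    ∃ s, 0 < s ∧ s < r ∧ psi w f t s = r := by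
  set g : ℝ≥0 → ℝ≥0 := fun s =>
    w (dp f t).leadingCoeff * ((dp f t).roots.map fun γ => max s (w γ)).prod with hg
  have hcont : Continuous g := by
    refine continuous_const.mul (continuous_multiset_prod _ fun γ _ => ?_)
    exact continuous_id.max continuous_const
  have hgp : ∀ s, 0 < s → g s = psi w f t s := fun s hs => (gn_eq_prod w hs _).symm
  have hne : dp f t ≠ 0 := by
    intro h0
    have : psi w f t r = 0 := by
      unfold psi; rw [h0]; exact (gv w r hr).map_zero
    rw [this] at h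
    exact absurd h (not_lt.mpr zero_le)
  have hg0 : g 0 = 0 := by
    have : (0 : F) ∈ (dp f t).roots := by
      rw [mem_roots hne, IsRoot, ← coeff_zero_eq_eval_zero, dp_coeff_zero]
    refine mul_eq_zero_of_right _ (Multiset.prod_eq_zero ?_)
    exact Multiset.mem_map.mpr ⟨0, this, by simp⟩
  obtain ⟨s, hs, hs2⟩ := intermediate_value_Icc hr.le hcont.continuousOn
    (show r ∈ Set.Icc (g 0) (g r) from ⟨by rw [hg0]; exact zero_le, by rw [hgp r hr]; exact h.le⟩)
  have hs0 : 0 < s := by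
    rcases eq_or_lt_of_le hs.1 with h0 | h0
    · rw [← h0, hg0] at hs2; exact absurd hs2 hr.ne
    · exact h0
  refine ⟨s, hs0, lt_of_le_of_ne hs.2 ?_, by rw [← hgp s hs0, hs2]⟩
  rintro rfl
  rw [hgp s hs0] at hs2
  exact absurd hs2 h.ne'

theorem exists_radius [IsAlgClosed F] (hNA : ∃ i, i ≠ 0 ∧ 1 ≤ (hasseDeriv i f).natDegree)
    (n : ℕ) : ∃ ρ, 0 < ρ ∧ ρ ≤ 1 ∧ ρ < psi w f t ρ ∧ (psi w f t)^[n] ρ = 1 := by
  induction n with
  | zero => exact ⟨1, one_pos, le_rfl, one_lt_psi_one w hk f ht hNA, rfl⟩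
  | succ n ih =>
    obtain ⟨ρ, h0, h1, h2, h3⟩ := ih
    obtain ⟨s, s0, s1, s2⟩ := exists_psi_eq w f h0 h2
    exact ⟨s, s0, s1.le.trans h1, by rwa [s2], by rw [Function.iterate_succ_apply, s2, h3]⟩

omit hk ht in
theorem psi_iter_mono {ρ : ℝ≥0} (h : ρ ≤ psi w f t ρ) : Monotone fun n => (psi w f t)^[n] ρ :=
  (psi_mono w f t).monotone_iterate_of_le_map h

omit hk ht in
theorem psi_iter_unbounded {ρ : ℝ≥0} (h0 : 0 < ρ) (h : ρ < psi w f t ρ) (R : ℝ≥0) :
    ∃ n, R < (psi w f t)^[n] ρ := by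
  set θ := psi w f t ρ / ρ with hθ
  have hθ1 : 1 < θ := by rw [hθ, lt_div_iff₀ h0, one_mul]; exact h
  have key : ∀ n, θ ^ n * ρ ≤ (psi w f t)^[n] ρ := by
    intro n
    induction n with
    | zero => simp
    | succ n ih =>
      rw [Function.iterate_succ_apply']
      have hle : ρ ≤ (psi w f t)^[n] ρ := psi_iter_mono w f h.le (Nat.zero_le n)
      have h2 := psi_ratio w f t hle
      have h3 : θ * (psi w f t)^[n] ρ ≤ psi w f t ((psi w f t)^[n] ρ) := by
        rw [hθ, div_mul_eq_mul_div, div_le_iff₀ h0]; exact h2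
      calc θ ^ (n + 1) * ρ = θ * (θ ^ n * ρ) := by ring
        _ ≤ θ * (psi w f t)^[n] ρ := by gcongr
        _ ≤ _ := h3
  obtain ⟨n, hn⟩ := pow_unbounded_of_one_lt (R / ρ) hθ1
  exact ⟨n, lt_of_lt_of_le (by rwa [div_lt_iff₀ h0] at hn) (key n)⟩

/-- Upper bound for the displacement of an orbit that stays in the disc of radius `w t`. -/
theorem displacement_le {ρ : ℝ≥0} (hρ : ρ ≤ psi w f t ρ) {c u a : F} (hu : w u ≤ ρ) (l : ℕ)
    (hl : ∀ j, j ≤ l → w (orb f c a j) ≤ w t) :
    w (orb f (c + u) a (l + 1) - orb f c a (l + 1)) ≤ (psi w f t)^[l] ρ := by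
  induction l with
  | zero => simpa [orb_succ] using hu
  | succ l ih =>
    have h1 := ih fun j hj => hl j (by omega)
    have h2 : orb f (c + u) a (l + 1 + 1) - orb f c a (l + 1 + 1) =
        (dp f (orb f c a (l + 1))).eval (orb f (c + u) a (l + 1) - orb f c a (l + 1)) + u := by
      rw [dp_eval, orb_succ f (c + u) a (l + 1), orb_succ f c a (l + 1), add_sub_cancel]; ring
    rw [h2]
    refine w.map_add_le ?_ (hu.trans (psi_iter_mono w f hρ (Nat.zero_le _)))
    rw [Function.iterate_succ_apply']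
    exact (eval_le_gn w _ h1).trans (gn_dp_le w hk f ht (hl _ le_rfl) _)

/-- Exact Gauss norm of the displacement of an orbit on the circle of radius `w t`. -/
theorem displacement_eq [IsAlgClosed F] {ρ : ℝ≥0} (h0 : 0 < ρ) (hρ : ρ < psi w f t ρ) {c : F}
    (hc : ∀ j, w (orb f c t j) = w t) (l : ℕ) :
    gv w ρ h0 (orb f (X + C c) (C t) (l + 1) - C (orb f c t (l + 1))) = (psi w f t)^[l] ρ := by
  have hev : ∀ l, (orb f (X + C c) (C t) l - C (orb f c t l) : F[X]).coeff 0 = 0 := by
    intro l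
    have := map_orb ((aeval (0 : F) : F[X] →ₐ[F] F).restrictScalars k) f (X + C c) (C t) l
    rw [coeff_zero_eq_eval_zero, eval_sub, eval_C, sub_eq_zero]
    simpa [coe_aeval_eq_eval] using this
  induction l with
  | zero =>
    have : orb f (X + C c) (C t) (0 + 1) - C (orb f c t (0 + 1)) = (X : F[X]) := by
      rw [orb_succ, orb_succ, orb_zero, orb_zero, aeval_C_poly, map_add]; ring
    rw [this, gv_X]; rfl
  | succ l ih =>
    set H := orb f (X + C c) (C t) (l + 1) - C (orb f c t (l + 1)) with hH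
    have h2 : orb f (X + C c) (C t) (l + 1 + 1) - C (orb f c t (l + 1 + 1)) =
        (dp f (orb f c t (l + 1))).comp H + X := by
      rw [dp_comp, hH, sub_add_cancel, orb_succ f (X + C c) (C t) (l + 1),
        orb_succ f c t (l + 1), map_add]
      ring
    have hle : ρ ≤ (psi w f t)^[l] ρ := psi_iter_mono w f hρ.le (Nat.zero_le l)
    have h3 : gv w ρ h0 ((dp f (orb f c t (l + 1))).comp H) = (psi w f t)^[l + 1] ρ := by
      rw [gv_comp_eq_gn w h0 _ (hev _) (by rw [ih]; exact h0.trans_le hle), ih,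
        gn_dp_eq w hk f ht (hc _), Function.iterate_succ_apply']
    rw [h2, (gv w ρ h0).map_add_eq_of_lt_left, h3]
    rw [h3, gv_X, Function.iterate_succ_apply']
    exact hρ.trans_le (psi_mono w f t hle)

/-- If the orbit of `t` is bounded and the orbit of `a` is not, there is an annulus around the
parameter whose outer disc misses all parameters that keep `a` bounded for a while, and on whose
inner disc the orbit of `t` escapes. -/
theorem exists_gap [IsAlgClosed F] (hd : 2 ≤ f.natDegree)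
    (hNA : ∃ i, i ≠ 0 ∧ 1 ≤ (hasseDeriv i f).natDegree) {c a : F}
    (hc : ∀ l, w (orb f c t l) ≤ w t) (ha : ∃ l, w t < w (orb f c a l)) :
    ∃ (ρ₁ ρ₂ : ℝ≥0) (h0 : 0 < ρ₁) (j₀ i₀ : ℕ), ρ₁ < ρ₂ ∧ ρ₁ ≤ 1 ∧
      (∀ c', w (orb f c' a j₀) ≤ w t → ρ₂ < w (c' - c)) ∧
      ∀ r, w t ^ (f.natDegree ^ r) ≤
        gv w ρ₁ h0 (orb f (X + C c) (C t) (i₀ + 1 + r) - C t) := by
  classical
  set j₀ := Nat.find ha with hj₀
  have hj1 : w t < w (orb f c a j₀) := Nat.find_spec ha
  have hj2 : ∀ l, l < j₀ → w (orb f c a l) ≤ w t := fun l hl => not_lt.mp (Nat.find_min ha hl)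
  obtain ⟨ρ₂, p0, p1, p2, p3⟩ := exists_radius w hk f ht hNA j₀
  obtain ⟨ρ₁, q0, q1, q2⟩ := exists_psi_eq w f p0 p2
  have q3 : ρ₁ < psi w f t ρ₁ := by rwa [q2]
  obtain ⟨i₀, hi₀⟩ := psi_iter_unbounded w f q0 q3 (w t)
  refine ⟨ρ₁, ρ₂, q0, j₀, i₀, q1, q1.le.trans p1, ?_, ?_⟩
  · intro c' hc'
    by_contra hcon
    push Not at hcon
    rcases Nat.eq_zero_or_pos j₀ with h | h
    · rw [h] at hj1 hc'
      exact absurd hc' (not_le.mpr hj1)
    · obtain ⟨l, hl⟩ := Nat.exists_eq_add_of_le' h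
      have h1 := displacement_le w hk f ht p2.le (c := c) (a := a) hcon l
        fun j hj => hj2 j (by omega)
      rw [add_sub_cancel, ← hl] at h1
      have h2 : (psi w f t)^[l] ρ₂ ≤ 1 := p3 ▸ psi_iter_mono w f p2.le (show l ≤ j₀ by omega)
      have h3 : w (orb f c a j₀) ≤ w t := by
        have : orb f c a j₀ = orb f c' a j₀ - (orb f c' a j₀ - orb f c a j₀) := by ring
        rw [this]
        exact w.map_sub_le hc' (h1.trans (h2.trans ht.le))
      exact absurd h3 (not_le.mpr hj1)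
  · intro r
    have hce := v_eq_of_bounded w hk hd ht hc
    have h1 := displacement_eq w hk f ht q0 q3 hce i₀
    set Z := orb f (X + C c) (C t) (i₀ + 1) with hZ
    have h2 : w t < gv w ρ₁ q0 Z := by
      have : Z = (Z - C (orb f c t (i₀ + 1))) + C (orb f c t (i₀ + 1)) := by ring
      rw [this, (gv w ρ₁ q0).map_add_eq_of_lt_left, h1]
      · exact hi₀
      · rw [h1, gv_C, hce]; exact hi₀
    have h3 : gv w ρ₁ q0 (X + C c) < gv w ρ₁ q0 Z ^ f.natDegree := by
      refine lt_of_le_of_lt ((gv w ρ₁ q0).map_add_le ?_ ?_)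
        (pow_lt_pow_left₀ h2 zero_le (by omega))
      · rw [gv_X]; exact (q1.le.trans p1).trans (one_le_pow₀ ht.le)
      · rw [gv_C, v_param_of_bounded w hk hd ht hc]
    have h4 := v_escape (gv w ρ₁ q0) (gv_const w q0 hk) hd (ht.trans h2) h3 r
    have hpos : 1 ≤ f.natDegree ^ r := Nat.one_le_pow _ _ (by omega)
    rw [orb_add, ← hZ, (gv w ρ₁ q0).map_sub_eq_of_lt_left, h4]
    · exact pow_le_pow_left₀ zero_le h2.le _
    · rw [h4, gv_C]
      exact h2.trans_le (le_self_pow₀ (ht.trans h2).le (by omega))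

end psi

end Pool.Agent.Lib.MP_a5410e_nt
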