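import Pool.Agent.Lib.MP_a5410e_nt.Rec

/-!
If every parameter with a bounded orbit of `t` has a bounded orbit of `a`, then `f t = f a`.
-/

set_option autoImplicit false

open Polynomial NNReal

namespace Pool.Agent.Lib.MP_a5410e_nt

theorem unity_not_closed {k : Type*} [Field k] [IsAlgClosed k] (p : ℕ) [Fact p.Prime] [CharP k p]
    {d : ℕ} (hd : d ≠ 0) {a : k} (ha : a ≠ 0) (h : ∀ ζ : k, ζ ^ d = 1 → (1 + a * ζ) ^ d = 1) :
    False := by
  classical
  obtain ⟨e, m, hm, rfl⟩ := Nat.exists_eq_pow_mul_and_not_dvd hd p (Fact.out : p.Prime).ne_one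
  have hm0 : 0 < m := Nat.pos_of_ne_zero (by rintro rfl; simp at hm)
  have : NeZero (m : k) := ⟨fun h0 => hm ((CharP.cast_eq_zero_iff k p m).mp h0)⟩
  have : NeZero m := ⟨hm0.ne'⟩
  have : ExpChar k p := ExpChar.prime Fact.out
  simp only [ExpChar.pow_prime_pow_mul_eq_one_iff] at h
  obtain ⟨ω, hω⟩ := HasEnoughRootsOfUnity.exists_primitiveRoot k m
  have h0 : (0 : k) ∉ nthRootsFinset m (1 : k) := by
    rw [mem_nthRootsFinset hm0, zero_pow hm0.ne']; exact zero_ne_one
  have hz : ((1 + C a * X) ^ m - 1 : k[X]) = 0 := by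
    refine eq_zero_of_natDegree_lt_card_of_eval_eq_zero' _ (insert 0 (nthRootsFinset m (1 : k)))
      (fun z hz => ?_) ?_
    · rcases Finset.mem_insert.mp hz with rfl | hz
      · simp
      · simp [h z ((mem_nthRootsFinset hm0 1).mp hz)]
    · rw [Finset.card_insert_of_notMem h0, hω.card_nthRootsFinset]
      refine Nat.lt_succ_of_le ?_
      have h1 : (1 + C a * X : k[X]).natDegree ≤ 1 := by compute_degree
      refine (natDegree_sub_le _ _).trans (max_le ?_ (by simp))
      exact natDegree_pow_le.trans (by nlinarith)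
  have := congrArg (eval (-a⁻¹)) hz
  simp [mul_inv_cancel₀ ha, zero_pow hm0.ne'] at this

variable {k F : Type*} [Field k] [Field F] [Algebra k F] (w : Valuation F ℝ≥0)
variable (hk : ∀ c : k, w (algebraMap k F c) ≤ 1) {f : k[X]} (hd : 2 ≤ f.natDegree)
variable {t : F} (ht : 1 < w t)
include hk hd ht

theorem root_bounded {i : ℕ} {z : F} (hz : (zp f t (i + 1) - C t).IsRoot z) (l : ℕ) :
    w (orb f z t l) ≤ w t :=
  v_periodic w hk hd ht (i := i + 1) (by omega)
    (by simpa [IsRoot, eval_zp, sub_eq_zero] using hz) l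

omit ht in
theorem exists_digits {s : ℕ} (hs : f.natDegree = s + 1) (h1 : 1 ≤ w t) (i : ℕ) :
    ∀ E, E < f.natDegree ^ i → ∃ M : F[X], M.natDegree = E ∧ w M.leadingCoeff = 1 ∧
      ∀ c, (∀ l, w (orb f c t l) ≤ w t) → w (M.eval c) ≤ w t ^ (s * i) := by
  induction i with
  | zero =>
    intro E hE
    exact ⟨1, by simp at hE; simp [hE], by simp, fun c _ => by simp⟩
  | succ i ih =>
    intro E hE
    have hpos : 0 < f.natDegree ^ i := by positivity
    obtain ⟨M, m1, m2, m3⟩ := ih (E % f.natDegree ^ i) (Nat.mod_lt _ hpos)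
    obtain ⟨y1, -, y3⟩ := zp_data w hk hd t i
    have hq : E / f.natDegree ^ i ≤ s := by
      rw [← Nat.lt_succ_iff, Nat.div_lt_iff_lt_mul hpos]
      rw [pow_succ', hs] at hE
      rwa [hs]
    have hM : M ≠ 0 := by rintro rfl; simp at m2
    have hZ : zp f t (i + 1) ≠ 0 := by intro h; rw [h] at y3; simp at y3
    refine ⟨M * zp f t (i + 1) ^ (E / f.natDegree ^ i), ?_, ?_, fun c hc => ?_⟩
    · rw [natDegree_mul hM (pow_ne_zero _ hZ), natDegree_pow, m1, y1, mul_comm, Nat.mod_add_div]
    · rw [leadingCoeff_mul, leadingCoeff_pow, map_mul, map_pow, m2, y3, one_pow, mul_one]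
    · rw [eval_mul, eval_pow, map_mul, map_pow, eval_zp, mul_add, mul_one, pow_add]
      exact mul_le_mul' (m3 c hc)
        ((pow_le_pow_left₀ zero_le (hc _) _).trans (pow_le_pow_right₀ h1 hq))

theorem small_disp {s : ℕ} (hs : f.natDegree = s + 1) (h1 : 1 ≤ f.derivative.natDegree)
    (hH : ∀ i u, 1 ≤ i → i + u = s + 1 →
      s * (hasseDeriv i f).natDegree ≤ u * f.derivative.natDegree)
    {c : F} (hc : ∀ l, w (orb f c t l) ≤ w t) (l : ℕ) :
    w (orb f c t l - t) ^ s ≤ w t ^ f.derivative.natDegree := by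
  by_contra hcon
  push Not at hcon
  set h := orb f c t l - t with hh
  have h2 : w (aeval (t + h) f - aeval t f) ≤ w t := by
    have : aeval (t + h) f - aeval t f = orb f c t (l + 1) - orb f c t 1 := by
      rw [orb_succ, orb_succ, orb_zero, hh, add_sub_cancel]; ring
    rw [this]
    exact (w.map_sub _ _).trans (max_le (hc _) (hc _))
  have hh0 : 0 < w h := by
    rcases eq_zero_or_pos (w h) with h0 | h0
    · rw [h0, zero_pow (by omega)] at hcon; simp at hcon
    · exact h0
  have hmem : f.natDegree ∈ Finset.Icc 1 f.natDegree := Finset.mem_Icc.mpr ⟨by omega, le_rfl⟩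
  have h3 : w (aeval t (hasseDeriv f.natDegree f) * h ^ f.natDegree) = w h ^ f.natDegree := by
    rw [hasseDeriv_natDegree_eq_C, aeval_C, map_mul, map_pow,
      v_const w hk (leadingCoeff_ne_zero.mpr (ne_zero_of_two_le hd)), one_mul]
  rw [taylor_sum, ← Finset.add_sum_erase _ _ hmem, w.map_add_eq_of_lt_left, h3] at h2
  · have h4 : (w h ^ f.natDegree) ^ s ≤ w t ^ s := pow_le_pow_left₀ zero_le h2 _
    have h5 : (w t ^ f.derivative.natDegree) ^ f.natDegree < (w h ^ s) ^ f.natDegree :=
      pow_lt_pow_left₀ hcon zero_le (by omega)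
    rw [← pow_mul (w h), mul_comm s, pow_mul (w h), ← pow_mul (w t)] at h5
    exact absurd (h5.trans_le h4) (not_lt.mpr (pow_le_pow_right₀ ht.le (by nlinarith)))
  · rw [h3]
    refine w.map_sum_lt (pow_pos hh0 _).ne' fun i hi => ?_
    have hi1 := Finset.ne_of_mem_erase hi
    obtain ⟨hi2, hi3⟩ := Finset.mem_Icc.mp (Finset.mem_of_mem_erase hi)
    obtain ⟨u, hu⟩ := Nat.exists_eq_add_of_le hi3
    have h6 : w t ^ (hasseDeriv i f).natDegree < w h ^ u := by
      refine lt_of_pow_lt_pow_left₀ s zero_le ?_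
      calc (w t ^ (hasseDeriv i f).natDegree) ^ s = w t ^ (s * (hasseDeriv i f).natDegree) := by
            rw [← pow_mul, mul_comm]
        _ ≤ w t ^ (u * f.derivative.natDegree) :=
            pow_le_pow_right₀ ht.le (hH i u hi2 (by omega))
        _ = (w t ^ f.derivative.natDegree) ^ u := by rw [← pow_mul, mul_comm]
        _ < (w h ^ s) ^ u := pow_lt_pow_left₀ hcon zero_le (by omega)
        _ = _ := by rw [← pow_mul, ← pow_mul, mul_comm]
    rw [map_mul, map_pow]
    calc w (aeval t (hasseDeriv i f)) * w h ^ i < w h ^ u * w h ^ i :=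
          mul_lt_mul_of_pos_right ((v_aeval_le w hk _ le_rfl ht.le).trans_lt h6) (pow_pos hh0 _)
      _ = _ := by rw [← pow_add, add_comm, ← hu]

theorem exists_mult {s : ℕ} (hs : f.natDegree = s + 1) (h1 : 1 ≤ f.derivative.natDegree)
    (hH : ∀ i u, 1 ≤ i → i + u = s + 1 →
      s * (hasseDeriv i f).natDegree ≤ u * f.derivative.natDegree) (u j : ℕ) :
    ∃ M : F[X], s * M.natDegree + u = u * f.natDegree ^ j ∧ w M.leadingCoeff = 1 ∧
      ∀ c, (∀ l, w (orb f c t l) ≤ w t) →
        w (M.eval c) ^ s ≤ w t ^ (f.derivative.natDegree * u * j) := by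
  induction j with
  | zero => exact ⟨1, by simp, by simp, fun c _ => by simp⟩
  | succ j ih =>
    obtain ⟨M, m1, m2, m3⟩ := ih
    obtain ⟨y1, y3⟩ := zp_sub_data w hk hd t t j
    have hM : M ≠ 0 := by rintro rfl; simp at m2
    refine ⟨M * (zp f t (j + 1) - C t) ^ u, ?_, ?_, fun c hc => ?_⟩
    · rw [natDegree_mul hM (pow_ne_zero _ (zp_sub_C_ne_zero hd t t j)), natDegree_pow, y1]
      calc s * (M.natDegree + u * f.natDegree ^ j) + u
          = s * u * f.natDegree ^ j + (s * M.natDegree + u) := by ring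
        _ = _ := by rw [m1, pow_succ, hs]; ring
    · rw [leadingCoeff_mul, leadingCoeff_pow, map_mul, map_pow, m2, y3, one_pow, mul_one]
    · rw [eval_mul, eval_pow, map_mul, map_pow, eval_sub, eval_zp, eval_C, mul_pow, mul_add,
        mul_one, pow_add, ← pow_mul, mul_comm u s, pow_mul, pow_mul (w t) _ u]
      exact mul_le_mul' (m3 c hc)
        (pow_le_pow_left₀ zero_le (small_disp w hk hd ht hs h1 hH hc _) _)

variable [IsAlgClosed F] {a : F}
  (hFT : ∀ c, (∀ l, w (orb f c t l) ≤ w t) → ∀ l, w (orb f c a l) ≤ w t)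
include hFT

omit hk hd ht [IsAlgClosed F] in
theorem qp_le {c : F} (hc : ∀ l, w (orb f c t l) ≤ w t) (n : ℕ) :
    w ((qp f t a n).eval c) ≤ w t := by
  rw [eval_qp]
  exact (w.map_sub _ _).trans (max_le (hc _) (hFT c hc _))

theorem linear_false {s : ℕ} (hs : f.natDegree = s + 1) (h1 : 1 ≤ f.derivative.natDegree)
    (hH : ∀ i u, 1 ≤ i → i + u = s + 1 →
      s * (hasseDeriv i f).natDegree ≤ u * f.derivative.natDegree)
    (hδ : 1 ≤ w (aeval t f - aeval a f)) : False := by
  have hδ0 : aeval t f - aeval a f ≠ 0 := by intro h; rw [h] at hδ; simp at hδ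
  have he : f.derivative.natDegree ≤ s := by
    have := natDegree_derivative_le f
    omega
  obtain ⟨u, hu⟩ := Nat.exists_eq_add_of_le he
  obtain ⟨q1, q2⟩ := rec_linear w hk hd hs h1 hH hδ0 (s + 1)
  obtain ⟨M, m1, m2, m3⟩ := exists_mult w hk hd ht hs h1 hH u (s + 1)
  obtain ⟨y1, y3⟩ := zp_sub_data w hk hd t t (s + 1)
  have hM : M ≠ 0 := by rintro rfl; simp at m2
  have hQ : qp f t a (s + 1 + 1) ≠ 0 := by
    intro h; rw [h] at q2; rw [← q2] at hδ; simp at hδ
  have hder : ∀ z, (zp f t (s + 1 + 1) - C t).IsRoot z →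
      w ((derivative (zp f t (s + 1 + 1) - C t)).eval z) =
        w t ^ (f.derivative.natDegree * (s + 1)) := fun z hz => by
    rw [derivative_sub, derivative_C, sub_zero,
      w_derivative_zp w hk hd ht h1 (root_bounded w hk hd ht hz)]
  obtain ⟨z, hz, hle⟩ := lagrange_ex w (G := qp f t a (s + 1 + 1) * M) y3
    (fun z hz h => by
      have := hder z hz
      rw [h, map_zero] at this
      exact pow_ne_zero _ (zero_lt_one.trans ht).ne' this.symm)
    (mul_ne_zero hQ hM) (by
      rw [natDegree_mul hQ hM, y1]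
      refine Nat.eq_of_mul_eq_mul_left (show 0 < s by omega) ?_
      set n := f.natDegree ^ (s + 1)
      set e := f.derivative.natDegree
      have : s * n = e * n + u * n := by rw [hu]; ring
      nlinarith)
  have hb := root_bounded w hk hd ht hz
  rw [hder z hz, leadingCoeff_mul, map_mul, m2, mul_one, q2, eval_mul, map_mul] at hle
  have h2 : (w t ^ (f.derivative.natDegree * (s + 1))) ^ s ≤
      w t ^ s * w t ^ (f.derivative.natDegree * u * (s + 1)) := by
    calc (w t ^ (f.derivative.natDegree * (s + 1))) ^ s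
        ≤ (w ((qp f t a (s + 1 + 1)).eval z) * w (M.eval z)) ^ s :=
          pow_le_pow_left₀ zero_le ((le_mul_of_one_le_left zero_le hδ).trans hle) _
      _ ≤ _ := by
          rw [mul_pow]
          exact mul_le_mul' (pow_le_pow_left₀ zero_le (qp_le w hFT hb _) _) (m3 z hb)
  rw [← pow_mul, ← pow_add, pow_le_pow_iff_right₀ ht] at h2
  set e := f.derivative.natDegree
  have h3 : e * (s + 1) * s = e * e * (s + 1) + e * u * (s + 1) := by
    conv_lhs => rw [show e * (s + 1) * s = e * (s + 1) * (e + u) by rw [← hu]]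
    ring
  have h4 : 1 * 1 * (s + 1) ≤ e * e * (s + 1) := by gcongr
  omega

theorem lead_le {s : ℕ} (hs : f.natDegree = s + 1) (j : ℕ) (hQ : qp f t a (j + 1) ≠ 0) :
    w (qp f t a (j + 1)).leadingCoeff ≤ w t ^ (1 + s * (j + 2)) := by
  obtain ⟨i, hi1, hi2, hsep⟩ := exists_sep w hk hd ht (j + 1)
  have hD : (qp f t a (j + 1)).natDegree < f.natDegree ^ i := by
    refine lt_of_le_of_lt (natDegree_sub_le _ _) ?_
    rw [(zp_deg hd t j).1, (zp_deg hd a j).1, max_self]
    exact Nat.pow_lt_pow_right (by omega) (by omega)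
  obtain ⟨M, m1, m2, m3⟩ := exists_digits w hk hd hs ht.le i
    (f.natDegree ^ i - 1 - (qp f t a (j + 1)).natDegree) (by omega)
  obtain ⟨y1, y3⟩ := zp_sub_data w hk hd t t i
  have hM : M ≠ 0 := by rintro rfl; simp at m2
  obtain ⟨z, hz, hle⟩ := lagrange_ex w (G := qp f t a (j + 1) * M) y3
    (fun z hz h => by
      have := hsep z hz
      rw [h, map_zero] at this
      simp at this)
    (mul_ne_zero hQ hM) (by rw [natDegree_mul hQ hM, y1, m1]; omega)
  have hb := root_bounded w hk hd ht hz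
  rw [leadingCoeff_mul, map_mul, m2, mul_one, eval_mul, map_mul] at hle
  calc w (qp f t a (j + 1)).leadingCoeff ≤ _ := le_mul_of_one_le_right zero_le (hsep z hz)
    _ ≤ _ := hle
    _ ≤ w t * w t ^ (s * i) := mul_le_mul' (qp_le w hFT hb _) (m3 z hb)
    _ = w t ^ (1 + s * i) := by rw [pow_add, pow_one]
    _ ≤ _ := pow_le_pow_right₀ ht.le (by gcongr)

theorem higher_false {s : ℕ} (hs : f.natDegree = s + 1) {v u : ℕ} (hv : v + u = s)
    (hH : u * f.derivative.natDegree < s * (hasseDeriv (v + 1) f).natDegree)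
    (hδ : 1 < w (aeval t f - aeval a f)) : False := by
  obtain ⟨K, hK⟩ := pow_unbounded_of_one_lt (w t) hδ
  obtain ⟨r, hr⟩ := exists_large ((K * (s + 1) + 1 : ℕ) : ℝ) 4
  have h1 : (K * (s + 1) + 1) * (4 + r) ^ 3 ≤ 2 ^ r := by exact_mod_cast hr r le_rfl
  have h2 := (rec_higher w hk hd hs hv hH hδ (r + 2)).2
  have hQ : qp f t a (r + 2 + 1) ≠ 0 := by
    intro h
    rw [h, leadingCoeff_zero, map_zero] at h2
    exact absurd h2 (not_le.mpr (pow_pos (zero_lt_one.trans hδ) _))
  have h3 := h2.trans ((lead_le w hk hd ht hFT hs _ hQ).trans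
    (pow_le_pow_left₀ zero_le hK.le _))
  rw [← pow_mul, pow_le_pow_iff_right₀ hδ, Nat.add_sub_cancel] at h3
  have h4 : 4 + r ≤ (4 + r) ^ 3 := Nat.le_self_pow (by omega) _
  have h5 : (K * (s + 1) + 1) * (4 + r) ≤ (K * (s + 1) + 1) * (4 + r) ^ 3 :=
    Nat.mul_le_mul_left _ h4
  nlinarith

theorem const_false [IsAlgClosed k] (p : ℕ) [Fact p.Prime] [CharP k p] {τ : k}
    (hτ : (f.comp (X + C τ) - f).natDegree ≠ 0) {j : ℕ}
    (hδ : ∀ c, orb f c a j = orb f c t j + algebraMap k F τ) : False := by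
  set Ψ := f.comp (X + C τ) - f with hΨ
  have hf0 := ne_zero_of_two_le hd
  have hY : ∀ c, orb f c a (j + 1) = orb f c t (j + 1) + aeval (orb f c t j) Ψ := fun c => by
    rw [orb_succ f c a j, orb_succ f c t j, hδ, hΨ, map_sub, aeval_comp]
    simp only [map_add, aeval_X, aeval_C]
    ring
  have hΨ0 : Ψ ≠ 0 := by intro h; rw [h] at hτ; simp at hτ
  by_cases h2 : 2 ≤ Ψ.natDegree
  · have e1 : ∀ n, orb f (t - aeval t f) t n = t := by
      intro n
      induction n with
      | zero => rfl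
      | succ n ih => rw [orb_succ, ih]; ring
    have hb : ∀ l, w (orb f (t - aeval t f) t l) ≤ w t := fun l => by rw [e1]
    have e2 : aeval t Ψ = orb f (t - aeval t f) a (j + 1) - t := by
      rw [hY, e1, e1]; ring
    have e3 : w (aeval t Ψ) ≤ w t := by
      rw [e2]; exact (w.map_sub _ _).trans (max_le (hFT _ hb _) le_rfl)
    rw [v_aeval_eq w hk hΨ0 ht] at e3
    exact absurd e3 (not_le.mpr (lt_self_pow₀ ht (by omega)))
  have hlin := eq_X_add_C_of_natDegree_le_one (show Ψ.natDegree ≤ 1 by omega)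
  have ha1 : Ψ.coeff 1 ≠ 0 := by
    rw [show 1 = Ψ.natDegree by omega]; exact leadingCoeff_ne_zero.mpr hΨ0
  obtain ⟨s, hs⟩ : ∃ s, f.natDegree = s + 1 := ⟨f.natDegree - 1, by omega⟩
  -- the polynomial `f(βX) - f(X)`
  have hcoeff : ∀ β : k, (f.comp (C β * X) - f).coeff f.natDegree =
      f.leadingCoeff * (β ^ f.natDegree - 1) := fun β => by
    rw [coeff_sub, comp_C_mul_X_coeff, leadingCoeff]; ring
  have hdeg : ∀ β : k, (f.comp (C β * X) - f).natDegree ≤ f.natDegree := fun β =>
    natDegree_le_iff_coeff_eq_zero.mpr fun n hn => by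
      rw [coeff_sub, comp_C_mul_X_coeff, coeff_eq_zero_of_natDegree_lt hn]; simp
  have hev : ∀ β : k, aeval t (f.comp (C β * X) - f) =
      aeval (algebraMap k F β * t) f - aeval t f := fun β => by
    rw [map_sub, aeval_comp]; simp
  have hRs : w t ^ s < w t ^ f.natDegree := pow_lt_pow_right₀ ht (by omega)
  have hR1 : w t < w t ^ f.natDegree := lt_self_pow₀ ht (by omega)
  have hβt : ∀ β : k, w (algebraMap k F β * t) ≤ w t := fun β => by
    rw [map_mul]; exact mul_le_of_le_one_left zero_le (hk β)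
  suffices key : ∀ ζ : k, ζ ^ f.natDegree = 1 →
      (Even j → (ζ + Ψ.coeff 1) ^ f.natDegree = 1) ∧
        (Odd j → (1 + Ψ.coeff 1 * ζ) ^ f.natDegree = 1) by
    refine unity_not_closed p (d := f.natDegree) (by omega) ha1 fun ζ hζ => ?_
    rcases Nat.even_or_odd j with hj | hj
    · have hζ0 : ζ ≠ 0 := by
        rintro rfl
        rw [zero_pow (by omega)] at hζ
        exact zero_ne_one hζ
      have := (key ζ⁻¹ (by rw [inv_pow, hζ, inv_one])).1 hj
      rw [show 1 + Ψ.coeff 1 * ζ = (ζ⁻¹ + Ψ.coeff 1) * ζ by field_simp, mul_pow, this, hζ, mul_one]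
    · exact (key ζ hζ).2 hj
  intro ζ hζ
  -- a parameter of period two with `z ≈ ζ t`
  set g : F[X] := f.map (algebraMap k F) + (X - C (aeval t f + t)) with hg
  have hg1 : (X - C (aeval t f + t)).natDegree < (f.map (algebraMap k F)).natDegree := by
    rw [natDegree_X_sub_C, natDegree_map]; omega
  have hg2 : g.natDegree = f.natDegree := by
    rw [hg, natDegree_add_eq_left_of_natDegree_lt hg1, natDegree_map]
  have hg3 : w g.leadingCoeff = 1 := by
    rw [hg, leadingCoeff_add_of_degree_lt' (degree_lt_degree hg1), leadingCoeff_map,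
      v_const w hk (leadingCoeff_ne_zero.mpr hf0)]
  have hgev : ∀ z, g.eval z = aeval z f + (z - (aeval t f + t)) := fun z => by
    simp [hg, eval_map_algebraMap]
  have hsmall : w (g.eval (algebraMap k F ζ * t)) < w t ^ f.natDegree := by
    have e1 : g.eval (algebraMap k F ζ * t) =
        aeval t (f.comp (C ζ * X) - f) + (algebraMap k F ζ * t - t) := by
      rw [hgev, hev]; ring
    rw [e1]
    refine w.map_add_lt ?_ (((w.map_sub _ _).trans (max_le (hβt ζ) le_rfl)).trans_lt hR1)
    refine (v_aeval_le' w hk _ le_rfl ht.le (n := s) ?_).trans_lt hRs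
    have := hdeg ζ
    rw [hs] at this
    refine natDegree_le_pred this ?_
    rw [← hs, hcoeff, hζ, sub_self, mul_zero]
  obtain ⟨z, hz, hzs⟩ : ∃ z, g.eval z = 0 ∧ w (algebraMap k F ζ * t - z) < w t := by
    by_contra hc
    push Not at hc
    have hg0 : g ≠ 0 := by intro h; rw [h] at hg3; simp at hg3
    have hsp := IsAlgClosed.splits g
    rw [hsp.eval_eq_prod_roots, map_mul, hg3, one_mul, map_multiset_prod, Multiset.map_map] at hsmall
    refine absurd hsmall (not_lt.mpr ?_)
    rw [← hg2, hsp.natDegree_eq_card_roots, ← Multiset.card_map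
      (w ∘ fun x => algebraMap k F ζ * t - x)]
    refine Multiset.pow_card_le_prod fun x hx => ?_
    obtain ⟨y, hy, rfl⟩ := Multiset.mem_map.mp hx
    exact hc y ((mem_roots hg0).mp hy)
  rw [hgev] at hz
  have e1 : orb f (z - aeval t f) t 1 = z := by rw [orb_succ, orb_zero]; ring
  have e2 : orb f (z - aeval t f) t 2 = t := by
    rw [orb_succ, e1]; linear_combination hz
  have hb := v_periodic w hk hd ht (by omega) e2
  have hb' := hFT _ hb
  have hclose : ∀ β : k, w (orb f (z - aeval t f) a (j + 1) - algebraMap k F β * t) < w t →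
      β ^ f.natDegree = 1 := by
    intro β e4
    have e5 : w (aeval (orb f (z - aeval t f) a (j + 1)) f - aeval (algebraMap k F β * t) f) <
        w t ^ f.natDegree := by
      refine (v_aeval_sub_le w hk f (hb' _) (hβt β) ht.le).trans_lt ?_
      rw [hs, Nat.add_sub_cancel, pow_succ]
      exact mul_lt_mul_of_pos_left e4 (pow_pos (zero_lt_one.trans ht) _)
    have e6 : w (aeval t (f.comp (C β * X) - f)) < w t ^ f.natDegree := by
      have : aeval t (f.comp (C β * X) - f) =
          (orb f (z - aeval t f) a (j + 1 + 1) - orb f (z - aeval t f) t 1) -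
            (aeval (orb f (z - aeval t f) a (j + 1)) f - aeval (algebraMap k F β * t) f) := by
        rw [hev, e1, orb_succ f _ a (j + 1)]; ring
      rw [this]
      exact w.map_sub_lt (((w.map_sub _ _).trans (max_le (hb' _) (hb 1))).trans_lt hR1) e5
    by_contra hne
    have e7 : (f.comp (C β * X) - f).coeff f.natDegree ≠ 0 := by
      rw [hcoeff]
      exact mul_ne_zero (leadingCoeff_ne_zero.mpr hf0) (sub_ne_zero.mpr hne)
    rw [v_aeval_eq w hk (by intro h; rw [h] at e7; simp at e7) ht,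
      natDegree_eq_of_le_of_coeff_ne_zero (hdeg β) e7] at e6
    exact lt_irrefl _ e6
  have e0 : ∀ x : F, aeval x Ψ =
      algebraMap k F (Ψ.coeff 1) * x + algebraMap k F (Ψ.coeff 0) := fun x => by
    conv_lhs => rw [hlin]
    simp only [map_add, map_mul, aeval_X, aeval_C]
  have hev2 : ∀ r, orb f (z - aeval t f) t (2 * r) = t := by
    intro r
    induction r with
    | zero => rfl
    | succ r ih => rw [Nat.mul_succ, orb_add, ih, e2]
  have hodd : ∀ r, orb f (z - aeval t f) t (2 * r + 1) = z := fun r => by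
    rw [orb_add, hev2, e1]
  constructor
  · rintro ⟨r, hr⟩
    rw [← two_mul] at hr
    refine hclose _ ?_
    have e3 : orb f (z - aeval t f) a (j + 1) - algebraMap k F (ζ + Ψ.coeff 1) * t =
        algebraMap k F (Ψ.coeff 0) - (algebraMap k F ζ * t - z) := by
      rw [hY, e0, hr, hev2, hodd, map_add]
      ring
    rw [e3]
    exact w.map_sub_lt ((hk _).trans_lt ht) hzs
  · rintro ⟨r, hr⟩
    refine hclose _ ?_
    have e3 : orb f (z - aeval t f) a (j + 1) - algebraMap k F (1 + Ψ.coeff 1 * ζ) * t =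
        algebraMap k F (Ψ.coeff 0) - algebraMap k F (Ψ.coeff 1) * (algebraMap k F ζ * t - z) := by
      have e8 := hev2 (r + 1)
      rw [Nat.mul_succ] at e8
      rw [hY, e0, hr, hodd, e8, map_add, map_mul, map_one]
      ring
    rw [e3]
    refine w.map_sub_lt ((hk _).trans_lt ht) ?_
    rw [map_mul]
    exact (mul_le_of_le_one_left zero_le (hk _)).trans_lt hzs

theorem large_false (hNA : ∃ i, i ≠ 0 ∧ 1 ≤ (hasseDeriv i f).natDegree)
    (hδ : 1 < w (aeval t f - aeval a f)) : False := by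
  obtain ⟨s, hs⟩ : ∃ s, f.natDegree = s + 1 := ⟨f.natDegree - 1, by omega⟩
  by_cases hH : ∀ i u, 1 ≤ i → i + u = s + 1 →
      s * (hasseDeriv i f).natDegree ≤ u * f.derivative.natDegree
  · refine linear_false w hk hd ht hFT hs ?_ hH hδ.le
    obtain ⟨i, hi0, hi1⟩ := hNA
    have h1 := natDegree_hasseDeriv_le f i
    have h2 := hH i (s + 1 - i) (by omega) (by omega)
    by_contra hc
    rw [show f.derivative.natDegree = 0 by omega, mul_zero] at h2
    have : 0 < s * (hasseDeriv i f).natDegree := Nat.mul_pos (by omega) hi1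
    omega
  · push Not at hH
    obtain ⟨i, u, h1, h2, h3⟩ := hH
    obtain ⟨v, rfl⟩ := Nat.exists_eq_add_of_le' h1
    exact higher_false w hk hd ht hFT hs (v := v) (u := u) (by omega) h3 hδ

end Pool.Agent.Lib.MP_a5410e_nt
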