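import Pool.Agent.Lib.MP_a5410e_nt.Full
import Pool.Agent.Lib.MP_a5410e_nt.Rigid

/-!
Colliding orbits: the polynomials without a chain of translations, and the converse.
-/

set_option autoImplicit false

open Polynomial NNReal

namespace Pool.Agent.Lib.MP_a5410e_nt

/-- A chain of translations: `f(X + τ n) = f(X) + τ (n + 1)` with `τ 0 ≠ 0`. -/
def Chain {k : Type*} [Field k] (f : k[X]) : Prop :=
  ∃ τ : ℕ → k, τ 0 ≠ 0 ∧ ∀ n, f.comp (X + C (τ n)) = f + C (τ (n + 1))

section onefield

variable {k : Type*} [Field k] {f : k[X]}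

theorem comp_eq_of_natDegree {τ : k} (h : (f.comp (X + C τ) - f).natDegree = 0) :
    f.comp (X + C τ) = f + C (f.eval τ - f.eval 0) := by
  have h1 := eq_C_of_natDegree_eq_zero h
  have h2 := congrArg (eval 0) h1
  simp only [eval_sub, eval_comp, eval_add, eval_X, eval_C, zero_add] at h2
  rw [h2, ← h1]; ring

theorem comp_eq_of_not_na (h : ¬ ∃ i, i ≠ 0 ∧ 1 ≤ (hasseDeriv i f).natDegree) (τ : k) :
    f.comp (X + C τ) = f + C (f.eval τ - f.eval 0) := by
  refine comp_eq_of_natDegree ?_
  have h1 := taylor_sum f (X : k[X]) (C τ)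
  rw [aeval_X_left_apply, ← comp_eq_aeval] at h1
  rw [h1]
  refine Nat.le_zero.mp (natDegree_sum_le_of_forall_le _ _ fun i hi => ?_)
  push Not at h
  have h2 := h i (by have := (Finset.mem_Icc.mp hi).1; omega)
  rw [aeval_X_left_apply, ← C_pow]
  exact (natDegree_mul_C_le _ _).trans (by omega)

theorem na_of_not_chain (h : ¬ Chain f) : ∃ i, i ≠ 0 ∧ 1 ≤ (hasseDeriv i f).natDegree := by
  by_contra hc
  refine h ⟨fun n => (fun x => f.eval x - f.eval 0)^[n] 1, one_ne_zero, fun n => ?_⟩
  simp only [Function.iterate_succ_apply']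
  exact comp_eq_of_not_na hc _

theorem derivative_deg_of_tame (hd : 2 ≤ f.natDegree) (h : (f.natDegree : k) ≠ 0) :
    f.derivative.natDegree = f.natDegree - 1 := by
  refine le_antisymm (natDegree_derivative_le f) (le_natDegree_of_ne_zero ?_)
  have h1 : f.natDegree - 1 + 1 = f.natDegree := by omega
  rw [coeff_derivative, ← Nat.cast_succ, Nat.succ_eq_add_one, h1]
  exact mul_ne_zero (leadingCoeff_ne_zero.mpr (ne_zero_of_two_le hd)) h

/-- In the tame case the orbits of two constants with different images never agree identically. -/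
theorem tame_ne (hd : 2 ≤ f.natDegree) (h : (f.natDegree : k) ≠ 0) {a₁ a₂ : k}
    (hδ : aeval a₁ f - aeval a₂ f ≠ 0) (j : ℕ) : qp f a₁ a₂ (j + 1) ≠ 0 := by
  classical
  obtain ⟨s, hs⟩ : ∃ s, f.natDegree = s + 1 := ⟨f.natDegree - 1, by omega⟩
  have h1 := derivative_deg_of_tame hd h
  have h2 := (rec_linear (1 : Valuation k ℝ≥0) (fun c => Valuation.one_apply_le_one _) hd hs
    (by omega) (fun i u _ hu => by
      have := natDegree_hasseDeriv_le f i
      rw [h1, hs, Nat.add_sub_cancel, mul_comm u]
      exact Nat.mul_le_mul_left _ (by omega)) hδ j).2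
  intro h0
  rw [h0, leadingCoeff_zero, map_zero] at h2
  exact (Valuation.ne_zero_iff _).mpr hδ h2.symm

theorem not_chain_of_tame (hd : 2 ≤ f.natDegree) (h : (f.natDegree : k) ≠ 0) : ¬ Chain f := by
  rintro ⟨τ, h0, h1⟩
  have h2 := congrArg (fun P => P.coeff (f.natDegree - 1)) (h1 0)
  obtain ⟨s, hs⟩ : ∃ s, f.natDegree = s + 1 := ⟨f.natDegree - 1, by omega⟩
  have h3 : (hasseDeriv s f).natDegree ≤ 1 := (natDegree_hasseDeriv_le f s).trans (by omega)
  simp only [hs, Nat.add_sub_cancel] at h2
  rw [← taylor_apply, taylor_coeff, coeff_add, coeff_C_of_ne_zero (by omega), add_zero,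
    eq_X_add_C_of_natDegree_le_one h3] at h2
  simp only [hasseDeriv_coeff, eval_add, eval_mul, eval_C, eval_X, zero_add, Nat.choose_self,
    Nat.cast_one, one_mul, add_eq_right] at h2
  rw [add_comm 1 s, Nat.choose_succ_self_right, ← hs] at h2
  exact mul_ne_zero (mul_ne_zero h (leadingCoeff_ne_zero.mpr (ne_zero_of_two_le hd))) h0 h2

end onefield

variable {k F : Type*} [Field k] [Field F] [Algebra k F] {f : k[X]} (hd : 2 ≤ f.natDegree)
include hd

/-- Infinitely many parameters send `a` to `b`, in a number of steps divisible by `N`. -/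
theorem infinite_along [IsAlgClosed F] (a b : F) {N : ℕ} (hN : 1 ≤ N) :
    {c | ∃ q, 1 ≤ q ∧ orb f c a (N * q) = b}.Infinite := by
  classical
  intro hfin
  set S := hfin.toFinset with hS
  set r := S.card with hr
  have hroot : ∀ i, ∃ c ∈ S, (X - C c) ^ (f.natDegree ^ (N * r)) ∣
      zp f a (N * (2 * r + 1 + i)) - C b := by
    intro i
    obtain ⟨n, hn⟩ : ∃ n, N * (2 * r + 1 + i) = n + 1 :=
      ⟨N * (2 * r + 1 + i) - 1, by
        have : 0 < N * (2 * r + 1 + i) := Nat.mul_pos hN (by omega)
        omega⟩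
    have hP := zp_sub_C_ne_zero hd a b n
    have hdeg := (zp_sub_C_deg hd a b n).1
    rw [hn]
    by_contra hc
    push Not at hc
    have h1 : (zp f a (n + 1) - C b).roots.toFinset ⊆ S := by
      intro c hc'
      rw [Multiset.mem_toFinset, mem_roots hP] at hc'
      refine (Set.Finite.mem_toFinset _).mpr ⟨2 * r + 1 + i, by omega, ?_⟩
      rw [hn]
      simpa [IsRoot, eval_zp, sub_eq_zero] using hc'
    have h2 : f.natDegree ^ n ≤ r * f.natDegree ^ (N * r) := by
      rw [← hdeg, (IsAlgClosed.splits _).natDegree_eq_card_roots,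
        ← Multiset.toFinset_sum_count_eq]
      refine (Finset.sum_le_card_nsmul _ _ (f.natDegree ^ (N * r)) fun c hc' => ?_).trans ?_
      · rw [count_roots]
        by_contra h
        exact hc c (h1 hc') ((le_rootMultiplicity_iff hP).mp (not_le.mp h).le)
      · exact Nat.mul_le_mul_right _ (Finset.card_le_card h1)
    have h3 : r * f.natDegree ^ (N * r) < f.natDegree ^ n := by
      calc r * f.natDegree ^ (N * r) < f.natDegree ^ r * f.natDegree ^ (N * r) :=
            Nat.mul_lt_mul_of_pos_right (lt_pow_deg hd r) (by positivity)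
        _ = f.natDegree ^ (r + N * r) := (pow_add _ _ _).symm
        _ ≤ _ := Nat.pow_le_pow_right (by omega) (by nlinarith)
    omega
  choose c hc1 hc2 using hroot
  obtain ⟨i, hi, j, hj, hij, hcij⟩ : ∃ i ∈ Finset.range (r + 1), ∃ j ∈ Finset.range (r + 1),
      i < j ∧ c i = c j := by
    obtain ⟨i, hi, j, hj, hne, h⟩ := Finset.exists_ne_map_eq_of_card_lt_of_maps_to
      (s := Finset.range (r + 1)) (t := S) (by simp [hr]) (f := c) fun i _ => hc1 i
    rcases lt_or_gt_of_ne hne with h1 | h1
    · exact ⟨i, hi, j, hj, h1, h⟩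
    · exact ⟨j, hj, i, hi, h1, h.symm⟩
  obtain ⟨l, rfl⟩ := Nat.exists_eq_add_of_lt hij
  have key : ∀ (H x y : F[X]) (n : ℕ), H ∣ x - y → H ∣ orb f X x n - orb f X y n := by
    intro H x y n h
    induction n with
    | zero => exact h
    | succ n ih =>
      rw [orb_succ, orb_succ, add_sub_add_right_eq_sub, ← eval_map_algebraMap,
        ← eval_map_algebraMap]
      exact ih.trans (sub_dvd_eval_sub _ _ _)
  obtain ⟨n, hn⟩ : ∃ n, N * (l + 1) = n + 1 :=
    ⟨N * (l + 1) - 1, by
      have : 0 < N * (l + 1) := Nat.mul_pos hN (by omega)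
      omega⟩
  have h1 := key _ _ _ (n + 1) (hc2 i)
  have h2 := hc2 (i + l + 1)
  rw [← hcij, show N * (2 * r + 1 + (i + l + 1)) = N * (2 * r + 1 + i) + (n + 1) by
    rw [← hn]; ring, zp, orb_add] at h2
  have h3 : (X - C (c i)) ^ (f.natDegree ^ (N * r)) ∣ zp f b (n + 1) - C b := by
    have := dvd_sub h2 h1
    rw [zp]
    convert this using 1
    rw [zp]; ring
  have h4 := natDegree_le_of_dvd h3 (zp_sub_C_ne_zero hd b b n)
  rw [natDegree_pow, natDegree_X_sub_C, mul_one, (zp_sub_C_deg hd b b n).1,
    Nat.pow_le_pow_iff_right (by omega)] at h4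
  have h5 : N * (l + 1) ≤ N * r := Nat.mul_le_mul_left _ (by
    have := Finset.mem_range.mp hj; omega)
  omega

theorem infinite_of_merge [IsAlgClosed F] {a₁ a₂ : F} (b : F) {i : ℕ}
    (h : ∀ c, orb f c a₁ i = orb f c a₂ i) : (coll f a₁ a₂ b).Infinite := by
  refine ((infinite_along hd a₁ b le_rfl).sdiff (finite_early hd a₁ b i)).mono ?_
  rintro c ⟨⟨q, h1, h2⟩, h3⟩
  rw [one_mul] at h2
  have h4 : i ≤ q := by
    by_contra hc
    exact h3 ⟨q, h1, by omega, h2⟩
  obtain ⟨r, rfl⟩ := Nat.exists_eq_add_of_le h4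
  exact ⟨i + r, i + r, h1, h1, h2, by rw [orb_add, ← h, ← orb_add, h2]⟩

omit hd in
theorem orb_shift {τ : ℕ → k} {n : ℕ}
    (h : ∀ l, l < n → f.comp (X + C (τ l)) = f + C (τ (l + 1))) (c x : F) :
    orb f c (x + algebraMap k F (τ 0)) n = orb f c x n + algebraMap k F (τ n) := by
  induction n with
  | zero => rfl
  | succ n ih =>
    have h1 := congrArg (aeval (orb f c x n)) (h n (by omega))
    simp only [aeval_comp, map_add, aeval_X, aeval_C] at h1
    rw [orb_succ, orb_succ, ih fun l hl => h l (by omega), h1]; ring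

theorem main_trans [IsAlgClosed F] [IsAlgClosed k] (p : ℕ) [Fact p.Prime] [CharP k p]
    (h1 : ∀ a : F, Transcendental k a → ∀ x, AlgOver k a x) (hch : ¬ Chain f) {t a b : F}
    (htr : Transcendental k t) (h : (coll f t a b).Infinite) : aeval t f = aeval a f := by
  classical
  obtain ⟨w, hk, ht⟩ := exists_place h1 htr
  have hNA := na_of_not_chain hch
  have halg := h1 t htr
  by_contra hne
  by_cases hle : ∀ σ : F ≃ₐ[k] F, σ t = t → w (σ (aeval a f - aeval t f)) ≤ 1
  · obtain ⟨τ₀, hτ₀⟩ := mem_range_of_conj_le w hk ht halg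
      (((reg_of_infinite hd h1 h).aeval f).sub ((reg_self t).aeval f)) hle
    set τ : ℕ → k := fun n => (fun x => f.eval x - f.eval 0)^[n] τ₀ with hτ
    have hex : ∃ n, ¬ f.comp (X + C (τ n)) = f + C (τ (n + 1)) := by
      by_contra hc
      push Not at hc
      refine hch ⟨τ, ?_, hc⟩
      intro h0
      have : τ₀ = 0 := h0
      rw [this, map_zero] at hτ₀
      exact hne (sub_eq_zero.mp hτ₀.symm).symm
    refine const_false w hk hd ht (fun c hc l => full hd w hk ht halg hNA h hc l) p
      (τ := τ (Nat.find hex)) (j := 1 + Nat.find hex) (fun h0 => Nat.find_spec hex ?_) fun c => ?_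
    · have e0 : ∀ n, τ (n + 1) = f.eval (τ n) - f.eval 0 := fun n =>
        Function.iterate_succ_apply' _ _ _
      rw [comp_eq_of_natDegree h0, e0]
    · have e1 : orb f c a 1 = orb f c t 1 + algebraMap k F (τ 0) := by
        rw [orb_succ, orb_succ, orb_zero, orb_zero]
        change _ = _ + algebraMap k F τ₀
        rw [hτ₀]; ring
      rw [orb_add, orb_add, e1]
      exact orb_shift (τ := τ) (n := Nat.find hex)
        (fun l hl => not_not.mp (Nat.find_min hex hl)) _ _
  · push Not at hle
    obtain ⟨σ, hσ, hlt⟩ := hle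
    have h2 := coll_map σ h
    rw [hσ] at h2
    refine large_false w hk hd ht (a := σ a)
      (fun c hc l => full hd w hk ht halg hNA h2 hc l) hNA ?_
    have e1 : ∀ x, σ (aeval x f) = aeval (σ x) f := fun x =>
      (aeval_algHom_apply (σ : F →ₐ[k] F) x f).symm
    rwa [map_sub, e1, e1, hσ, w.map_sub_swap] at hlt

theorem main_const [IsAlgClosed k] (htame : (f.natDegree : k) ≠ 0) {a₁ a₂ : k} {b : F}
    (hb : Transcendental k b)
    (h : (coll f (algebraMap k F a₁) (algebraMap k F a₂) b).Nonempty) :
    aeval a₁ f = aeval a₂ f := by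
  obtain ⟨c, m, n, hm, hn, h1, h2⟩ := h
  rw [← aeval_zp] at h1 h2
  have hc : Transcendental k c := by
    intro hc
    obtain ⟨c₀, rfl⟩ := minpoly.mem_range_of_degree_eq_one k c
      (IsAlgClosed.degree_eq_one_of_irreducible k (minpoly.irreducible hc.isIntegral))
    rw [aeval_algebraMap_apply] at h1
    exact hb (h1 ▸ isAlgebraic_algebraMap _)
  have h3 : zp f a₁ m = zp f a₂ n := transcendental_iff_injective.mp hc (h1.trans h2.symm)
  obtain ⟨m, rfl⟩ := Nat.exists_eq_add_of_le' hm
  obtain ⟨n, rfl⟩ := Nat.exists_eq_add_of_le' hn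
  have h4 : m = n := by
    have := congrArg natDegree h3
    rw [(zp_deg hd a₁ m).1, (zp_deg hd a₂ n).1] at this
    exact Nat.pow_right_injective hd this
  subst h4
  by_contra hne
  exact tame_ne hd htame (sub_ne_zero.mpr hne) m (sub_eq_zero.mpr h3)

/-- A chain of translations gives a counterexample. -/
theorem converse [IsAlgClosed k] (p : ℕ) [Fact p.Prime] [CharP k p] (hch : Chain f) (t : k) :
    ∃ a : k, (coll f a t t).Infinite ∧ aeval a f ≠ aeval t f := by
  classical
  -- a chain with finitely many values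
  obtain ⟨τ, h0, hτ, hfin⟩ : ∃ τ : ℕ → k, τ 0 ≠ 0 ∧
      (∀ n, f.comp (X + C (τ n)) = f + C (τ (n + 1))) ∧ (Set.range τ).Finite := by
    by_cases hNA : ∃ i, i ≠ 0 ∧ 1 ≤ (hasseDeriv i f).natDegree
    · obtain ⟨τ, h0, hτ⟩ := hch
      obtain ⟨i, hi0, hi1⟩ := hNA
      have hne : hasseDeriv i f - C (f.coeff i) ≠ 0 := by
        intro h
        have := congrArg natDegree h
        rw [natDegree_sub_C, natDegree_zero] at this
        omega
      refine ⟨τ, h0, hτ, (finite_setOfPred_isRoot hne).subset ?_⟩
      rintro _ ⟨n, rfl⟩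
      have := congrArg (fun P => P.coeff i) (hτ n)
      simp only [← taylor_apply, taylor_coeff, coeff_add, coeff_C_of_ne_zero hi0, add_zero] at this
      simp [IsRoot, this]
    · have hadd := comp_eq_of_not_na hNA
      by_cases hfix : ∃ s : k, s ≠ 0 ∧ f.eval s - f.eval 0 = s
      · obtain ⟨s, hs0, hs⟩ := hfix
        exact ⟨fun _ => s, hs0, fun _ => by rw [hadd, hs], by simp⟩
      · push Not at hfix
        obtain ⟨s, hs0, hs⟩ : ∃ s : k, s ≠ 0 ∧ f.eval s - f.eval 0 = 0 := by
          set g := f - C (f.eval 0) - X with hg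
          have hg1 : g.natDegree = f.natDegree := by
            rw [hg, natDegree_sub_eq_left_of_natDegree_lt, natDegree_sub_C]
            rw [natDegree_sub_C, natDegree_X]; omega
          have hg0 : g ≠ 0 := by intro h; rw [h, natDegree_zero] at hg1; omega
          have hg2 : g.roots = Multiset.replicate f.natDegree 0 := by
            rw [Multiset.eq_replicate, ← (IsAlgClosed.splits g).natDegree_eq_card_roots]
            refine ⟨hg1, fun s hs => ?_⟩
            by_contra hs0
            have := (mem_roots hg0).mp hs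
            simp only [hg, IsRoot, eval_sub, eval_C, eval_X, sub_eq_zero] at this
            exact hfix s hs0 this
          have hg3 : ∀ s, g.eval s = g.leadingCoeff * s ^ f.natDegree := fun s => by
            rw [(IsAlgClosed.splits g).eval_eq_prod_roots, hg2]
            simp
          obtain ⟨s, hs⟩ := IsAlgClosed.exists_pow_nat_eq (-g.leadingCoeff⁻¹)
            (show 0 < f.natDegree - 1 by omega)
          have hl := leadingCoeff_ne_zero.mpr hg0
          refine ⟨s, ?_, ?_⟩
          · rintro rfl
            rw [zero_pow (by omega)] at hs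
            exact neg_ne_zero.mpr (inv_ne_zero hl) hs.symm
          · have h1 := hg3 s
            rw [show f.natDegree = f.natDegree - 1 + 1 by omega, pow_succ, hs] at h1
            have h2 : g.eval s = f.eval s - f.eval 0 - s := by simp [hg]
            rw [h2, ← mul_assoc, mul_neg, mul_inv_cancel₀ hl] at h1
            linear_combination h1
        refine ⟨fun n => if n = 0 then s else 0, by simpa using hs0, fun n => ?_,
          (Set.toFinite {s, 0}).subset ?_⟩
        · by_cases hn : n = 0
          · simp only [hn, if_true, hadd, hs]; simp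
          · simp [hn]
        · rintro _ ⟨n, rfl⟩
          by_cases hn : n = 0 <;> simp [hn]
  have hdet : ∀ n, τ (n + 1) = f.eval (τ n) - f.eval 0 := fun n => by
    have := congrArg (eval 0) (hτ n)
    simp only [eval_comp, eval_add, eval_X, eval_C, zero_add] at this
    rw [this]; ring
  obtain ⟨i, j, hij, hτij⟩ : ∃ i j, i < j ∧ τ i = τ j := by
    obtain ⟨i, j, hne, h⟩ := Function.not_injective_iff.mp
      (fun h => Set.infinite_range_of_injective h hfin)
    rcases lt_or_gt_of_ne h with h1 | h1
    · exact ⟨i, j, h1, hne⟩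
    · exact ⟨j, i, h1, hne.symm⟩
  by_cases hi : τ i = 0
  · obtain ⟨a, ha⟩ := IsAlgClosed.exists_eval₂_eq_zero (RingHom.id k)
      (f - C (f.eval t + τ 0)) (by
        rw [degree_eq_natDegree (by
          intro h
          have := congrArg natDegree h
          rw [natDegree_sub_C, natDegree_zero] at this
          omega), natDegree_sub_C]
        exact_mod_cast (by omega : f.natDegree ≠ 0))
    rw [eval₂_id, eval_sub, eval_C, sub_eq_zero] at ha
    refine ⟨a, infinite_of_merge hd t (i := 1 + i) fun c => ?_, ?_⟩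
    · have e1 : orb f c a 1 = orb f c t 1 + algebraMap k k (τ 0) := by
        rw [orb_succ, orb_succ, orb_zero, orb_zero, coe_aeval_eq_eval, coe_aeval_eq_eval, ha]
        simp only [Algebra.algebraMap_self, RingHom.id_apply]
        ring
      rw [orb_add, orb_add, e1, orb_shift fun l _ => hτ l, hi, map_zero, add_zero]
    · rw [coe_aeval_eq_eval, coe_aeval_eq_eval, ha]
      simpa using h0
  · obtain ⟨N, rfl⟩ := Nat.exists_eq_add_of_lt hij
    have hshift : ∀ c x n, orb f c (x + τ i) n = orb f c x n + τ (i + n) := fun c x n =>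
      orb_shift (τ := fun l => τ (i + l)) (n := n) (fun l _ => hτ (i + l)) c x
    have hper : ∀ c x q, orb f c (x + τ i) ((N + 1) * q) = orb f c x ((N + 1) * q) + τ i := by
      intro c x q
      induction q with
      | zero => simp
      | succ q ih =>
        rw [Nat.mul_succ, orb_add f c _ ((N + 1) * q) (N + 1), orb_add f c x ((N + 1) * q) (N + 1),
          ih, hshift]
        congr 1
        exact hτij.symm
    refine ⟨t + τ i, (infinite_along hd (t + τ i) t (N := N + 1) (by omega)).mono ?_, ?_⟩
    · rintro c ⟨q, hq, h⟩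
      have hm : 1 ≤ (N + 1) * q := Nat.mul_pos (by omega) hq
      have hp := fun x => hper c x q
      generalize (N + 1) * q = m at h hm hp
      have e1 : ∀ (s : ℕ) (x : k), orb f c (x + s * τ i) m = orb f c x m + s * τ i := by
        intro s
        induction s with
        | zero => simp
        | succ s ihs =>
          intro x
          rw [Nat.cast_succ, add_mul, one_mul, ← add_assoc, hp, ihs, add_assoc]
      have hit : ∀ r : ℕ, orb f c t (m * r) + r * τ i = t := by
        intro r
        induction r with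
        | zero => simp
        | succ r ih =>
          rw [Nat.mul_succ, orb_add, Nat.cast_succ, add_mul, one_mul, ← add_assoc, ← e1, ih,
            ← hp, h]
      refine ⟨m, m * p, hm, Nat.mul_pos hm (Fact.out : p.Prime).pos, h, ?_⟩
      simpa using hit p
    · intro h
      have e1 := hshift 0 t 1
      rw [orb_succ, orb_succ, orb_zero, orb_zero, h, left_eq_add] at e1
      have e2 : ∀ l, τ (i + 1 + l) = 0 := by
        intro l
        induction l with
        | zero => exact e1
        | succ l ih => rw [← add_assoc, hdet, ih, sub_self]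
      exact hi (by rw [hτij, ← e2 N]; congr 1; omega)

omit hd in
theorem exists_constants {k₀ E : Type} [Field k₀] [Field E] [Algebra k₀ E] [IsAlgClosed E] {t : E}
    (ht : Transcendental k₀ t) :
    ∃ (K : Type) (_ : Field K) (_ : Algebra K E), IsAlgClosed K ∧
      (∀ x : E, IsAlgebraic k₀ x → ∃ c : K, algebraMap K E c = x) ∧ Transcendental K t ∧
      ∀ a : E, Transcendental K a → ∀ x, AlgOver K a x := by
  obtain ⟨s, hts, hs⟩ := exists_isTranscendenceBasis_superset (R := k₀) (s := {t})
    (algebraicIndependent_unique_type_iff.mpr ht)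
  let i : s := ⟨t, hts rfl⟩
  let S : Set E := Subtype.val '' ({i}ᶜ : Set s)
  let K₀ := IntermediateField.adjoin k₀ S
  let K := algebraicClosure K₀ E
  have h1 : Transcendental K₀ t := IntermediateField.transcendental_adjoin_iff.mpr
    (hs.1.transcendental_adjoin (s := {i}ᶜ) (i := i) (by simp))
  have h2 : Transcendental K t := h1.algebraicClosure
  have h3 : IsTranscendenceBasis K fun _ : Unit => t := by
    refine (Algebra.IsAlgebraic.isTranscendenceBasis_iff K₀ K).mp ?_
    refine (algebraicIndependent_unique_type_iff.mpr h1).isTranscendenceBasis_iff_isAlgebraic.mpr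
      ⟨fun x => ?_⟩
    have hle : Algebra.adjoin k₀ (Set.range (Subtype.val : s → E)) ≤
        (Algebra.adjoin K₀ (Set.range fun _ : Unit => t)).restrictScalars k₀ := by
      refine Algebra.adjoin_le ?_
      rintro _ ⟨y, rfl⟩
      by_cases hy : y = i
      · rw [hy]
        exact Algebra.subset_adjoin (R := K₀) (s := Set.range fun _ : Unit => t) ⟨(), rfl⟩
      · have hm : (y : E) ∈ K₀ := IntermediateField.subset_adjoin _ _ ⟨y, hy, rfl⟩
        exact Subalgebra.algebraMap_mem (Algebra.adjoin K₀ (Set.range fun _ : Unit => t))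
          (⟨y, hm⟩ : K₀)
    exact (hs.isAlgebraic.1 x).tower_top_of_subalgebra_le hle
  refine ⟨K, inferInstance, inferInstance, (algebraicClosure.isAlgClosure K₀ E).isAlgClosed,
    fun x hx => ⟨⟨x, mem_algebraicClosure_iff.mpr (hx.tower_top K₀)⟩, rfl⟩, h2, fun a ha x => ?_⟩
  have h4 : IsTranscendenceBasis K fun _ : Unit => a :=
    (algebraicIndependent_unique_type_iff.mpr ha).isTranscendenceBasis_of_lift_trdeg_le_of_finite
      h3.lift_cardinalMk_eq_trdeg.ge
  obtain ⟨Q, hQ, hQ0⟩ := h4.isAlgebraic.1 x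
  have hl : Q.map (algebraMap _ E) ∈ lifts (ev K a) := by
    rw [lifts_iff_coeff_lifts]
    intro n
    rw [coeff_map]
    have h5 : (Q.coeff n : E) ∈ Algebra.adjoin K {a} :=
      Algebra.adjoin_mono (by simp) (Q.coeff n).2
    rw [Algebra.adjoin_singleton_eq_range_aeval] at h5
    exact h5
  obtain ⟨P, hP⟩ := (mem_lifts _).mp hl
  refine ⟨P, ?_, by rw [hP, eval_map_algebraMap]; exact hQ0⟩
  rintro rfl
  rw [Polynomial.map_zero] at hP
  exact (Polynomial.map_ne_zero_iff Subtype.val_injective).mpr hQ hP.symm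

end Pool.Agent.Lib.MP_a5410e_nt
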