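import Pool.Agent.Lib.MP_a5410e_nt.Disc

/-!
The difference of two orbits as a polynomial in the parameter: degree and leading coefficient.
-/

set_option autoImplicit false

open Polynomial NNReal

namespace Pool.Agent.Lib.MP_a5410e_nt

theorem taylor_sum {k B : Type*} [Field k] [CommRing B] [Algebra k B] (f : k[X]) (y q : B) :
    aeval (y + q) f - aeval y f =
      ∑ i ∈ Finset.Icc 1 f.natDegree, aeval y (hasseDeriv i f) * q ^ i := by
  have hmap : ∀ i, hasseDeriv i (f.map (algebraMap k B)) =
      (hasseDeriv i f).map (algebraMap k B) := by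
    intro i; ext n; simp [hasseDeriv_coeff]
  have h1 : aeval (y + q) f = (taylor y (f.map (algebraMap k B))).eval q := by
    rw [taylor_eval, eval_map_algebraMap, add_comm]
  have h2 : (taylor y (f.map (algebraMap k B))).natDegree < f.natDegree + 1 := by
    rw [natDegree_taylor]; exact Nat.lt_succ_of_le natDegree_map_le
  have h3 : Finset.range (f.natDegree + 1) = insert 0 (Finset.Icc 1 f.natDegree) := by
    ext i; simp only [Finset.mem_range, Finset.mem_insert, Finset.mem_Icc]; omega
  rw [h1, eval_eq_sum_range' h2, h3, Finset.sum_insert (by simp)]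
  simp only [taylor_coeff, hmap, eval_map_algebraMap, hasseDeriv_zero', pow_zero, mul_one]
  ring

theorem exists_large (A : ℝ) (c : ℕ) : ∃ r₀ : ℕ, ∀ r, r₀ ≤ r → A * ((c + r : ℕ) : ℝ) ^ 3 ≤ 2 ^ r := by
  have h1 := (tendsto_pow_const_div_const_pow_of_one_lt 3 (show (1 : ℝ) < 2 by norm_num)).comp
    (Filter.tendsto_add_atTop_nat c)
  have hpos : (0 : ℝ) < 1 / ((|A| + 1) * 2 ^ c) := by positivity
  obtain ⟨r₀, hr₀⟩ := Filter.eventually_atTop.mp (h1.eventually (gt_mem_nhds hpos))
  refine ⟨r₀, fun r hr => ?_⟩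
  have h2 := hr₀ r hr
  simp only [Function.comp] at h2
  rw [div_lt_div_iff₀ (by positivity) (by positivity), one_mul, pow_add (2 : ℝ), ← mul_assoc,
    mul_lt_mul_iff_left₀ (by positivity), add_comm r c] at h2
  have h3 : A ≤ |A| + 1 := (le_abs_self A).trans (by linarith)
  calc A * ((c + r : ℕ) : ℝ) ^ 3 ≤ (|A| + 1) * ((c + r : ℕ) : ℝ) ^ 3 := by gcongr
    _ ≤ 2 ^ r := by rw [mul_comm]; exact h2.le

variable {k F : Type*} [Field k] [Field F] [Algebra k F] (w : Valuation F ℝ≥0)

theorem sum_dom (I : Finset ℕ) (T : ℕ → F[X]) {j E : ℕ} (hj : j ∈ I)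
    (h0 : (T j).coeff E ≠ 0) (hdeg : ∀ i ∈ I, (T i).natDegree ≤ E)
    (hlt : ∀ i ∈ I, i ≠ j → w ((T i).coeff E) < w ((T j).coeff E)) :
    (∑ i ∈ I, T i).natDegree = E ∧ w (∑ i ∈ I, T i).leadingCoeff = w ((T j).coeff E) := by
  have h00 : w ((T j).coeff E) ≠ 0 := (Valuation.ne_zero_iff w).mpr h0
  have h1 : w ((∑ i ∈ I, T i).coeff E) = w ((T j).coeff E) := by
    rw [finsetSum_coeff, ← Finset.add_sum_erase _ _ hj, w.map_add_eq_of_lt_left]
    exact w.map_sum_lt h00 fun i hi =>
      hlt i (Finset.mem_of_mem_erase hi) (Finset.ne_of_mem_erase hi)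
  have h2 : (∑ i ∈ I, T i).natDegree = E :=
    natDegree_eq_of_le_of_coeff_ne_zero (natDegree_sum_le_of_forall_le _ _ hdeg)
      (by intro h; rw [h, map_zero] at h1; exact h00 h1.symm)
  exact ⟨h2, by rw [leadingCoeff, h2, h1]⟩

theorem lagrange_ex [IsAlgClosed F] {P G : F[X]} (hP : w P.leadingCoeff = 1)
    (hsep : ∀ z, P.IsRoot z → P.derivative.eval z ≠ 0) (hG : G ≠ 0)
    (hdeg : G.natDegree + 1 = P.natDegree) :
    ∃ z, P.IsRoot z ∧ w G.leadingCoeff * w (P.derivative.eval z) ≤ w (G.eval z) := by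
  classical
  obtain ⟨Z, h1, h2, h3, -⟩ := roots_pkg w hP hsep
  by_contra hc
  push Not at hc
  have h4 := Lagrange.leadingCoeff_eq_sum (s := Z) (v := id) (Set.injOn_id _) (P := G)
    (by rw [degree_eq_natDegree hG, h1, ← hdeg]; norm_cast)
  have h5 : w G.leadingCoeff ≠ 0 := (Valuation.ne_zero_iff w).mpr (leadingCoeff_ne_zero.mpr hG)
  refine lt_irrefl (w G.leadingCoeff) ?_
  conv_lhs => rw [h4]
  refine w.map_sum_lt h5 fun z hz => ?_
  have h6 := (h2 z).mp hz
  simp only [id]
  rw [map_div₀, h3 z hz, div_lt_iff₀ ((Valuation.pos_iff w).mpr (hsep z h6))]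
  exact hc z h6

/-- The difference of the orbits of `t` and `a`. -/
noncomputable def qp (f : k[X]) (t a : F) (n : ℕ) : F[X] := zp f t n - zp f a n

theorem qp_one (f : k[X]) (t a : F) : qp f t a 1 = C (aeval t f - aeval a f) := by
  rw [qp, zp_one, zp_one, map_sub]; ring

theorem qp_succ (f : k[X]) (t a : F) (n : ℕ) :
    qp f t a (n + 1) = aeval (zp f a n + qp f t a n) f - aeval (zp f a n) f := by
  rw [qp, zp_succ, zp_succ, qp, add_sub_cancel]; ring

theorem eval_qp (f : k[X]) (t a : F) (n : ℕ) (c : F) :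
    (qp f t a n).eval c = orb f c t n - orb f c a n := by
  rw [qp, eval_sub, eval_zp, eval_zp]

variable (hk : ∀ c : k, w (algebraMap k F c) ≤ 1)
include hk

theorem term_deg {g : k[X]} (hg : g ≠ 0) {Y Q : F[X]} (hY : Y.natDegree ≠ 0)
    (hY1 : w Y.leadingCoeff = 1) (hQ : Q ≠ 0) (i : ℕ) :
    (aeval Y g * Q ^ i).natDegree = g.natDegree * Y.natDegree + i * Q.natDegree ∧
      w (aeval Y g * Q ^ i).leadingCoeff = w Q.leadingCoeff ^ i := by
  have h1 : w (aeval Y g).leadingCoeff = 1 := by
    rw [leadingCoeff_aeval_poly _ hY, map_mul, map_pow, hY1, one_pow, mul_one,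
      v_const w hk (leadingCoeff_ne_zero.mpr hg)]
  have h2 : aeval Y g ≠ 0 := by intro h; rw [h] at h1; simp at h1
  constructor
  · rw [natDegree_mul h2 (pow_ne_zero _ hQ), natDegree_pow, natDegree_aeval_poly]
  · rw [leadingCoeff_mul, leadingCoeff_pow, map_mul, map_pow, h1, one_mul]

theorem rec_step {f : k[X]} {Y Q : F[X]} (hY : Y.natDegree ≠ 0)
    (hY1 : w Y.leadingCoeff = 1) (hQ : Q ≠ 0) {j : ℕ} (hj : j ∈ Finset.Icc 1 f.natDegree)
    (hg : hasseDeriv j f ≠ 0)
    (hmax : ∀ i ∈ Finset.Icc 1 f.natDegree, i ≠ j → hasseDeriv i f ≠ 0 →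
      (hasseDeriv i f).natDegree * Y.natDegree + i * Q.natDegree <
        (hasseDeriv j f).natDegree * Y.natDegree + j * Q.natDegree ∨
      ((hasseDeriv i f).natDegree * Y.natDegree + i * Q.natDegree =
        (hasseDeriv j f).natDegree * Y.natDegree + j * Q.natDegree ∧
        w Q.leadingCoeff ^ i < w Q.leadingCoeff ^ j)) :
    (aeval (Y + Q) f - aeval Y f).natDegree =
        (hasseDeriv j f).natDegree * Y.natDegree + j * Q.natDegree ∧
      w (aeval (Y + Q) f - aeval Y f).leadingCoeff = w Q.leadingCoeff ^ j := by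
  obtain ⟨a1, a2⟩ := term_deg w hk hg hY hY1 hQ j
  have hκ : 0 < w Q.leadingCoeff ^ j :=
    pow_pos ((Valuation.pos_iff w).mpr (leadingCoeff_ne_zero.mpr hQ)) _
  have a3 : w ((aeval Y (hasseDeriv j f) * Q ^ j).coeff
      ((hasseDeriv j f).natDegree * Y.natDegree + j * Q.natDegree)) = w Q.leadingCoeff ^ j := by
    rw [← a1]; exact a2
  rw [taylor_sum, ← a3]
  refine sum_dom w _ (fun i => aeval Y (hasseDeriv i f) * Q ^ i) hj ?_ ?_ ?_
  · intro h
    rw [h, map_zero] at a3
    exact hκ.ne a3
  · intro i hi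
    by_cases hi0 : hasseDeriv i f = 0
    · simp [hi0]
    rw [(term_deg w hk hi0 hY hY1 hQ i).1]
    by_cases hij : i = j
    · rw [hij]
    · rcases hmax i hi hij hi0 with h | h
      · exact h.le
      · exact h.1.le
  · intro i hi hij
    rw [a3]
    by_cases hi0 : hasseDeriv i f = 0
    · simpa [hi0] using hκ
    obtain ⟨b1, b2⟩ := term_deg w hk hi0 hY hY1 hQ i
    rcases hmax i hi hij hi0 with h | h
    · rw [coeff_eq_zero_of_natDegree_lt (by rw [b1]; exact h), map_zero]; exact hκ
    · rw [← h.1, ← b1, ← leadingCoeff, b2]; exact h.2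

variable {f : k[X]} (hd : 2 ≤ f.natDegree)
include hd

theorem zp_data (a : F) (n : ℕ) : (zp f a (n + 1)).natDegree = f.natDegree ^ n ∧
    (zp f a (n + 1)).natDegree ≠ 0 ∧ w (zp f a (n + 1)).leadingCoeff = 1 := by
  obtain ⟨h1, c, hc, h2⟩ := zp_deg hd a n
  exact ⟨h1, by rw [h1]; exact pow_ne_zero _ (by omega), by rw [h2, v_const w hk hc]⟩

theorem zp_sub_data (a b : F) (n : ℕ) : (zp f a (n + 1) - C b).natDegree = f.natDegree ^ n ∧
    w (zp f a (n + 1) - C b).leadingCoeff = 1 := by
  obtain ⟨h1, c, hc, h2⟩ := zp_sub_C_deg hd a b n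
  exact ⟨h1, by rw [h2, v_const w hk hc]⟩

/-- When the linear term dominates. -/
theorem rec_linear {s : ℕ} (hs : f.natDegree = s + 1) (h1 : 1 ≤ f.derivative.natDegree)
    (hH : ∀ i u, 1 ≤ i → i + u = s + 1 →
      s * (hasseDeriv i f).natDegree ≤ u * f.derivative.natDegree)
    {t a : F} (hδ : aeval t f - aeval a f ≠ 0) (j : ℕ) :
    s * (qp f t a (j + 1)).natDegree + f.derivative.natDegree =
        f.derivative.natDegree * f.natDegree ^ j ∧
      w (qp f t a (j + 1)).leadingCoeff = w (aeval t f - aeval a f) := by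
  induction j with
  | zero => rw [zero_add, qp_one, natDegree_C, leadingCoeff_C]; simp
  | succ j ih =>
    obtain ⟨hD, hκ⟩ := ih
    obtain ⟨y1, y2, y3⟩ := zp_data w hk hd a j
    have hQ : qp f t a (j + 1) ≠ 0 := by
      intro h
      rw [h, leadingCoeff_zero, map_zero] at hκ
      exact (Valuation.ne_zero_iff w).mpr hδ hκ.symm
    have hf : hasseDeriv 1 f ≠ 0 := by
      rw [hasseDeriv_one']; intro h; rw [h] at h1; simp at h1
    obtain ⟨c1, c2⟩ := rec_step w hk (f := f) y2 y3 hQ (j := 1)
      (Finset.mem_Icc.mpr ⟨le_rfl, by omega⟩) hf (by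
        intro i hi hi1 _
        left
        obtain ⟨i1, i2⟩ := Finset.mem_Icc.mp hi
        obtain ⟨u, hu⟩ := Nat.exists_eq_add_of_le (show i ≤ s + 1 by omega)
        have b1 := hH i u i1 hu.symm
        rw [hasseDeriv_one', y1]
        set e := (hasseDeriv i f).natDegree
        set e1 := f.derivative.natDegree
        set n := f.natDegree ^ j
        set D := (qp f t a (j + 1)).natDegree
        have A : s * (e * n + i * D) + i * e1 ≤ (s + 1) * e1 * n := by
          calc s * (e * n + i * D) + i * e1 = (s * e) * n + i * (s * D + e1) := by ring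
            _ ≤ (u * e1) * n + i * (e1 * n) := by rw [hD]; gcongr
            _ = (i + u) * e1 * n := by ring
            _ = _ := by rw [hu]
        have B : s * (e1 * n + 1 * D) + e1 = (s + 1) * e1 * n := by
          calc s * (e1 * n + 1 * D) + e1 = s * e1 * n + (s * D + e1) := by ring
            _ = _ := by rw [hD]; ring
        have C' : 2 * e1 ≤ i * e1 := Nat.mul_le_mul_right _ (by omega)
        exact Nat.lt_of_mul_lt_mul_left (a := s) (by omega))
    rw [qp_succ, c1, c2, pow_one, hκ, hasseDeriv_one', y1]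
    refine ⟨?_, rfl⟩
    calc s * (f.derivative.natDegree * f.natDegree ^ j + 1 * (qp f t a (j + 1)).natDegree) +
          f.derivative.natDegree = s * f.derivative.natDegree * f.natDegree ^ j +
            (s * (qp f t a (j + 1)).natDegree + f.derivative.natDegree) := by ring
      _ = _ := by rw [hD, pow_succ, hs]; ring

/-- When a higher term dominates, the leading coefficient grows doubly exponentially. -/
theorem rec_higher {s : ℕ} (hs : f.natDegree = s + 1) {v u : ℕ} (hv : v + u = s)
    (hH : u * f.derivative.natDegree < s * (hasseDeriv (v + 1) f).natDegree)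
    {t a : F} (hδ : 1 < w (aeval t f - aeval a f)) (j : ℕ) :
    f.derivative.natDegree * f.natDegree ^ j ≤
        s * (qp f t a (j + 1)).natDegree + f.derivative.natDegree ∧
      w (aeval t f - aeval a f) ^ (2 ^ (j - 2)) ≤ w (qp f t a (j + 1)).leadingCoeff := by
  classical
  induction j with
  | zero => rw [zero_add, qp_one, natDegree_C, leadingCoeff_C]; simp
  | succ j ih =>
    obtain ⟨hD, hκ⟩ := ih
    obtain ⟨y1, y2, y3⟩ := zp_data w hk hd a j
    have hκ1 : 1 < w (qp f t a (j + 1)).leadingCoeff :=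
      (one_lt_pow₀ hδ (by positivity)).trans_le hκ
    have hQ : qp f t a (j + 1) ≠ 0 := by
      intro h
      rw [h, leadingCoeff_zero, map_zero] at hκ1
      simp at hκ1
    have hv0 : hasseDeriv (v + 1) f ≠ 0 := by
      intro h; rw [h] at hH; simp at hH
    have hv1 : v ≠ 0 := by
      rintro rfl
      rw [zero_add] at hv hH
      rw [hasseDeriv_one', hv] at hH
      exact lt_irrefl _ hH
    set n := f.natDegree ^ j with hn
    set D := (qp f t a (j + 1)).natDegree with hDdef
    set g : ℕ → ℕ := fun i => (hasseDeriv i f).natDegree * n + i * D with hg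
    obtain ⟨i, hi, hmax⟩ := Finset.exists_max_image
      ((Finset.Icc 1 f.natDegree).filter fun i => hasseDeriv i f ≠ 0)
      (fun i => toLex (g i, i))
      ⟨v + 1, Finset.mem_filter.mpr ⟨Finset.mem_Icc.mpr ⟨by omega, by omega⟩, hv0⟩⟩
    obtain ⟨hi1, hi2⟩ := Finset.mem_filter.mp hi
    have hmax' : ∀ l ∈ Finset.Icc 1 f.natDegree, hasseDeriv l f ≠ 0 →
        g l < g i ∨ (g l = g i ∧ l ≤ i) := fun l hl hl0 => by
      simpa [Prod.Lex.le_iff] using hmax l (Finset.mem_filter.mpr ⟨hl, hl0⟩)
    obtain ⟨c1, c2⟩ := rec_step w hk (f := f) y2 y3 hQ hi1 hi2 (by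
      intro l hl hli hl0
      rw [y1]
      rcases hmax' l hl hl0 with h | h
      · exact Or.inl h
      · exact Or.inr ⟨h.1, pow_lt_pow_right₀ hκ1 (lt_of_le_of_ne h.2 hli)⟩)
    rw [y1] at c1
    have hi3 := (Finset.mem_Icc.mp hi1).1
    set e1 := f.derivative.natDegree with he1
    have hg1 : g 1 = e1 * n + D := by simp [hg, he1]
    have hge : e1 * n + D ≤ g i := by
      by_cases hf : hasseDeriv 1 f = 0
      · have : e1 = 0 := by rw [he1, ← hasseDeriv_one', hf, natDegree_zero]
        rw [this, zero_mul, zero_add]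
        exact le_add_left (Nat.le_mul_of_pos_left _ hi3)
      · rw [← hg1]
        rcases hmax' 1 (Finset.mem_Icc.mpr ⟨le_rfl, by omega⟩) hf with h | h
        · exact h.le
        · exact h.1.le
    rw [qp_succ, c1, c2]
    constructor
    · calc e1 * f.natDegree ^ (j + 1) = s * e1 * n + e1 * n := by rw [pow_succ, ← hn, hs]; ring
        _ ≤ s * e1 * n + (s * D + e1) := by gcongr
        _ = s * (e1 * n + D) + e1 := by ring
        _ ≤ s * g i + e1 := by gcongr
    · by_cases hj : 2 ≤ j
      · have hi4 : 2 ≤ i := by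
          by_contra hc
          have hi5 : i = 1 := by omega
          have he : e1 ≤ s := by
            have := natDegree_derivative_le f
            omega
          have hn2 : v * e1 ≤ n := by
            calc v * e1 ≤ f.natDegree * f.natDegree := Nat.mul_le_mul (by omega) (by omega)
              _ = f.natDegree ^ 2 := (sq _).symm
              _ ≤ n := Nat.pow_le_pow_right (by omega) hj
          have A : s * g 1 ≤ s * g (v + 1) := by
            have a1 : (u * e1 + 1) * n ≤ s * (hasseDeriv (v + 1) f).natDegree * n :=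
              Nat.mul_le_mul_right _ hH
            have a2 : v * (e1 * n) ≤ v * (s * D + e1) := Nat.mul_le_mul_left _ hD
            have a3 : s * g (v + 1) = s * (hasseDeriv (v + 1) f).natDegree * n +
                v * (s * D) + s * D := by simp only [hg]; ring
            have a4 : s * g 1 = v * (e1 * n) + u * e1 * n + s * D := by
              rw [hg1, ← hv]; ring
            rw [a3, a4]
            nlinarith
          have B : g 1 ≤ g (v + 1) := Nat.le_of_mul_le_mul_left A (by omega)
          rcases hmax' (v + 1) (Finset.mem_Icc.mpr ⟨by omega, by omega⟩) hv0 with h | h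
          · rw [hi5] at h; omega
          · omega
        calc w (aeval t f - aeval a f) ^ (2 ^ (j + 1 - 2))
            = (w (aeval t f - aeval a f) ^ (2 ^ (j - 2))) ^ 2 := by
              rw [← pow_mul, ← pow_succ]; congr 2; omega
          _ ≤ w (qp f t a (j + 1)).leadingCoeff ^ 2 := by gcongr
          _ ≤ _ := pow_le_pow_right₀ hκ1.le hi4
      · calc w (aeval t f - aeval a f) ^ (2 ^ (j + 1 - 2))
            = w (aeval t f - aeval a f) ^ (2 ^ (j - 2)) := by congr 2; omega
          _ ≤ w (qp f t a (j + 1)).leadingCoeff := hκ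
          _ ≤ _ := le_self_pow₀ hκ1.le (by omega)

end Pool.Agent.Lib.MP_a5410e_nt
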